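import Mathlib

set_option autoImplicit false

/-!
Counting of values of quadratic polynomials over `ZMod p` which are squares.
-/

namespace Pool.Agent.Helper83.MC

open Finset

/-- If every fibre over the image has at least two elements, with at most `t` exceptions, then the
image has at most `(|s| + t)/2` elements. -/
theorem two_mul_card_image_le {α β : Type*} [DecidableEq α] [DecidableEq β] (s : Finset α)
    (f : α → β) (J : Finset β)
    (h : ∀ a ∈ s, f a ∉ J → ∃ b ∈ s, b ≠ a ∧ f b = f a) :
    2 * (s.image f).card ≤ s.card + J.card := by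
  have h1 : s.card = ∑ w ∈ s.image f, (s.filter (fun a => f a = w)).card :=
    Finset.card_eq_sum_card_image f s
  have h2 : ∀ w ∈ s.image f, 2 ≤ (s.filter (fun a => f a = w)).card + (if w ∈ J then 1 else 0) := by
    intro w hw
    obtain ⟨a, ha, rfl⟩ := Finset.mem_image.1 hw
    by_cases hJ : f a ∈ J
    · have : 1 ≤ (s.filter (fun b => f b = f a)).card :=
        Finset.card_pos.2 ⟨a, Finset.mem_filter.2 ⟨ha, rfl⟩⟩
      simp only [hJ, if_true]
      omega
    · obtain ⟨b, hb, hne, hfb⟩ := h a ha hJ
      have : 1 < (s.filter (fun b => f b = f a)).card :=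
        Finset.one_lt_card.2 ⟨a, Finset.mem_filter.2 ⟨ha, rfl⟩, b, Finset.mem_filter.2 ⟨hb, hfb⟩, hne.symm⟩
      omega
  have h3 : ∑ w ∈ s.image f, 2 ≤ ∑ w ∈ s.image f,
      ((s.filter (fun a => f a = w)).card + (if w ∈ J then 1 else 0)) := Finset.sum_le_sum h2
  rw [Finset.sum_add_distrib, ← h1] at h3
  have h4 : ∑ w ∈ s.image f, (if w ∈ J then 1 else 0) ≤ J.card := by
    rw [Finset.sum_ite, Finset.sum_const_zero, add_zero, Finset.sum_const, smul_eq_mul, mul_one]
    exact Finset.card_le_card (fun x hx => (Finset.mem_filter.1 hx).2)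
  simp only [Finset.sum_const, smul_eq_mul] at h3
  omega

variable {p : ℕ} [Fact p.Prime]

theorem card_sq_eq_le (a : ZMod p) : ((univ : Finset (ZMod p)).filter (fun u => u ^ 2 = a)).card ≤ 2 := by
  by_contra hc
  push Not at hc
  obtain ⟨u, hu, v, hv, w, hw, huv, huw, hvw⟩ := Finset.two_lt_card.1 hc
  simp only [mem_filter, mem_univ, true_and] at hu hv hw
  have h1 : (u - v) * (u + v) = 0 := by linear_combination hu - hv
  have h2 : (u - w) * (u + w) = 0 := by linear_combination hu - hw
  have h3 : u + v = 0 := by
    rcases mul_eq_zero.1 h1 with h | h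
    · exact absurd (sub_eq_zero.1 h) huv
    · exact h
  have h4 : u + w = 0 := by
    rcases mul_eq_zero.1 h2 with h | h
    · exact absurd (sub_eq_zero.1 h) huw
    · exact h
  exact hvw (by linear_combination h3 - h4)

theorem two_ne (hp2 : p ≠ 2) : (2 : ZMod p) ≠ 0 := by
  intro h
  have h1 : ((2 : ℕ) : ZMod p) = 0 := by exact_mod_cast h
  rw [ZMod.natCast_eq_zero_iff] at h1
  exact hp2 ((Nat.prime_dvd_prime_iff_eq Fact.out Nat.prime_two).1 h1)

theorem card_ne_zero : ((univ : Finset (ZMod p)).filter (fun u => u ≠ 0)).card = p - 1 := by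
  rw [Finset.filter_ne', Finset.card_erase_of_mem (mem_univ _), Finset.card_univ, ZMod.card]

/-- squares -/
theorem card_squares_le (hp2 : p ≠ 2) :
    2 * ((univ : Finset (ZMod p)).filter (fun s => IsSquare s)).card ≤ p + 1 := by
  classical
  have h2 := two_ne hp2
  have hsub : (univ : Finset (ZMod p)).filter (fun s => IsSquare s) ⊆
      (univ : Finset (ZMod p)).image (fun z => z * z) := by
    intro s hs
    obtain ⟨z, hz⟩ := (mem_filter.1 hs).2
    exact mem_image.2 ⟨z, mem_univ _, hz.symm⟩
  have h3 := two_mul_card_image_le (univ : Finset (ZMod p)) (fun z => z * z) {0} (by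
    intro a _ ha
    simp only [mem_singleton] at ha
    refine ⟨-a, mem_univ _, ?_, by ring⟩
    intro h
    apply ha
    have : (2 : ZMod p) * a = 0 := by linear_combination -h
    rcases mul_eq_zero.1 this with h | h
    · exact absurd h h2
    · rw [h]; ring)
  have h4 := Finset.card_le_card hsub
  rw [Finset.card_univ, ZMod.card, Finset.card_singleton] at h3
  omega

theorem sq_count1 (hp2 : p ≠ 2) (D : ZMod p) (hD : D ≠ 0) :
    2 * ((univ : Finset (ZMod p)).filter (fun w => IsSquare (w ^ 2 - D))).card ≤ p + 1 := by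
  classical
  have h2 := two_ne hp2
  set U : Finset (ZMod p) := (univ : Finset (ZMod p)).filter (fun u => u ≠ 0) with hU
  set φ : ZMod p → ZMod p := fun u => (u + D / u) / 2 with hφ
  have hsub : (univ : Finset (ZMod p)).filter (fun w => IsSquare (w ^ 2 - D)) ⊆ U.image φ := by
    intro w hw
    obtain ⟨z, hz⟩ := (mem_filter.1 hw).2
    have h3 : (w - z) * (w + z) = D := by linear_combination hz
    have h4 : w + z ≠ 0 := by
      intro h; rw [h, mul_zero] at h3; exact hD h3.symm
    refine mem_image.2 ⟨w + z, mem_filter.2 ⟨mem_univ _, h4⟩, ?_⟩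
    simp only [hφ]
    have h5 : D / (w + z) = w - z := by rw [div_eq_iff h4]; exact h3.symm
    rw [h5]; field_simp; ring
  have h3 := two_mul_card_image_le U φ ((univ : Finset (ZMod p)).filter (fun w => w ^ 2 = D)) (by
    intro a ha hJ
    have ha0 : a ≠ 0 := (mem_filter.1 ha).2
    refine ⟨D / a, mem_filter.2 ⟨mem_univ _, div_ne_zero hD ha0⟩, ?_, ?_⟩
    · intro h
      apply hJ
      refine mem_filter.2 ⟨mem_univ _, ?_⟩
      have h5 : D = a * a := by rwa [div_eq_iff ha0] at h
      simp only [hφ]
      rw [h]
      have : (a + a) / 2 = a := by field_simp; ring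
      rw [this, h5]; ring
    · simp only [hφ]
      have : D / (D / a) = a := by field_simp
      rw [this, add_comm])
  have h4 := Finset.card_le_card hsub
  have h5 := card_sq_eq_le D
  have hUc : U.card = p - 1 := by rw [hU, card_ne_zero]
  rw [hUc] at h3
  have h6 : 1 ≤ p := (Fact.out : p.Prime).one_lt.le
  omega

theorem sq_count2 (hp2 : p ≠ 2) (D : ZMod p) (hD : D ≠ 0) :
    2 * ((univ : Finset (ZMod p)).filter (fun w => ¬ ∃ z : ZMod p, z ≠ 0 ∧ w ^ 2 - D = z ^ 2)).card
      ≤ p + 3 := by
  classical
  have h2 := two_ne hp2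
  set N : Finset (ZMod p) :=
    (univ : Finset (ZMod p)).filter (fun w => ∃ z : ZMod p, z ≠ 0 ∧ w ^ 2 - D = z ^ 2) with hN
  set U : Finset (ZMod p) := ((univ : Finset (ZMod p)).filter (fun u => u ≠ 0)) \
    ((univ : Finset (ZMod p)).filter (fun u => u ^ 2 = D)) with hU
  set φ : ZMod p → ZMod p := fun u => (u + D / u) / 2 with hφ
  have hmem : ∀ u ∈ U, u ≠ 0 ∧ u ^ 2 ≠ D := by
    intro u hu
    simp only [hU, mem_sdiff, mem_filter, mem_univ, true_and] at hu
    exact hu
  have hmap : U.image φ ⊆ N := by
    intro w hw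
    obtain ⟨u, hu, rfl⟩ := mem_image.1 hw
    obtain ⟨hu0, huD⟩ := hmem u hu
    refine mem_filter.2 ⟨mem_univ _, (u - D / u) / 2, ?_, ?_⟩
    · intro h
      apply huD
      have h3 : u - D / u = 0 := by
        rcases div_eq_zero_iff.1 h with h | h
        · exact h
        · exact absurd h h2
      have h4 : u = D / u := sub_eq_zero.1 h3
      rw [eq_div_iff hu0] at h4
      rw [← h4]; ring
    · simp only [hφ]
      field_simp
      ring
  have hfib : ∀ w ∈ U.image φ, (U.filter (fun u => φ u = w)).card ≤ 2 := by
    intro w _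
    by_contra hc
    push Not at hc
    obtain ⟨a, ha, b, hb, c, hc', hab, hac, hbc⟩ := Finset.two_lt_card.1 hc
    rw [mem_filter] at ha hb hc'
    have key : ∀ u, u ∈ U → φ u = w → u ^ 2 - 2 * w * u + D = 0 := by
      intro u hu h
      have hu0 := (hmem u hu).1
      rw [← h]; simp only [hφ]; field_simp; ring
    have k1 := key a ha.1 ha.2
    have k2 := key b hb.1 hb.2
    have k3 := key c hc'.1 hc'.2
    have h1 : (a - b) * (a + b - 2 * w) = 0 := by linear_combination k1 - k2
    have h3 : (a - c) * (a + c - 2 * w) = 0 := by linear_combination k1 - k3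
    have h4 : a + b - 2 * w = 0 := by
      rcases mul_eq_zero.1 h1 with h | h
      · exact absurd (sub_eq_zero.1 h) hab
      · exact h
    have h5 : a + c - 2 * w = 0 := by
      rcases mul_eq_zero.1 h3 with h | h
      · exact absurd (sub_eq_zero.1 h) hac
      · exact h
    exact hbc (by linear_combination h4 - h5)
  have h3 : U.card ≤ 2 * (U.image φ).card := Finset.card_le_mul_card_image U 2 hfib
  have h4 := Finset.card_le_card hmap
  have h5 : p - 1 - 2 ≤ U.card := by
    have h6 := Finset.le_card_sdiff ((univ : Finset (ZMod p)).filter (fun u => u ^ 2 = D))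
      ((univ : Finset (ZMod p)).filter (fun u => u ≠ 0))
    rw [card_ne_zero, ← hU] at h6
    have h7 := card_sq_eq_le D
    omega
  have h6 : N.card + ((univ : Finset (ZMod p)).filter
      (fun w => ¬ ∃ z : ZMod p, z ≠ 0 ∧ w ^ 2 - D = z ^ 2)).card = p := by
    rw [hN, Finset.card_filter_add_card_filter_not, Finset.card_univ, ZMod.card]
  have h7 : 3 ≤ p := by
    have := (Fact.out : p.Prime).two_le
    omega
  omega

/-- a non-degenerate quadratic (or linear) polynomial takes square values at most `(p+3)/2` times -/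
theorem sq_count_quad (hp2 : p ≠ 2) (a b c : ZMod p) (h : b ^ 2 - a * c ≠ 0) :
    2 * ((univ : Finset (ZMod p)).filter (fun y => IsSquare (a * y ^ 2 + 2 * b * y + c))).card
      ≤ p + 3 := by
  classical
  have h2 := two_ne hp2
  by_cases ha : a = 0
  · subst ha
    have hb : b ≠ 0 := by
      intro hb; apply h; rw [hb]; ring
    have h3 := card_squares_le (p := p) hp2
    have h4 : ((univ : Finset (ZMod p)).filter
        (fun y => IsSquare (0 * y ^ 2 + 2 * b * y + c))).card ≤
        ((univ : Finset (ZMod p)).filter (fun s => IsSquare s)).card := by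
      refine Finset.card_le_card_of_injOn (fun y => 0 * y ^ 2 + 2 * b * y + c) ?_ ?_
      · intro y hy
        have := (mem_filter.1 (mem_coe.1 hy)).2
        exact mem_coe.2 (mem_filter.2 ⟨mem_univ _, this⟩)
      · intro y _ z _ hyz
        have h5 : (2 * b) * (y - z) = 0 := by
          have : 0 * y ^ 2 + 2 * b * y + c = 0 * z ^ 2 + 2 * b * z + c := hyz
          linear_combination this
        rcases mul_eq_zero.1 h5 with h6 | h6
        · exact absurd h6 (mul_ne_zero h2 hb)
        · exact sub_eq_zero.1 h6
    omega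
  · have hid : ∀ y : ZMod p, a * (a * y ^ 2 + 2 * b * y + c)
        = (a * y + b) ^ 2 - (b ^ 2 - a * c) := by intro y; ring
    have hinj : ∀ y z : ZMod p, a * y + b = a * z + b → y = z := by
      intro y z hyz
      have h5 : a * (y - z) = 0 := by linear_combination hyz
      rcases mul_eq_zero.1 h5 with h6 | h6
      · exact absurd h6 ha
      · exact sub_eq_zero.1 h6
    by_cases hs : IsSquare a
    · have h3 := sq_count1 hp2 (b ^ 2 - a * c) h
      have h4 : ((univ : Finset (ZMod p)).filter
          (fun y => IsSquare (a * y ^ 2 + 2 * b * y + c))).card ≤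
          ((univ : Finset (ZMod p)).filter (fun w => IsSquare (w ^ 2 - (b ^ 2 - a * c)))).card := by
        refine Finset.card_le_card_of_injOn (fun y => a * y + b) ?_ ?_
        · intro y hy
          have := (mem_filter.1 (mem_coe.1 hy)).2
          refine mem_coe.2 (mem_filter.2 ⟨mem_univ _, ?_⟩)
          show IsSquare ((a * y + b) ^ 2 - (b ^ 2 - a * c))
          rw [← hid]
          exact hs.mul this
        · intro y _ z _ hyz
          exact hinj y z hyz
      omega
    · have h3 := sq_count2 hp2 (b ^ 2 - a * c) h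
      have h4 : ((univ : Finset (ZMod p)).filter
          (fun y => IsSquare (a * y ^ 2 + 2 * b * y + c))).card ≤
          ((univ : Finset (ZMod p)).filter
            (fun w => ¬ ∃ z : ZMod p, z ≠ 0 ∧ w ^ 2 - (b ^ 2 - a * c) = z ^ 2)).card := by
        refine Finset.card_le_card_of_injOn (fun y => a * y + b) ?_ ?_
        · intro y hy
          have hy2 := (mem_filter.1 (mem_coe.1 hy)).2
          refine mem_coe.2 (mem_filter.2 ⟨mem_univ _, ?_⟩)
          rintro ⟨z, hz, hzz⟩
          obtain ⟨s, hs2⟩ := hy2
          have h5 : (a * y + b) ^ 2 - (b ^ 2 - a * c) = z ^ 2 := hzz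
          rw [← hid, hs2] at h5
          have hs0 : s ≠ 0 := by
            intro h6
            rw [h6] at h5
            apply hz
            have : z ^ 2 = 0 := by rw [← h5]; ring
            exact pow_eq_zero_iff (two_ne_zero) |>.1 this
          apply hs
          refine ⟨z / s, ?_⟩
          field_simp
          linear_combination h5
        · intro y _ z _ hyz
          exact hinj y z hyz
      omega

end Pool.Agent.Helper83.MC
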