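import Mathlib

set_option autoImplicit false

/-!
Sums of hinge functions along residue classes.
-/

namespace Pool.Agent.Helper83.MC

open Finset

theorem sum_le_of_inj {ι : Type*} (T : Finset ι) (φ : ι → ℤ) (M : ℕ) (ψ : ℕ → ℤ) (i : ι → ℕ)
    (hi : ∀ c ∈ T, i c < M) (hinj : ∀ c ∈ T, ∀ d ∈ T, i c = i d → c = d)
    (hle : ∀ c ∈ T, φ c ≤ ψ (i c)) (hψ : ∀ j, 0 ≤ ψ j) :
    ∑ c ∈ T, φ c ≤ ∑ j ∈ range M, ψ j := by
  classical
  calc ∑ c ∈ T, φ c ≤ ∑ c ∈ T, ψ (i c) := Finset.sum_le_sum hle
    _ = ∑ j ∈ T.image i, ψ j := (Finset.sum_image (fun c hc d hd h => hinj c hc d hd h)).symm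
    _ ≤ ∑ j ∈ range M, ψ j := by
        refine Finset.sum_le_sum_of_subset_of_nonneg ?_ (fun j _ _ => hψ j)
        intro j hj
        obtain ⟨c, hc, rfl⟩ := mem_image.1 hj
        exact mem_range.2 (hi c hc)

theorem hinge_sum (P : ℤ) (hP : 0 < P) (M : ℕ) : ∀ s : ℤ,
    8 * P * ∑ j ∈ range M, max 0 (s - (j : ℤ) * P) ≤ (2 * s + P) ^ 2 := by
  induction M with
  | zero => intro s; simp only [range_zero, sum_empty, mul_zero]; positivity
  | succ M ih =>
    intro s
    rw [Finset.sum_range_succ']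
    simp only [Nat.cast_zero, zero_mul, sub_zero, Nat.cast_add, Nat.cast_one]
    have h1 : ∑ j ∈ range M, max 0 (s - ((j : ℤ) + 1) * P)
        = ∑ j ∈ range M, max 0 ((s - P) - (j : ℤ) * P) := by
      refine Finset.sum_congr rfl (fun j _ => ?_)
      congr 1; ring
    rw [h1]
    by_cases hs : 0 ≤ s
    · have := ih (s - P)
      rw [max_eq_right hs]
      nlinarith [this]
    · push Not at hs
      have h0 : ∑ j ∈ range M, max 0 ((s - P) - (j : ℤ) * P) = 0 := by
        refine Finset.sum_eq_zero (fun j _ => ?_)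
        rw [max_eq_left]
        have : 0 ≤ (j : ℤ) * P := by positivity
        linarith
      rw [h0, max_eq_left hs.le]
      simp only [add_zero, mul_zero]
      positivity

/-- the weight of a row -/
def fw (n : ℕ) (x : ℤ) : ℤ := max 0 (max ((n : ℤ) - 2 - 4 * x) (4 * x + 2 - 3 * n))

theorem fw_sum (n : ℕ) : 4 * ∑ x ∈ range n, fw n (x : ℤ) ≤ (n : ℤ) ^ 2 := by
  have h1 : ∑ x ∈ range n, fw n (x : ℤ)
      ≤ ∑ x ∈ range n, max 0 (((n : ℤ) - 2) - (x : ℤ) * 4)
        + ∑ x ∈ range n, max 0 (((n : ℤ) - 2) - (((n - 1 - x : ℕ) : ℤ)) * 4) := by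
    rw [← Finset.sum_add_distrib]
    refine Finset.sum_le_sum (fun x hx => ?_)
    have hx' := mem_range.1 hx
    have hc : (((n - 1 - x : ℕ) : ℤ)) = n - 1 - x := by omega
    rw [hc]
    unfold fw
    omega
  have h2 : ∑ x ∈ range n, max 0 (((n : ℤ) - 2) - (((n - 1 - x : ℕ) : ℤ)) * 4)
      = ∑ x ∈ range n, max 0 (((n : ℤ) - 2) - (x : ℤ) * 4) :=
    Finset.sum_range_reflect (fun x => max 0 (((n : ℤ) - 2) - (x : ℤ) * 4)) n
  have h3 := hinge_sum 4 (by norm_num) n ((n : ℤ) - 2)
  rw [h2] at h1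
  nlinarith [h1, h3]

theorem class_sum (P : ℤ) (hP : 0 < P) (n : ℕ) (r : ℤ) (hr0 : 0 ≤ r) (hrP : r < P) (T : Finset ℤ)
    (hT : ∀ c ∈ T, -(n : ℤ) < c ∧ c < n ∧ P ∣ c - r) :
    4 * P * ∑ c ∈ T, min ((n : ℤ) - c) (n + c) ≤ 4 * (n : ℤ) ^ 2 + P ^ 2 := by
  classical
  have hsplit : ∑ c ∈ T, min ((n : ℤ) - c) (n + c)
      = ∑ c ∈ T.filter (fun c => 0 ≤ c), min ((n : ℤ) - c) (n + c)
        + ∑ c ∈ T.filter (fun c => ¬ 0 ≤ c), min ((n : ℤ) - c) (n + c) :=
    (Finset.sum_filter_add_sum_filter_not T _ _).symm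
  have hA : ∑ c ∈ T.filter (fun c => 0 ≤ c), min ((n : ℤ) - c) (n + c)
      ≤ ∑ j ∈ range n, max 0 (((n : ℤ) - r) - (j : ℤ) * P) := by
    refine sum_le_of_inj _ _ n _ (fun c => ((c - r) / P).toNat) ?_ ?_ ?_ (fun j => le_max_left _ _)
    · intro c hc
      rw [mem_filter] at hc
      obtain ⟨h1, h2, k, hk⟩ := hT c hc.1
      have hdiv : (c - r) / P = k := by rw [hk]; exact Int.mul_ediv_cancel_left _ hP.ne'
      simp only [hdiv]
      have hk0 : k < n := by
        by_contra h
        push Not at h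
        have : (n : ℤ) ≤ P * k := by nlinarith
        omega
      have : (0 : ℤ) ≤ n := by positivity
      omega
    · intro c hc d hd h
      rw [mem_filter] at hc hd
      obtain ⟨_, _, k, hk⟩ := hT c hc.1
      obtain ⟨_, _, l, hl⟩ := hT d hd.1
      have hdk : (c - r) / P = k := by rw [hk]; exact Int.mul_ediv_cancel_left _ hP.ne'
      have hdl : (d - r) / P = l := by rw [hl]; exact Int.mul_ediv_cancel_left _ hP.ne'
      simp only [hdk, hdl] at h
      have hk0 : 0 ≤ k := by
        by_contra hh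
        push Not at hh
        have : P * k ≤ -P := by nlinarith
        omega
      have hl0 : 0 ≤ l := by
        by_contra hh
        push Not at hh
        have : P * l ≤ -P := by nlinarith
        omega
      have : k = l := by omega
      rw [this] at hk
      omega
    · intro c hc
      rw [mem_filter] at hc
      obtain ⟨_, _, k, hk⟩ := hT c hc.1
      have hdk : (c - r) / P = k := by rw [hk]; exact Int.mul_ediv_cancel_left _ hP.ne'
      simp only [hdk]
      have hk0 : 0 ≤ k := by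
        by_contra hh
        push Not at hh
        have : P * k ≤ -P := by nlinarith
        omega
      rw [Int.toNat_of_nonneg hk0]
      have h5 : (n : ℤ) - r - k * P = n - c := by linarith
      rw [h5]
      exact (min_le_left _ _).trans (le_max_right _ _)
  have hB : ∑ c ∈ T.filter (fun c => ¬ 0 ≤ c), min ((n : ℤ) - c) (n + c)
      ≤ ∑ j ∈ range n, max 0 (((n : ℤ) + r - P) - (j : ℤ) * P) := by
    refine sum_le_of_inj _ _ n _ (fun c => ((r - c) / P - 1).toNat) ?_ ?_ ?_
      (fun j => le_max_left _ _)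
    · intro c hc
      rw [mem_filter] at hc
      obtain ⟨h1, h2, k, hk⟩ := hT c hc.1
      have hdiv : (r - c) / P = -k := by
        have : r - c = P * (-k) := by linarith
        rw [this]; exact Int.mul_ediv_cancel_left _ hP.ne'
      simp only [hdiv]
      have hk0 : -k - 1 < n := by
        by_contra h
        push Not at h
        have : (n : ℤ) ≤ P * (-k - 1) := by nlinarith
        nlinarith
      have : 0 < (n : ℤ) := by omega
      omega
    · intro c hc d hd h
      rw [mem_filter] at hc hd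
      obtain ⟨_, _, k, hk⟩ := hT c hc.1
      obtain ⟨_, _, l, hl⟩ := hT d hd.1
      have hdk : (r - c) / P = -k := by
        have : r - c = P * (-k) := by linarith
        rw [this]; exact Int.mul_ediv_cancel_left _ hP.ne'
      have hdl : (r - d) / P = -l := by
        have : r - d = P * (-l) := by linarith
        rw [this]; exact Int.mul_ediv_cancel_left _ hP.ne'
      simp only [hdk, hdl] at h
      have hk0 : k < 0 := by
        by_contra hh
        push Not at hh
        have : 0 ≤ P * k := by positivity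
        omega
      have hl0 : l < 0 := by
        by_contra hh
        push Not at hh
        have : 0 ≤ P * l := by positivity
        omega
      have : k = l := by omega
      rw [this] at hk
      omega
    · intro c hc
      rw [mem_filter] at hc
      obtain ⟨_, _, k, hk⟩ := hT c hc.1
      have hdk : (r - c) / P = -k := by
        have : r - c = P * (-k) := by linarith
        rw [this]; exact Int.mul_ediv_cancel_left _ hP.ne'
      simp only [hdk]
      have hk0 : k < 0 := by
        by_contra hh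
        push Not at hh
        have : 0 ≤ P * k := by positivity
        omega
      rw [Int.toNat_of_nonneg (by omega)]
      have h5 : (n : ℤ) + r - P - (-k - 1) * P = n + c := by linarith
      rw [h5]
      exact (min_le_right _ _).trans (le_max_right _ _)
  have h1 := hinge_sum P hP n ((n : ℤ) - r)
  have h2 := hinge_sum P hP n ((n : ℤ) + r - P)
  have h3 : (P - 2 * r) ^ 2 ≤ P ^ 2 := by nlinarith
  have h4 : 8 * P * ∑ c ∈ T, min ((n : ℤ) - c) (n + c) ≤
      (2 * ((n : ℤ) - r) + P) ^ 2 + (2 * ((n : ℤ) + r - P) + P) ^ 2 := by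
    rw [hsplit]
    have h8 : 0 < 8 * P := by linarith
    nlinarith [mul_le_mul_of_nonneg_left hA h8.le, mul_le_mul_of_nonneg_left hB h8.le]
  nlinarith [h4, h3]

variable {p : ℕ} [Fact p.Prime]

theorem classes_sum (n : ℕ) (W : Finset (ZMod p)) (T : Finset ℤ)
    (hT : ∀ c ∈ T, -(n : ℤ) < c ∧ c < n ∧ (c : ZMod p) ∈ W) :
    4 * (p : ℤ) * ∑ c ∈ T, min ((n : ℤ) - c) (n + c) ≤ W.card * (4 * (n : ℤ) ^ 2 + (p : ℤ) ^ 2) := by
  classical
  have hp : 0 < (p : ℤ) := by exact_mod_cast (Fact.out : p.Prime).pos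
  have h1 := Finset.sum_fiberwise_of_maps_to (s := T) (t := W) (g := fun c : ℤ => (c : ZMod p))
    (fun c hc => (hT c hc).2.2) (fun c => min ((n : ℤ) - c) (n + c))
  rw [← h1, Finset.mul_sum]
  have h2 : ∀ w ∈ W, 4 * (p : ℤ) * ∑ c ∈ T.filter (fun c : ℤ => (c : ZMod p) = w),
      min ((n : ℤ) - c) (n + c) ≤ 4 * (n : ℤ) ^ 2 + (p : ℤ) ^ 2 := by
    intro w _
    refine class_sum (p : ℤ) hp n (w.val : ℤ) (by positivity) (by exact_mod_cast ZMod.val_lt w) _ ?_
    intro c hc
    rw [mem_filter] at hc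
    refine ⟨(hT c hc.1).1, (hT c hc.1).2.1, ?_⟩
    rw [← ZMod.intCast_zmod_eq_zero_iff_dvd]
    push_cast
    rw [hc.2, ZMod.natCast_zmod_val, sub_self]
  refine (Finset.sum_le_sum h2).trans ?_
  rw [Finset.sum_const, nsmul_eq_mul]

/-- numbers below `n` whose class lies in `R` -/
theorem count_classes (n : ℕ) (R : Finset (ZMod p)) (Y : Finset ℤ)
    (hY : ∀ y ∈ Y, 0 ≤ y ∧ y < n ∧ (y : ZMod p) ∈ R) :
    Y.card + (p - R.card) * (n / p) ≤ n := by
  classical
  have hp : 0 < p := (Fact.out : p.Prime).pos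
  set Z : Finset ℤ := ((Rᶜ : Finset (ZMod p)) ×ˢ range (n / p)).image
    (fun q => ((q.1.val : ℤ) + p * (q.2 : ℤ))) with hZ
  have hcZ : Z.card = (p - R.card) * (n / p) := by
    rw [hZ, Finset.card_image_of_injOn, Finset.card_product, Finset.card_compl, ZMod.card,
      Finset.card_range]
    rintro ⟨a, i⟩ _ ⟨b, j⟩ _ h
    simp only at h
    have ha := ZMod.val_lt a
    have hb := ZMod.val_lt b
    have hnat : a.val + p * i = b.val + p * j := by exact_mod_cast h
    have h1 : a.val = b.val := by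
      have := congrArg (· % p) hnat
      simp only [Nat.add_mul_mod_self_left] at this
      rwa [Nat.mod_eq_of_lt ha, Nat.mod_eq_of_lt hb] at this
    have h2 : i = j := by
      rw [h1] at hnat
      exact Nat.eq_of_mul_eq_mul_left hp (by omega)
    rw [Prod.mk.injEq]
    exact ⟨ZMod.val_injective p h1, h2⟩
  have hZmem : ∀ z ∈ Z, 0 ≤ z ∧ z < n ∧ (z : ZMod p) ∉ R := by
    intro z hz
    rw [hZ] at hz
    obtain ⟨⟨a, i⟩, hai, rfl⟩ := mem_image.1 hz
    rw [mem_product, mem_compl, mem_range] at hai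
    have ha := ZMod.val_lt a
    refine ⟨by positivity, ?_, ?_⟩
    · have h1 : p * i + p ≤ p * (n / p) := by
        have : i + 1 ≤ n / p := hai.2
        calc p * i + p = p * (i + 1) := by ring
          _ ≤ p * (n / p) := Nat.mul_le_mul_left _ this
      have h2 : p * (n / p) ≤ n := Nat.mul_div_le n p
      have h3 : a.val + p * i < n := by omega
      exact_mod_cast h3
    · push_cast
      rw [ZMod.natCast_zmod_val, ZMod.natCast_self, zero_mul, add_zero]
      exact hai.1
  have hdisj : Disjoint Y Z := by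
    rw [Finset.disjoint_left]
    intro y hy hz
    exact (hZmem y hz).2.2 (hY y hy).2.2
  have hsub : Y ∪ Z ⊆ Finset.Ico (0 : ℤ) n := by
    intro y hy
    rcases mem_union.1 hy with h | h
    · exact mem_Ico.2 ⟨(hY y h).1, (hY y h).2.1⟩
    · exact mem_Ico.2 ⟨(hZmem y h).1, (hZmem y h).2.1⟩
  have h5 := Finset.card_le_card hsub
  rw [Finset.card_union_of_disjoint hdisj, hcZ, Int.card_Ico] at h5
  simpa using h5

end Pool.Agent.Helper83.MC
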