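import Mathlib
import Pool.Agent.Helper83.MCa
import Pool.Agent.Helper83.MCb

set_option autoImplicit false

/-!
No-three-in-line sets on a conic modulo a prime.
-/

namespace Pool.Agent.Helper83.MC

open Finset

/-- no three distinct points of `S` on a line -/
def NoT (S : Finset (ℤ × ℤ)) : Prop :=
  ∀ p ∈ S, ∀ q ∈ S, ∀ r ∈ S, p ≠ q → p ≠ r → q ≠ r →
    (q.1 - p.1) * (r.2 - p.2) ≠ (q.2 - p.2) * (r.1 - p.1)

/-- `S` lies in the box `{0, .., n-1}^2` -/
def InBox (n : ℕ) (S : Finset (ℤ × ℤ)) : Prop :=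
  ∀ p ∈ S, 0 ≤ p.1 ∧ p.1 < (n : ℤ) ∧ 0 ≤ p.2 ∧ p.2 < (n : ℤ)

theorem NoT.mono {S T : Finset (ℤ × ℤ)} (h : NoT S) (hT : T ⊆ S) : NoT T :=
  fun a ha b hb c hc => h a (hT ha) b (hT hb) c (hT hc)

theorem fibre_card (S : Finset (ℤ × ℤ)) (hS : NoT S) (u v : ℤ) (huv : ¬ (u = 0 ∧ v = 0)) (c : ℤ) :
    (S.filter (fun P => u * P.1 + v * P.2 = c)).card ≤ 2 := by
  by_contra hc
  push Not at hc
  obtain ⟨P, hP, Q, hQ, R, hR, hPQ, hPR, hQR⟩ := Finset.two_lt_card.1 hc
  rw [mem_filter] at hP hQ hR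
  apply hS P hP.1 Q hQ.1 R hR.1 hPQ hPR hQR
  have h1 : u * (Q.1 - P.1) + v * (Q.2 - P.2) = 0 := by linear_combination hQ.2 - hP.2
  have h2 : u * (R.1 - P.1) + v * (R.2 - P.2) = 0 := by linear_combination hR.2 - hP.2
  have h3 : u * ((Q.1 - P.1) * (R.2 - P.2) - (Q.2 - P.2) * (R.1 - P.1)) = 0 := by
    linear_combination (R.2 - P.2) * h1 - (Q.2 - P.2) * h2
  have h4 : v * ((Q.1 - P.1) * (R.2 - P.2) - (Q.2 - P.2) * (R.1 - P.1)) = 0 := by
    linear_combination (Q.1 - P.1) * h2 - (R.1 - P.1) * h1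
  rcases mul_eq_zero.1 h3 with h | h
  · rcases mul_eq_zero.1 h4 with h' | h'
    · exact absurd ⟨h, h'⟩ huv
    · exact sub_eq_zero.1 h'
  · exact sub_eq_zero.1 h

theorem card_le_two_mul (S : Finset (ℤ × ℤ)) (hS : NoT S) (u v : ℤ) (huv : ¬ (u = 0 ∧ v = 0)) :
    S.card ≤ 2 * (S.image (fun P => u * P.1 + v * P.2)).card :=
  Finset.card_le_mul_card_image S 2 (fun c _ => fibre_card S hS u v huv c)

theorem weight_le (S : Finset (ℤ × ℤ)) (hS : NoT S) (u v : ℤ) (huv : ¬ (u = 0 ∧ v = 0)) (w : ℤ → ℤ)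
    (hw : ∀ P ∈ S, 0 ≤ w (u * P.1 + v * P.2)) :
    ∑ P ∈ S, w (u * P.1 + v * P.2) ≤ 2 * ∑ c ∈ S.image (fun P => u * P.1 + v * P.2), w c := by
  classical
  have h1 := Finset.sum_fiberwise_of_maps_to (s := S)
    (t := S.image (fun P => u * P.1 + v * P.2)) (g := fun P => u * P.1 + v * P.2)
    (fun P hP => mem_image_of_mem _ hP) (fun P => w (u * P.1 + v * P.2))
  rw [← h1, Finset.mul_sum]
  refine Finset.sum_le_sum (fun c hc => ?_)
  have h2 : ∑ P ∈ S.filter (fun P => u * P.1 + v * P.2 = c), w (u * P.1 + v * P.2)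
      = (S.filter (fun P => u * P.1 + v * P.2 = c)).card * w c := by
    rw [Finset.sum_congr rfl (fun P hP => by rw [(mem_filter.1 hP).2]), Finset.sum_const,
      nsmul_eq_mul]
  rw [h2]
  have h3 := fibre_card S hS u v huv c
  obtain ⟨P, hP, rfl⟩ := mem_image.1 hc
  have h4 := hw P hP
  have h5 : ((S.filter (fun Q => u * Q.1 + v * Q.2 = u * P.1 + v * P.2)).card : ℤ) ≤ 2 := by
    exact_mod_cast h3
  exact mul_le_mul_of_nonneg_right h5 h4

variable {p : ℕ} [Fact p.Prime]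

/-- all points of `S` satisfy the quadratic equation over `ZMod p` -/
def OnConic (a b c d e g : ZMod p) (S : Finset (ℤ × ℤ)) : Prop :=
  ∀ P ∈ S, a * (P.1 : ZMod p) ^ 2 + b * (P.1 : ZMod p) * (P.2 : ZMod p) + c * (P.2 : ZMod p) ^ 2
    + d * (P.1 : ZMod p) + e * (P.2 : ZMod p) + g = 0

/-- rows, when the horizontal direction is not asymptotic -/
theorem rows_le (hp2 : p ≠ 2) (a b c d e g : ZMod p) (ha : a ≠ 0)
    (hdet : 4 * a * c * g + b * d * e - a * e ^ 2 - c * d ^ 2 - g * b ^ 2 ≠ 0)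
    (n : ℕ) (S : Finset (ℤ × ℤ)) (hbox : InBox n S) (hS : NoT S)
    (hc : OnConic a b c d e g S) :
    ∃ R Y : ℕ, 2 * R ≤ p + 3 ∧ S.card ≤ 2 * Y ∧ Y + (p - R) * (n / p) ≤ n := by
  classical
  have h2 := two_ne hp2
  set R : Finset (ZMod p) := (univ : Finset (ZMod p)).filter
    (fun y => IsSquare ((b ^ 2 - 4 * a * c) * y ^ 2 + 2 * (b * d - 2 * a * e) * y
      + (d ^ 2 - 4 * a * g))) with hR
  refine ⟨R.card, (S.image (fun P => 0 * P.1 + 1 * P.2)).card, ?_, ?_, ?_⟩
  · refine sq_count_quad hp2 _ _ _ ?_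
    have h3 : (b * d - 2 * a * e) ^ 2 - (b ^ 2 - 4 * a * c) * (d ^ 2 - 4 * a * g)
        = -(2 * 2 * a) * (4 * a * c * g + b * d * e - a * e ^ 2 - c * d ^ 2 - g * b ^ 2) := by
      ring
    rw [h3]
    exact mul_ne_zero (neg_ne_zero.2 (mul_ne_zero (mul_ne_zero h2 h2) ha)) hdet
  · exact card_le_two_mul S hS 0 1 (by norm_num)
  · refine count_classes n R _ ?_
    intro y hy
    obtain ⟨P, hP, rfl⟩ := mem_image.1 hy
    have hb := hbox P hP
    simp only [zero_mul, one_mul, zero_add]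
    refine ⟨hb.2.2.1, hb.2.2.2, ?_⟩
    rw [hR, mem_filter]
    refine ⟨mem_univ _, 2 * a * (P.1 : ZMod p) + b * (P.2 : ZMod p) + d, ?_⟩
    linear_combination (-4 * a) * hc P hP

/-- the six basic facts in the case `a = c = 0` -/
theorem slope_plus (hp2 : p ≠ 2) (b d e g : ZMod p) (hb : b ≠ 0) (hK : d * e - b * g ≠ 0) :
    2 * ((univ : Finset (ZMod p)).filter
      (fun c => IsSquare ((b * c + d - e) ^ 2 - (-(4 * (d * e - b * g)))))).card ≤ p + 1 := by
  classical
  have h2 := two_ne hp2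
  have h4 : (4 : ZMod p) ≠ 0 := by
    have : (4 : ZMod p) = 2 * 2 := by norm_num
    rw [this]; exact mul_ne_zero h2 h2
  have h3 := sq_count1 hp2 (-(4 * (d * e - b * g))) (neg_ne_zero.2 (mul_ne_zero h4 hK))
  have h5 : ((univ : Finset (ZMod p)).filter
      (fun c => IsSquare ((b * c + d - e) ^ 2 - (-(4 * (d * e - b * g)))))).card ≤
      ((univ : Finset (ZMod p)).filter
        (fun w => IsSquare (w ^ 2 - (-(4 * (d * e - b * g)))))).card := by
    refine Finset.card_le_card_of_injOn (fun c => b * c + d - e) ?_ ?_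
    · intro y hy
      exact mem_coe.2 (mem_filter.2 ⟨mem_univ _, (mem_filter.1 (mem_coe.1 hy)).2⟩)
    · intro y _ z _ hyz
      have h6 : b * (y - z) = 0 := by
        have : b * y + d - e = b * z + d - e := hyz
        linear_combination this
      rcases mul_eq_zero.1 h6 with h7 | h7
      · exact absurd h7 hb
      · exact sub_eq_zero.1 h7
  omega

theorem slope_minus (hp2 : p ≠ 2) (b d e g m : ZMod p) (hb : b ≠ 0) (hK : d * e - b * g ≠ 0) :
    2 * ((univ : Finset (ZMod p)).filter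
      (fun c => IsSquare ((b * (c + m) + d + e) ^ 2 - 4 * (d * e - b * g)))).card ≤ p + 1 := by
  classical
  have h2 := two_ne hp2
  have h4 : (4 : ZMod p) ≠ 0 := by
    have : (4 : ZMod p) = 2 * 2 := by norm_num
    rw [this]; exact mul_ne_zero h2 h2
  have h3 := sq_count1 hp2 (4 * (d * e - b * g)) (mul_ne_zero h4 hK)
  have h5 : ((univ : Finset (ZMod p)).filter
      (fun c => IsSquare ((b * (c + m) + d + e) ^ 2 - 4 * (d * e - b * g)))).card ≤
      ((univ : Finset (ZMod p)).filter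
        (fun w => IsSquare (w ^ 2 - 4 * (d * e - b * g)))).card := by
    refine Finset.card_le_card_of_injOn (fun c => b * (c + m) + d + e) ?_ ?_
    · intro y hy
      exact mem_coe.2 (mem_filter.2 ⟨mem_univ _, (mem_filter.1 (mem_coe.1 hy)).2⟩)
    · intro y _ z _ hyz
      have h6 : b * (y - z) = 0 := by
        have : b * (y + m) + d + e = b * (z + m) + d + e := hyz
        linear_combination this
      rcases mul_eq_zero.1 h6 with h7 | h7
      · exact absurd h7 hb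
      · exact sub_eq_zero.1 h7
  omega

/-- the main inequality in the case `a = c = 0` -/
theorem main_hyp (hp2 : p ≠ 2) (b d e g : ZMod p) (hb : b ≠ 0) (hK : d * e - b * g ≠ 0)
    (n : ℕ) (S : Finset (ℤ × ℤ)) (hbox : InBox n S) (hS : NoT S)
    (hc : OnConic 0 b 0 d e g S) :
    3 * (n : ℤ) * p * S.card ≤ p * (n : ℤ) ^ 2 + (p + 1) * (4 * (n : ℤ) ^ 2 + (p : ℤ) ^ 2) := by
  classical
  have hp : 0 < (p : ℤ) := by exact_mod_cast (Fact.out : p.Prime).pos
  -- pointwise cover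
  have hcov : ∀ P ∈ S, 3 * (n : ℤ) ≤ 2 * min ((n : ℤ) - (-1 * P.1 + 1 * P.2)) (n + (-1 * P.1 + 1 * P.2))
      + 2 * min ((n : ℤ) - ((1 * P.1 + 1 * P.2) - ((n : ℤ) - 1)))
        (n + ((1 * P.1 + 1 * P.2) - ((n : ℤ) - 1)))
      + fw n (1 * P.1 + 0 * P.2) + fw n (0 * P.1 + 1 * P.2) := by
    intro P hP
    have := hbox P hP
    unfold fw
    omega
  have hsum := Finset.sum_le_sum hcov
  rw [Finset.sum_const, nsmul_eq_mul, Finset.sum_add_distrib, Finset.sum_add_distrib,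
    Finset.sum_add_distrib, ← Finset.mul_sum, ← Finset.mul_sum] at hsum
  have hA := weight_le S hS (-1) 1 (by norm_num) (fun c => min ((n : ℤ) - c) (n + c)) (by
    intro P hP
    have := hbox P hP
    omega)
  have hB := weight_le S hS 1 1 (by norm_num)
    (fun c => min ((n : ℤ) - (c - ((n : ℤ) - 1))) (n + (c - ((n : ℤ) - 1)))) (by
    intro P hP
    have := hbox P hP
    omega)
  have hC := weight_le S hS 1 0 (by norm_num) (fw n) (by
    intro P _
    unfold fw
    exact le_max_left _ _)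
  have hD := weight_le S hS 0 1 (by norm_num) (fw n) (by
    intro P _
    unfold fw
    exact le_max_left _ _)
  have hrow : ∀ X : Finset ℤ, (∀ x ∈ X, 0 ≤ x ∧ x < n) →
      ∑ x ∈ X, fw n x ≤ ∑ j ∈ range n, fw n (j : ℤ) := by
    intro X hX
    refine sum_le_of_inj X (fw n) n (fun j => fw n (j : ℤ)) (fun x => x.toNat) ?_ ?_ ?_ ?_
    · intro x hx
      have := hX x hx
      omega
    · intro x hx y hy h
      have h1 := hX x hx
      have h2 := hX y hy
      omega
    · intro x hx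
      have h1 := hX x hx
      rw [Int.toNat_of_nonneg h1.1]
    · intro j
      unfold fw
      exact le_max_left _ _
  have hC2 := hrow (S.image (fun P => 1 * P.1 + 0 * P.2)) (by
    intro x hx
    obtain ⟨P, hP, rfl⟩ := mem_image.1 hx
    have := hbox P hP
    omega)
  have hD2 := hrow (S.image (fun P => 0 * P.1 + 1 * P.2)) (by
    intro x hx
    obtain ⟨P, hP, rfl⟩ := mem_image.1 hx
    have := hbox P hP
    omega)
  have hf := fw_sum n
  -- slope 1
  set W1 := (univ : Finset (ZMod p)).filter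
      (fun c => IsSquare ((b * c + d - e) ^ 2 - (-(4 * (d * e - b * g))))) with hW1
  have hW1c := slope_plus hp2 b d e g hb hK
  rw [← hW1] at hW1c
  have hT1 := classes_sum n W1 (S.image (fun P => -1 * P.1 + 1 * P.2)) (by
    intro c hcc
    obtain ⟨P, hP, rfl⟩ := mem_image.1 hcc
    have hbx := hbox P hP
    have he := hc P hP
    refine ⟨by omega, by omega, ?_⟩
    rw [hW1, mem_filter]
    refine ⟨mem_univ _, 2 * b * (P.1 : ZMod p) + b * ((P.2 : ZMod p) - (P.1 : ZMod p)) + d + e, ?_⟩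
    push_cast
    linear_combination (-4 * b) * he)
  -- slope -1
  set m : ZMod p := (n : ZMod p) - 1 with hm
  set W2 := (univ : Finset (ZMod p)).filter
      (fun c => IsSquare ((b * (c + m) + d + e) ^ 2 - 4 * (d * e - b * g))) with hW2
  have hW2c := slope_minus hp2 b d e g m hb hK
  rw [← hW2] at hW2c
  have hT2 := classes_sum n W2
    ((S.image (fun P => 1 * P.1 + 1 * P.2)).image (fun c => c - ((n : ℤ) - 1))) (by
    intro c hcc
    obtain ⟨c', hcc', rfl⟩ := mem_image.1 hcc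
    obtain ⟨P, hP, rfl⟩ := mem_image.1 hcc'
    have hbx := hbox P hP
    have he := hc P hP
    refine ⟨by omega, by omega, ?_⟩
    rw [hW2, mem_filter]
    refine ⟨mem_univ _, 2 * b * (P.1 : ZMod p) - b * ((P.1 : ZMod p) + (P.2 : ZMod p)) - d + e, ?_⟩
    rw [hm]
    push_cast
    linear_combination (4 * b) * he)
  rw [Finset.sum_image (by intro x _ y _ h; simp only at h; omega)] at hT2
  have hWn1 : 2 * (W1.card : ℤ) ≤ p + 1 := by exact_mod_cast hW1c
  have hWn2 : 2 * (W2.card : ℤ) ≤ p + 1 := by exact_mod_cast hW2c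
  have hQ : 0 ≤ 4 * (n : ℤ) ^ 2 + (p : ℤ) ^ 2 := by positivity
  have hX1 := mul_le_mul_of_nonneg_right hWn1 hQ
  have hX2 := mul_le_mul_of_nonneg_right hWn2 hQ
  have hA' := mul_le_mul_of_nonneg_left hA hp.le
  have hB' := mul_le_mul_of_nonneg_left hB hp.le
  have hS' := mul_le_mul_of_nonneg_left hsum hp.le
  have hCD : 4 * (∑ P ∈ S, fw n (1 * P.1 + 0 * P.2) + ∑ P ∈ S, fw n (0 * P.1 + 1 * P.2))
      ≤ 4 * (n : ℤ) ^ 2 := by linarith
  have hCD' := mul_le_mul_of_nonneg_left hCD hp.le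
  nlinarith [hX1, hX2, hA', hB', hS', hCD', hT1, hT2]

end Pool.Agent.Helper83.MC
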