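import Mathlib
import Pool.Agent.Helper83.MCc

set_option autoImplicit false

/-!
Further bounds for no-three-in-line sets on a hyperbola with axis parallel asymptotes modulo `p`.
-/

namespace Pool.Agent.Helper83.MC

open Finset

variable {p : ℕ} [Fact p.Prime]

theorem hyp_ne (b d e g : ZMod p) (hb : b ≠ 0) (hK : d * e - b * g ≠ 0) (x y : ZMod p)
    (h : 0 * x ^ 2 + b * x * y + 0 * y ^ 2 + d * x + e * y + g = 0) :
    b * x + e ≠ 0 ∧ b * y + d ≠ 0 := by
  constructor
  · intro h1
    apply hK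
    linear_combination (b * y + d) * h1 - b * h
  · intro h1
    apply hK
    linear_combination (b * x + e) * h1 - b * h

/-- the same row class, the same column class -/
theorem hyp_x_eq (b d e g : ZMod p) (hb : b ≠ 0) (hK : d * e - b * g ≠ 0) (x x' y : ZMod p)
    (h : 0 * x ^ 2 + b * x * y + 0 * y ^ 2 + d * x + e * y + g = 0)
    (h' : 0 * x' ^ 2 + b * x' * y + 0 * y ^ 2 + d * x' + e * y + g = 0) : x = x' := by
  have h1 := (hyp_ne b d e g hb hK x y h).2
  have h2 : (b * y + d) * (x - x') = 0 := by linear_combination h - h'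
  rcases mul_eq_zero.1 h2 with h3 | h3
  · exact absurd h3 h1
  · exact sub_eq_zero.1 h3

theorem hyp_y_eq (b d e g : ZMod p) (hb : b ≠ 0) (hK : d * e - b * g ≠ 0) (x y y' : ZMod p)
    (h : 0 * x ^ 2 + b * x * y + 0 * y ^ 2 + d * x + e * y + g = 0)
    (h' : 0 * x ^ 2 + b * x * y' + 0 * y' ^ 2 + d * x + e * y' + g = 0) : y = y' := by
  have h1 := (hyp_ne b d e g hb hK x y h).1
  have h2 : (b * x + e) * (y - y') = 0 := by linear_combination h - h'
  rcases mul_eq_zero.1 h2 with h3 | h3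
  · exact absurd h3 h1
  · exact sub_eq_zero.1 h3

theorem cast_eq_dvd (a b : ℤ) (h : (a : ZMod p) = (b : ZMod p)) : ∃ k : ℤ, b = a + p * k := by
  have h1 : ((b - a : ℤ) : ZMod p) = 0 := by push_cast; rw [h]; ring
  rw [ZMod.intCast_zmod_eq_zero_iff_dvd] at h1
  obtain ⟨k, hk⟩ := h1
  exact ⟨k, by linarith⟩

theorem hyp_rows (b d e g : ZMod p) (hb : b ≠ 0) (hK : d * e - b * g ≠ 0)
    (n : ℕ) (S : Finset (ℤ × ℤ)) (hbox : InBox n S) (hS : NoT S)
    (hc : OnConic 0 b 0 d e g S) :
    ∃ Y : ℕ, S.card ≤ 2 * Y ∧ Y + n / p ≤ n := by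
  classical
  refine ⟨(S.image (fun P => 0 * P.1 + 1 * P.2)).card, card_le_two_mul S hS 0 1 (by norm_num), ?_⟩
  have h1 := count_classes n ((univ : Finset (ZMod p)).erase (-d / b))
    (S.image (fun P => 0 * P.1 + 1 * P.2)) (by
    intro y hy
    obtain ⟨P, hP, rfl⟩ := mem_image.1 hy
    have hbx := hbox P hP
    have he := hc P hP
    simp only [zero_mul, one_mul, zero_add]
    refine ⟨hbx.2.2.1, hbx.2.2.2, mem_erase.2 ⟨?_, mem_univ _⟩⟩
    intro h
    apply (hyp_ne b d e g hb hK _ _ he).2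
    rw [h]; field_simp; ring)
  have hp : 1 ≤ p := (Fact.out : p.Prime).one_lt.le
  rw [Finset.card_erase_of_mem (mem_univ _), Finset.card_univ, ZMod.card] at h1
  have h2 : p - (p - 1) = 1 := by omega
  rw [h2, one_mul] at h1
  exact h1

theorem hyp_small (b d e g : ZMod p) (hb : b ≠ 0) (hK : d * e - b * g ≠ 0)
    (n : ℕ) (hpn : p ≤ n) (S : Finset (ℤ × ℤ)) (hbox : InBox n S) (hS : NoT S)
    (hc : OnConic 0 b 0 d e g S) : S.card + 2 * p ≤ 3 * n := by
  classical
  have hp : 0 < (p : ℤ) := by exact_mod_cast (Fact.out : p.Prime).pos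
  have h1 : (S.filter (fun P => P.2 < (p : ℤ))).card ≤ n := by
    have : (S.filter (fun P => P.2 < (p : ℤ))).card ≤ (Finset.Ico (0 : ℤ) n).card := by
      refine Finset.card_le_card_of_injOn (fun P => P.1) ?_ ?_
      · intro P hP
        have hP' := mem_filter.1 (mem_coe.1 hP)
        have hbx := hbox P hP'.1
        exact mem_coe.2 (mem_Ico.2 ⟨hbx.1, hbx.2.1⟩)
      · intro P hP Q hQ hPQ
        have hP' := mem_filter.1 (mem_coe.1 hP)
        have hQ' := mem_filter.1 (mem_coe.1 hQ)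
        have hx : P.1 = Q.1 := hPQ
        have heP := hc P hP'.1
        have heQ := hc Q hQ'.1
        rw [← hx] at heQ
        have hy := hyp_y_eq b d e g hb hK _ _ _ heP heQ
        obtain ⟨k, hk⟩ := cast_eq_dvd P.2 Q.2 hy
        have b1 := hbox P hP'.1
        have b2 := hbox Q hQ'.1
        have hk0 : k = 0 := by
          by_contra hne
          rcases lt_or_gt_of_ne hne with h | h
          · have : (p : ℤ) * k ≤ -p := by nlinarith
            omega
          · have : (p : ℤ) ≤ p * k := by nlinarith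
            omega
        rw [hk0] at hk
        exact Prod.ext hx (by omega)
    simpa using this
  have h2 : (S.filter (fun P => ¬ P.2 < (p : ℤ))).card ≤ 2 * (n - p) := by
    have h3 := card_le_two_mul (S.filter (fun P => ¬ P.2 < (p : ℤ)))
      (hS.mono (Finset.filter_subset _ _)) 0 1 (by norm_num)
    have h4 : ((S.filter (fun P => ¬ P.2 < (p : ℤ))).image (fun P => 0 * P.1 + 1 * P.2)).card
        ≤ (Finset.Ico (p : ℤ) n).card := by
      refine Finset.card_le_card ?_
      intro y hy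
      obtain ⟨P, hP, rfl⟩ := mem_image.1 hy
      rw [mem_filter] at hP
      have hbx := hbox P hP.1
      rw [mem_Ico]
      omega
    rw [Int.card_Ico] at h4
    omega
  have h3 := Finset.card_filter_add_card_filter_not (s := S) (fun P => P.2 < (p : ℤ))
  omega

theorem hyp_two (hp2 : p ≠ 2) (b d e g : ZMod p) (hb : b ≠ 0) (hK : d * e - b * g ≠ 0)
    (n : ℕ) (hpn : n ≤ 2 * p) (S : Finset (ℤ × ℤ)) (hbox : InBox n S) (hS : NoT S)
    (hc : OnConic 0 b 0 d e g S) : S.card ≤ 3 * p + 3 := by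
  classical
  have hp : 0 < (p : ℤ) := by exact_mod_cast (Fact.out : p.Prime).pos
  have hp1 : 0 < p := (Fact.out : p.Prime).pos
  have hn : (n : ℤ) ≤ 2 * p := by exact_mod_cast hpn
  set W1 := (univ : Finset (ZMod p)).filter
      (fun c => IsSquare ((b * c + d - e) ^ 2 - (-(4 * (d * e - b * g))))) with hW1
  have hW1c := slope_plus hp2 b d e g hb hK
  rw [← hW1] at hW1c
  -- the central part
  have hA : (S.filter (fun P => -(p : ℤ) ≤ P.2 - P.1 ∧ P.2 - P.1 < (p : ℤ))).card ≤ 2 * (p + 1) := by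
    have h1 := card_le_two_mul (S.filter (fun P => -(p : ℤ) ≤ P.2 - P.1 ∧ P.2 - P.1 < (p : ℤ)))
      (hS.mono (Finset.filter_subset _ _)) (-1) 1 (by norm_num)
    have h2 := count_classes (2 * p) W1
      (((S.filter (fun P => -(p : ℤ) ≤ P.2 - P.1 ∧ P.2 - P.1 < (p : ℤ))).image
        (fun P => -1 * P.1 + 1 * P.2)).image (fun c => c + (p : ℤ))) (by
      intro y hy
      obtain ⟨c, hcc, rfl⟩ := mem_image.1 hy
      obtain ⟨P, hP, rfl⟩ := mem_image.1 hcc
      rw [mem_filter] at hP
      have he := hc P hP.1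
      refine ⟨by omega, by push_cast; omega, ?_⟩
      rw [hW1, mem_filter]
      refine ⟨mem_univ _,
        2 * b * (P.1 : ZMod p) + b * ((P.2 : ZMod p) - (P.1 : ZMod p)) + d + e, ?_⟩
      push_cast
      rw [ZMod.natCast_self]
      linear_combination (-4 * b) * he)
    rw [Finset.card_image_of_injective _ (fun x y h => by simpa using h)] at h2
    have h3 : 2 * p / p = 2 := Nat.mul_div_cancel _ hp1
    rw [h3] at h2
    omega
  have hB : (S.filter (fun P => ¬ (-(p : ℤ) ≤ P.2 - P.1 ∧ P.2 - P.1 < (p : ℤ)))).card ≤ p := by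
    have : (S.filter (fun P => ¬ (-(p : ℤ) ≤ P.2 - P.1 ∧ P.2 - P.1 < (p : ℤ)))).card ≤
        (univ : Finset (ZMod p)).card := by
      refine Finset.card_le_card_of_injOn (fun P => (P.2 : ZMod p)) (fun _ _ => mem_univ _) ?_
      intro P hP Q hQ hPQ
      have hP' := mem_filter.1 (mem_coe.1 hP)
      have hQ' := mem_filter.1 (mem_coe.1 hQ)
      have hy : (P.2 : ZMod p) = (Q.2 : ZMod p) := hPQ
      have heP := hc P hP'.1
      have heQ := hc Q hQ'.1
      have heP' := heP
      rw [hy] at heP'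
      have hx := hyp_x_eq b d e g hb hK _ _ _ heP' heQ
      obtain ⟨k, hk⟩ := cast_eq_dvd P.2 Q.2 hy
      obtain ⟨l, hl⟩ := cast_eq_dvd P.1 Q.1 hx
      have b1 := hbox P hP'.1
      have b2 := hbox Q hQ'.1
      have c1 := hP'.2
      have c2 := hQ'.2
      have hk1 : -1 ≤ k ∧ k ≤ 1 := by
        constructor <;> nlinarith
      have hl1 : -1 ≤ l ∧ l ≤ 1 := by
        constructor <;> nlinarith
      have hk2 : k = -1 ∨ k = 0 ∨ k = 1 := by omega
      have hl2 : l = -1 ∨ l = 0 ∨ l = 1 := by omega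
      rcases hk2 with rfl | rfl | rfl <;> rcases hl2 with rfl | rfl | rfl <;>
        first
        | (exfalso; omega)
        | (exact Prod.ext (by omega) (by omega))
    simpa [ZMod.card] using this
  have h3 := Finset.card_filter_add_card_filter_not (s := S)
    (fun P => -(p : ℤ) ≤ P.2 - P.1 ∧ P.2 - P.1 < (p : ℤ))
  omega

end Pool.Agent.Helper83.MC
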