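import Mathlib
import Pool.Agent.Helper83.MCd

set_option autoImplicit false

/-!
Sets on a conic modulo a prime `p ≥ n`: a difference argument.
-/

namespace Pool.Agent.Helper83.MC

open Finset

variable {p : ℕ} [Fact p.Prime]

theorem no_line (h2 : (2 : ZMod p) ≠ 0) (a b c d e g x y r s : ZMod p)
    (hdet : 4 * a * c * g + b * d * e - a * e ^ 2 - c * d ^ 2 - g * b ^ 2 ≠ 0)
    (hrs : ¬ (r = 0 ∧ s = 0))
    (hQ : a * r ^ 2 + b * r * s + c * s ^ 2 = 0)
    (hL : (2 * a * x + b * y + d) * r + (b * x + 2 * c * y + e) * s = 0)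
    (hF : a * x ^ 2 + b * x * y + c * y ^ 2 + d * x + e * y + g = 0) : False := by
  have key1 : 2 * r ^ 2 * (4 * a * c * g + b * d * e - a * e ^ 2 - c * d ^ 2 - g * b ^ 2) = 0 := by
    linear_combination (2 * (4 * c * (a * x ^ 2 + b * x * y + c * y ^ 2 + d * x + e * y + g)
      - (b * x + 2 * c * y + e) ^ 2)) * hQ
      + (-2 * c * ((2 * a * x + b * y + d) * r + (b * x + 2 * c * y + e) * s)
        + 2 * (b * r + 2 * c * s) * (b * x + 2 * c * y + e)) * hL
      - 2 * (b * r + 2 * c * s) ^ 2 * hF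
  have key2 : 2 * s ^ 2 * (4 * a * c * g + b * d * e - a * e ^ 2 - c * d ^ 2 - g * b ^ 2) = 0 := by
    linear_combination (2 * (4 * a * (a * x ^ 2 + b * x * y + c * y ^ 2 + d * x + e * y + g)
      - (2 * a * x + b * y + d) ^ 2)) * hQ
      + (-2 * a * ((2 * a * x + b * y + d) * r + (b * x + 2 * c * y + e) * s)
        + 2 * (2 * a * r + b * s) * (2 * a * x + b * y + d)) * hL
      - 2 * (2 * a * r + b * s) ^ 2 * hF
  apply hrs
  constructor
  · by_contra hr
    exact mul_ne_zero (mul_ne_zero h2 (pow_ne_zero 2 hr)) hdet key1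
  · by_contra hs
    exact mul_ne_zero (mul_ne_zero h2 (pow_ne_zero 2 hs)) hdet key2

theorem three_on_line (h2 : (2 : ZMod p) ≠ 0) (a b c d e g : ZMod p)
    (hdet : 4 * a * c * g + b * d * e - a * e ^ 2 - c * d ^ 2 - g * b ^ 2 ≠ 0)
    (k m l : ZMod p) (hkm : ¬ (k = 0 ∧ m = 0)) (x1 y1 x2 y2 x3 y3 : ZMod p)
    (h12 : ¬ (x2 - x1 = 0 ∧ y2 - y1 = 0)) (h13 : ¬ (x3 - x1 = 0 ∧ y3 - y1 = 0))
    (h23 : ¬ (x3 - x2 = 0 ∧ y3 - y2 = 0))
    (f1 : a * x1 ^ 2 + b * x1 * y1 + c * y1 ^ 2 + d * x1 + e * y1 + g = 0)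
    (f2 : a * x2 ^ 2 + b * x2 * y2 + c * y2 ^ 2 + d * x2 + e * y2 + g = 0)
    (f3 : a * x3 ^ 2 + b * x3 * y3 + c * y3 ^ 2 + d * x3 + e * y3 + g = 0)
    (l1 : k * x1 + m * y1 + l = 0) (l2 : k * x2 + m * y2 + l = 0)
    (l3 : k * x3 + m * y3 + l = 0) : False := by
  set r := x2 - x1 with hr
  set s := y2 - y1 with hs
  have e1 : k * r + m * s = 0 := by rw [hr, hs]; linear_combination l2 - l1
  have e2 : k * (x3 - x1) + m * (y3 - y1) = 0 := by linear_combination l3 - l1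
  have e3 : r * (y3 - y1) - s * (x3 - x1) = 0 := by
    have t1 : k * (r * (y3 - y1) - s * (x3 - x1)) = 0 := by
      linear_combination (y3 - y1) * e1 - s * e2
    have t2 : m * (r * (y3 - y1) - s * (x3 - x1)) = 0 := by
      linear_combination r * e2 - (x3 - x1) * e1
    by_contra hne
    apply hkm
    constructor
    · rcases mul_eq_zero.1 t1 with h | h
      · exact h
      · exact absurd h hne
    · rcases mul_eq_zero.1 t2 with h | h
      · exact h
      · exact absurd h hne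
  obtain ⟨t, ht1, ht2⟩ : ∃ t : ZMod p, x3 - x1 = t * r ∧ y3 - y1 = t * s := by
    by_cases hr0 : r = 0
    · have hs0 : s ≠ 0 := fun h => h12 ⟨hr0, h⟩
      refine ⟨(y3 - y1) / s, ?_, ?_⟩
      · rw [hr0, mul_zero]
        have : s * (x3 - x1) = 0 := by rw [hr0] at e3; linear_combination -e3
        rcases mul_eq_zero.1 this with h | h
        · exact absurd h hs0
        · exact h
      · field_simp
    · refine ⟨(x3 - x1) / r, ?_, ?_⟩
      · field_simp
      · field_simp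
        linear_combination e3
  have hx2 : x2 = x1 + r := by rw [hr]; ring
  have hy2 : y2 = y1 + s := by rw [hs]; ring
  have hx3 : x3 = x1 + t * r := by linear_combination ht1
  have hy3 : y3 = y1 + t * s := by linear_combination ht2
  have g2 : (a * r ^ 2 + b * r * s + c * s ^ 2)
      + ((2 * a * x1 + b * y1 + d) * r + (b * x1 + 2 * c * y1 + e) * s) = 0 := by
    rw [hx2, hy2] at f2
    linear_combination f2 - f1
  have g3 : t * (t * (a * r ^ 2 + b * r * s + c * s ^ 2)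
      + ((2 * a * x1 + b * y1 + d) * r + (b * x1 + 2 * c * y1 + e) * s)) = 0 := by
    rw [hx3, hy3] at f3
    linear_combination f3 - f1
  have ht0 : t ≠ 0 := by
    intro h
    apply h13
    rw [ht1, ht2, h]
    constructor <;> ring
  have ht1' : t - 1 ≠ 0 := by
    intro h
    apply h23
    have : t = 1 := by linear_combination h
    rw [hx3, hy3, hx2, hy2, this]
    constructor <;> ring
  have g4 := (mul_eq_zero.1 g3).resolve_left ht0
  have hQ : a * r ^ 2 + b * r * s + c * s ^ 2 = 0 := by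
    have : (t - 1) * (a * r ^ 2 + b * r * s + c * s ^ 2) = 0 := by linear_combination g4 - g2
    exact (mul_eq_zero.1 this).resolve_left ht1'
  have hL : (2 * a * x1 + b * y1 + d) * r + (b * x1 + 2 * c * y1 + e) * s = 0 := by
    linear_combination g2 - hQ
  exact no_line h2 a b c d e g x1 y1 r s hdet h12 hQ hL f1

theorem cast_ne {n : ℕ} (hn : n ≤ p) {a b : ℤ} (ha0 : 0 ≤ a) (ha : a < n) (hb0 : 0 ≤ b) (hb : b < n)
    (h : (b : ZMod p) - (a : ZMod p) = 0) : a = b := by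
  have hp : 0 < (p : ℤ) := by exact_mod_cast (Fact.out : p.Prime).pos
  have hn' : (n : ℤ) ≤ p := by exact_mod_cast hn
  obtain ⟨k, hk⟩ := cast_eq_dvd (p := p) a b (by linear_combination -h)
  have hk0 : k = 0 := by
    by_contra hne
    rcases lt_or_gt_of_ne hne with h | h
    · have : (p : ℤ) * k ≤ -p := by nlinarith
      omega
    · have : (p : ℤ) ≤ p * k := by nlinarith
      omega
  rw [hk0] at hk
  omega

theorem diff_card (hp2 : p ≠ 2) (a b c d e g : ZMod p)
    (hdet : 4 * a * c * g + b * d * e - a * e ^ 2 - c * d ^ 2 - g * b ^ 2 ≠ 0)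
    (n : ℕ) (hn : n ≤ p) (S : Finset (ℤ × ℤ)) (hbox : InBox n S) (hc : OnConic a b c d e g S)
    (u v : ℤ) (huv : ¬ ((u : ZMod p) = 0 ∧ (v : ZMod p) = 0)) :
    (S.filter (fun P => (P.1 + u, P.2 + v) ∈ S)).card ≤ 2 := by
  have h2 := two_ne (p := p) hp2
  by_contra hcon
  push Not at hcon
  obtain ⟨P, hP, Q, hQ, R, hR, hPQ, hPR, hQR⟩ := Finset.two_lt_card.1 hcon
  rw [mem_filter] at hP hQ hR
  set k : ZMod p := 2 * a * u + b * v with hk
  set m : ZMod p := b * u + 2 * c * v with hm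
  set l : ZMod p := a * (u : ZMod p) ^ 2 + b * u * v + c * (v : ZMod p) ^ 2 + d * u + e * v with hl
  have line : ∀ T ∈ S, (T.1 + u, T.2 + v) ∈ S →
      k * (T.1 : ZMod p) + m * (T.2 : ZMod p) + l = 0 := by
    intro T hT hT'
    have e1 := hc T hT
    have e2 := hc _ hT'
    simp only at e2
    push_cast at e2
    rw [hk, hm, hl]
    linear_combination e2 - e1
  by_cases hkm : k = 0 ∧ m = 0
  · have h3 := line P hP.1 hP.2
    rw [hkm.1, hkm.2, zero_mul, zero_mul, zero_add, zero_add] at h3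
    have hk0 := hkm.1
    have hm0 := hkm.2
    rw [hk] at hk0
    rw [hm] at hm0
    rw [hl] at h3
    have hde : d * (u : ZMod p) + e * (v : ZMod p) = 0 := by
      have : 2 * (d * (u : ZMod p) + e * (v : ZMod p)) = 0 := by
        linear_combination 2 * h3 - (u : ZMod p) * hk0 - (v : ZMod p) * hm0
      exact (mul_eq_zero.1 this).resolve_left h2
    apply huv
    constructor
    · have : (2 * (4 * a * c * g + b * d * e - a * e ^ 2 - c * d ^ 2 - g * b ^ 2)) * (u : ZMod p)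
          = 0 := by
        linear_combination (4 * c * g - e ^ 2) * hk0 + (d * e - 2 * b * g) * hm0
          + (b * e - 2 * c * d) * hde
      exact (mul_eq_zero.1 this).resolve_left (mul_ne_zero h2 hdet)
    · have : (2 * (4 * a * c * g + b * d * e - a * e ^ 2 - c * d ^ 2 - g * b ^ 2)) * (v : ZMod p)
          = 0 := by
        linear_combination (d * e - 2 * b * g) * hk0 + (4 * a * g - d ^ 2) * hm0
          + (b * d - 2 * a * e) * hde
      exact (mul_eq_zero.1 this).resolve_left (mul_ne_zero h2 hdet)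
  · have dist : ∀ T ∈ S, ∀ T' ∈ S, T ≠ T' →
        ¬ ((T'.1 : ZMod p) - (T.1 : ZMod p) = 0 ∧ (T'.2 : ZMod p) - (T.2 : ZMod p) = 0) := by
      rintro T hT T' hT' hne ⟨h3, h4⟩
      have b1 := hbox T hT
      have b2 := hbox T' hT'
      exact hne (Prod.ext (cast_ne hn b1.1 b1.2.1 b2.1 b2.2.1 h3)
        (cast_ne hn b1.2.2.1 b1.2.2.2 b2.2.2.1 b2.2.2.2 h4))
    exact three_on_line h2 a b c d e g hdet k m l hkm _ _ _ _ _ _
      (dist P hP.1 Q hQ.1 hPQ) (dist P hP.1 R hR.1 hPR) (dist Q hQ.1 R hR.1 hQR)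
      (hc P hP.1) (hc Q hQ.1) (hc R hR.1) (line P hP.1 hP.2) (line Q hQ.1 hQ.2) (line R hR.1 hR.2)

/-- the energy bound -/
theorem energy (n m : ℕ) (S : Finset (ℤ × ℤ)) (hbox : InBox n S)
    (hd : ∀ u v : ℤ, ¬ (u = 0 ∧ v = 0) → |u| < m → |v| < m →
      (S.filter (fun P => (P.1 + u, P.2 + v) ∈ S)).card ≤ 2) :
    (m ^ 2 * S.card) ^ 2 ≤ (n + m) ^ 2 * (m ^ 2 * S.card + 2 * m ^ 4) := by
  classical
  set Z : Finset (ℤ × ℤ) := (Finset.Ico (-(m : ℤ)) n) ×ˢ (Finset.Ico (-(m : ℤ)) n) with hZ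
  set O : Finset (ℕ × ℕ) := (range m) ×ˢ (range m) with hO
  have hZc : Z.card = (n + m) ^ 2 := by
    rw [hZ, Finset.card_product, Int.card_Ico]
    have : ((n : ℤ) - -(m : ℤ)).toNat = n + m := by omega
    rw [this]; ring
  have hOc : O.card = m ^ 2 := by
    rw [hO, Finset.card_product, Finset.card_range]; ring
  set f : (ℤ × ℤ) → ℕ := fun z => (O.filter (fun o => (z.1 + (o.1 : ℤ), z.2 + (o.2 : ℤ)) ∈ S)).card
    with hf
  have h1 : m ^ 2 * S.card ≤ ∑ z ∈ Z, f z := by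
    have e1 : ∑ z ∈ Z, f z
        = ∑ o ∈ O, (Z.filter (fun z => (z.1 + (o.1 : ℤ), z.2 + (o.2 : ℤ)) ∈ S)).card := by
      simp only [hf, Finset.card_filter]
      exact Finset.sum_comm
    rw [e1, ← hOc, ← smul_eq_mul, ← Finset.sum_const]
    refine Finset.sum_le_sum (fun o ho => ?_)
    refine Finset.card_le_card_of_injOn (fun P => (P.1 - (o.1 : ℤ), P.2 - (o.2 : ℤ))) ?_ ?_
    · intro P hP
      have b1 := hbox P (mem_coe.1 hP)
      rw [hO, mem_product, mem_range, mem_range] at ho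
      refine mem_coe.2 (mem_filter.2 ⟨?_, ?_⟩)
      · rw [hZ, mem_product, mem_Ico, mem_Ico]
        simp only
        omega
      · simpa using mem_coe.1 hP
    · intro P _ Q _ h
      simp only [Prod.mk.injEq] at h
      exact Prod.ext (by omega) (by omega)
  have h2 : ∑ z ∈ Z, (f z) ^ 2 ≤ m ^ 2 * S.card + 2 * m ^ 4 := by
    have e1 : ∑ z ∈ Z, (f z) ^ 2 = ∑ o ∈ O, ∑ o' ∈ O,
        (Z.filter (fun z => (z.1 + (o.1 : ℤ), z.2 + (o.2 : ℤ)) ∈ S ∧
          (z.1 + (o'.1 : ℤ), z.2 + (o'.2 : ℤ)) ∈ S)).card := by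
      have e2 : ∀ z ∈ Z, (f z) ^ 2 = ∑ o ∈ O, ∑ o' ∈ O,
          (if ((z.1 + (o.1 : ℤ), z.2 + (o.2 : ℤ)) ∈ S ∧
          (z.1 + (o'.1 : ℤ), z.2 + (o'.2 : ℤ)) ∈ S) then 1 else 0) := by
        intro z _
        simp only [hf, sq, Finset.card_filter, Finset.sum_mul_sum]
        refine Finset.sum_congr rfl (fun o _ => Finset.sum_congr rfl (fun o' _ => ?_))
        by_cases ha : (z.1 + (o.1 : ℤ), z.2 + (o.2 : ℤ)) ∈ S <;>
        by_cases hb : (z.1 + (o'.1 : ℤ), z.2 + (o'.2 : ℤ)) ∈ S <;> simp [ha, hb]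
      rw [Finset.sum_congr rfl e2, Finset.sum_comm]
      refine Finset.sum_congr rfl (fun o _ => ?_)
      rw [Finset.sum_comm]
      refine Finset.sum_congr rfl (fun o' _ => ?_)
      rw [Finset.card_filter]
    rw [e1]
    have e3 : ∀ o ∈ O, ∑ o' ∈ O,
        (Z.filter (fun z => (z.1 + (o.1 : ℤ), z.2 + (o.2 : ℤ)) ∈ S ∧
          (z.1 + (o'.1 : ℤ), z.2 + (o'.2 : ℤ)) ∈ S)).card ≤ S.card + 2 * m ^ 2 := by
      intro o ho
      have e4 : ∀ o' ∈ O, (Z.filter (fun z => (z.1 + (o.1 : ℤ), z.2 + (o.2 : ℤ)) ∈ S ∧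
          (z.1 + (o'.1 : ℤ), z.2 + (o'.2 : ℤ)) ∈ S)).card ≤ (if o' = o then S.card else 0) + 2 := by
        intro o' ho'
        by_cases hoo : o' = o
        · rw [if_pos hoo]
          have : (Z.filter (fun z => (z.1 + (o.1 : ℤ), z.2 + (o.2 : ℤ)) ∈ S ∧
            (z.1 + (o'.1 : ℤ), z.2 + (o'.2 : ℤ)) ∈ S)).card ≤ S.card := by
            refine Finset.card_le_card_of_injOn (fun z => (z.1 + (o.1 : ℤ), z.2 + (o.2 : ℤ))) ?_ ?_
            · intro z hz
              exact mem_coe.2 (mem_filter.1 (mem_coe.1 hz)).2.1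
            · intro z _ w _ h
              simp only [Prod.mk.injEq] at h
              exact Prod.ext (by omega) (by omega)
          omega
        · rw [if_neg hoo, zero_add]
          rw [hO, mem_product, mem_range, mem_range] at ho ho'
          have h5 := hd ((o'.1 : ℤ) - o.1) ((o'.2 : ℤ) - o.2) (by
            rintro ⟨h6, h7⟩
            exact hoo (Prod.ext (by omega) (by omega)))
            (by rw [abs_lt]; omega) (by rw [abs_lt]; omega)
          refine le_trans ?_ h5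
          refine Finset.card_le_card_of_injOn (fun z => (z.1 + (o.1 : ℤ), z.2 + (o.2 : ℤ))) ?_ ?_
          · intro z hz
            have hz' := (mem_filter.1 (mem_coe.1 hz)).2
            refine mem_coe.2 (mem_filter.2 ⟨hz'.1, ?_⟩)
            have h6 : z.1 + (o.1 : ℤ) + ((o'.1 : ℤ) - o.1) = z.1 + (o'.1 : ℤ) := by ring
            have h7 : z.2 + (o.2 : ℤ) + ((o'.2 : ℤ) - o.2) = z.2 + (o'.2 : ℤ) := by ring
            simp only [h6, h7]
            exact hz'.2
          · intro z _ w _ h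
            simp only [Prod.mk.injEq] at h
            exact Prod.ext (by omega) (by omega)
      refine (Finset.sum_le_sum e4).trans ?_
      rw [Finset.sum_add_distrib, Finset.sum_ite_eq' O o, if_pos ho, Finset.sum_const, hOc,
        smul_eq_mul]
      omega
    refine (Finset.sum_le_sum e3).trans ?_
    rw [Finset.sum_const, hOc, smul_eq_mul]
    apply le_of_eq
    ring
  have h3 : (∑ z ∈ Z, f z) ^ 2 ≤ Z.card * ∑ z ∈ Z, (f z) ^ 2 := sq_sum_le_card_mul_sum_sq
  calc (m ^ 2 * S.card) ^ 2 ≤ (∑ z ∈ Z, f z) ^ 2 := Nat.pow_le_pow_left h1 2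
    _ ≤ Z.card * ∑ z ∈ Z, (f z) ^ 2 := h3
    _ ≤ (n + m) ^ 2 * (m ^ 2 * S.card + 2 * m ^ 4) := by
        rw [hZc]; exact Nat.mul_le_mul_left _ h2

end Pool.Agent.Helper83.MC
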