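import Mathlib
import Pool.Agent.Helper83.MCa
import Pool.Agent.Helper83.MCb
import Pool.Agent.Helper83.MCc
import Pool.Agent.Helper83.MCd

set_option autoImplicit false

/-!
Tents whose half width is a multiple of the modulus.
-/

namespace Pool.Agent.Helper83.MC

open Finset

/-- the tent of half width `h` -/
def tent (h : ℤ) (c : ℤ) : ℤ := max 0 (min (h - c) (h + c))

theorem tent_nonneg (h c : ℤ) : 0 ≤ tent h c := le_max_left _ _

/-- arithmetic progression -/
theorem ap_sum (P : ℤ) (s : ℤ) (m : ℕ) :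
    2 * ∑ j ∈ range m, (s - (j : ℤ) * P) = 2 * m * s - P * m * (m - 1) := by
  induction m with
  | zero => simp
  | succ m ih =>
    rw [Finset.sum_range_succ, mul_add, ih]
    push_cast
    ring

theorem tent_class (P : ℤ) (hP : 0 < P) (m : ℕ) (r : ℤ) (hr0 : 0 ≤ r) (hrP : r < P) (T : Finset ℤ)
    (hT : ∀ c ∈ T, P ∣ c - r) :
    ∑ c ∈ T, tent (m * P) c ≤ (m : ℤ) ^ 2 * P := by
  classical
  -- remove the points outside
  have hred : ∑ c ∈ T, tent (m * P) c
      = ∑ c ∈ T.filter (fun c => -(m * P) < c ∧ c < m * P), tent (m * P) c := by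
    symm
    refine Finset.sum_filter_of_ne (fun c _ hne => ?_)
    by_contra hcon
    apply hne
    unfold tent
    omega
  rw [hred]
  -- the function j ↦ tent (r + (j - m) P), j < 2 m
  have h1 : ∑ c ∈ T.filter (fun c => -(m * P) < c ∧ c < m * P), tent (m * P) c
      ≤ ∑ j ∈ range (2 * m), tent (m * P) (r + ((j : ℤ) - m) * P) := by
    refine sum_le_of_inj _ _ (2 * m) _ (fun c => ((c - r) / P + m).toNat) ?_ ?_ ?_
      (fun j => tent_nonneg _ _)
    · intro c hc
      rw [mem_filter] at hc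
      obtain ⟨k, hk⟩ := hT c hc.1
      have hdiv : (c - r) / P = k := by rw [hk]; exact Int.mul_ediv_cancel_left _ hP.ne'
      simp only [hdiv]
      have hk1 : k < m := by
        by_contra h
        push Not at h
        have : (m : ℤ) * P ≤ P * k := by nlinarith
        omega
      have hk0 : -(m : ℤ) ≤ k := by
        by_contra h
        push Not at h
        have : P * k ≤ -((m : ℤ) * P) - P := by nlinarith
        omega
      rcases Nat.eq_zero_or_pos m with hm | hm
      · subst hm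
        simp only [Nat.cast_zero] at hk1 hk0
        omega
      · omega
    · intro c hc d hd h
      rw [mem_filter] at hc hd
      obtain ⟨k, hk⟩ := hT c hc.1
      obtain ⟨l, hl⟩ := hT d hd.1
      have hdk : (c - r) / P = k := by rw [hk]; exact Int.mul_ediv_cancel_left _ hP.ne'
      have hdl : (d - r) / P = l := by rw [hl]; exact Int.mul_ediv_cancel_left _ hP.ne'
      simp only [hdk, hdl] at h
      have hk0 : -(m : ℤ) ≤ k := by
        by_contra h
        push Not at h
        have : P * k ≤ -((m : ℤ) * P) - P := by nlinarith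
        omega
      have hl0 : -(m : ℤ) ≤ l := by
        by_contra h
        push Not at h
        have : P * l ≤ -((m : ℤ) * P) - P := by nlinarith
        omega
      have : k = l := by omega
      rw [this] at hk
      omega
    · intro c hc
      rw [mem_filter] at hc
      obtain ⟨k, hk⟩ := hT c hc.1
      have hdk : (c - r) / P = k := by rw [hk]; exact Int.mul_ediv_cancel_left _ hP.ne'
      simp only [hdk]
      have hk0 : -(m : ℤ) ≤ k := by
        by_contra h
        push Not at h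
        have : P * k ≤ -((m : ℤ) * P) - P := by nlinarith
        omega
      rw [Int.toNat_of_nonneg (by omega)]
      have h5 : r + (k + (m : ℤ) - m) * P = c := by linarith
      rw [h5]
  refine h1.trans ?_
  rw [two_mul, Finset.sum_range_add]
  have h2 : ∑ j ∈ range m, tent (m * P) (r + ((j : ℤ) - m) * P)
      = ∑ j ∈ range m, ((r + (0 : ℤ)) - (j : ℤ) * (-P)) := by
    refine Finset.sum_congr rfl (fun j hj => ?_)
    have hj' : (j : ℤ) + 1 ≤ m := by exact_mod_cast mem_range.1 hj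
    have e1 : (j : ℤ) * P + P ≤ m * P := by nlinarith
    have e0 : (0 : ℤ) ≤ j * P := by positivity
    unfold tent
    rw [show (m : ℤ) * P + (r + ((j : ℤ) - m) * P) = r + j * P by ring,
      show (m : ℤ) * P - (r + ((j : ℤ) - m) * P) = 2 * (m * P) - j * P - r by ring,
      show (r + (0 : ℤ)) - (j : ℤ) * (-P) = r + j * P by ring]
    omega
  have h3 : ∑ j ∈ range m, tent (m * P) (r + (((m + j : ℕ) : ℤ) - m) * P)
      = ∑ j ∈ range m, ((m * P - r) - (j : ℤ) * P) := by
    refine Finset.sum_congr rfl (fun j hj => ?_)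
    have hj' : (j : ℤ) + 1 ≤ m := by exact_mod_cast mem_range.1 hj
    have e1 : (j : ℤ) * P + P ≤ m * P := by nlinarith
    have e0 : (0 : ℤ) ≤ j * P := by positivity
    unfold tent
    rw [show (m : ℤ) * P - (r + (((m + j : ℕ) : ℤ) - m) * P) = m * P - r - j * P by push_cast; ring,
      show (m : ℤ) * P + (r + (((m + j : ℕ) : ℤ) - m) * P) = m * P + r + j * P by push_cast; ring]
    omega
  rw [h2, h3]
  have h4 := ap_sum (-P) (r + 0) m
  have h5 := ap_sum P (m * P - r) m
  nlinarith [h4, h5]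

/-- the weight of a row -/
def gw (n : ℕ) (x : ℤ) : ℤ := max 0 (max (4 * (n : ℤ) - 10 - 20 * x) (20 * x + 10 - 16 * n))

theorem gw_nonneg (n : ℕ) (x : ℤ) : 0 ≤ gw n x := le_max_left _ _

theorem gw_sum (n : ℕ) : 5 * ∑ x ∈ range n, gw n (x : ℤ) ≤ 4 * (n : ℤ) ^ 2 := by
  have h1 : ∑ x ∈ range n, gw n (x : ℤ)
      ≤ ∑ x ∈ range n, max 0 ((4 * (n : ℤ) - 10) - (x : ℤ) * 20)
        + ∑ x ∈ range n, max 0 ((4 * (n : ℤ) - 10) - (((n - 1 - x : ℕ) : ℤ)) * 20) := by
    rw [← Finset.sum_add_distrib]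
    refine Finset.sum_le_sum (fun x hx => ?_)
    have hx' := mem_range.1 hx
    have hc : (((n - 1 - x : ℕ) : ℤ)) = n - 1 - x := by omega
    rw [hc]
    unfold gw
    omega
  have h2 : ∑ x ∈ range n, max 0 ((4 * (n : ℤ) - 10) - (((n - 1 - x : ℕ) : ℤ)) * 20)
      = ∑ x ∈ range n, max 0 ((4 * (n : ℤ) - 10) - (x : ℤ) * 20) :=
    Finset.sum_range_reflect (fun x => max 0 ((4 * (n : ℤ) - 10) - (x : ℤ) * 20)) n
  have h3 := hinge_sum 20 (by norm_num) n (4 * (n : ℤ) - 10)
  rw [h2] at h1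
  nlinarith [h1, h3]

theorem gw_rows (n : ℕ) (X : Finset ℤ) (hX : ∀ x ∈ X, 0 ≤ x ∧ x < (n : ℤ)) :
    ∑ x ∈ X, gw n x ≤ ∑ j ∈ range n, gw n (j : ℤ) := by
  refine sum_le_of_inj X (gw n) n (fun j => gw n (j : ℤ)) (fun x => x.toNat) ?_ ?_ ?_ ?_
  · intro x hx
    have := hX x hx
    omega
  · intro x hx y hy h
    have h1 := hX x hx
    have h2 := hX y hy
    omega
  · intro x hx
    have h1 := hX x hx
    rw [Int.toNat_of_nonneg h1.1]
  · intro j
    exact gw_nonneg _ _

variable {p : ℕ} [Fact p.Prime]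

theorem tent_classes (m : ℕ) (W : Finset (ZMod p)) (T : Finset ℤ)
    (hT : ∀ c ∈ T, (c : ZMod p) ∈ W) :
    ∑ c ∈ T, tent (m * p) c ≤ W.card * ((m : ℤ) ^ 2 * p) := by
  classical
  have hp : 0 < (p : ℤ) := by exact_mod_cast (Fact.out : p.Prime).pos
  have h1 := Finset.sum_fiberwise_of_maps_to (s := T) (t := W) (g := fun c : ℤ => (c : ZMod p))
    (fun c hc => hT c hc) (fun c => tent (m * p) c)
  rw [← h1]
  have h2 : ∀ w ∈ W, ∑ c ∈ T.filter (fun c : ℤ => (c : ZMod p) = w),
      tent (m * p) c ≤ (m : ℤ) ^ 2 * p := by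
    intro w _
    refine tent_class (p : ℤ) hp m (w.val : ℤ) (by positivity) (by exact_mod_cast ZMod.val_lt w) _ ?_
    intro c hc
    rw [mem_filter] at hc
    rw [← ZMod.intCast_zmod_eq_zero_iff_dvd]
    push_cast
    rw [hc.2, ZMod.natCast_zmod_val, sub_self]
  refine (Finset.sum_le_sum h2).trans ?_
  rw [Finset.sum_const, nsmul_eq_mul]

/-- the main inequality with tents of half width `m p` in the case `a = c = 0` -/
theorem main_tent (hp2 : p ≠ 2) (b d e g : ZMod p) (hb : b ≠ 0) (hK : d * e - b * g ≠ 0)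
    (n m : ℕ) (S : Finset (ℤ × ℤ)) (hbox : InBox n S) (hS : NoT S)
    (hc : OnConic 0 b 0 d e g S) :
    (50 * (m : ℤ) * p - 15 * n) * S.card ≤ 50 * (p + 1) * p * (m : ℤ) ^ 2 + 8 * (n : ℤ) ^ 2 := by
  classical
  have hp : 0 < (p : ℤ) := by exact_mod_cast (Fact.out : p.Prime).pos
  -- pointwise cover
  have hcov : ∀ P ∈ S, 20 * ((m : ℤ) * p) - 6 * n ≤ 10 * tent (m * p) (-1 * P.1 + 1 * P.2)
      + 10 * tent (m * p) ((1 * P.1 + 1 * P.2) - ((n : ℤ) - 1))
      + gw n (1 * P.1 + 0 * P.2) + gw n (0 * P.1 + 1 * P.2) := by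
    intro P hP
    have hbx := hbox P hP
    have hh : 0 ≤ (m : ℤ) * p := by positivity
    generalize (m : ℤ) * p = h at hh ⊢
    unfold tent gw
    omega
  have hsum := Finset.sum_le_sum hcov
  rw [Finset.sum_const, nsmul_eq_mul, Finset.sum_add_distrib, Finset.sum_add_distrib,
    Finset.sum_add_distrib, ← Finset.mul_sum, ← Finset.mul_sum] at hsum
  have hA := weight_le S hS (-1) 1 (by norm_num) (fun c => tent (m * p) c)
    (fun P _ => tent_nonneg _ _)
  have hB := weight_le S hS 1 1 (by norm_num)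
    (fun c => tent (m * p) (c - ((n : ℤ) - 1))) (fun P _ => tent_nonneg _ _)
  have hC := weight_le S hS 1 0 (by norm_num) (gw n) (fun P _ => gw_nonneg _ _)
  have hD := weight_le S hS 0 1 (by norm_num) (gw n) (fun P _ => gw_nonneg _ _)
  have hC2 := gw_rows n (S.image (fun P => 1 * P.1 + 0 * P.2)) (by
    intro x hx
    obtain ⟨P, hP, rfl⟩ := mem_image.1 hx
    have := hbox P hP
    omega)
  have hD2 := gw_rows n (S.image (fun P => 0 * P.1 + 1 * P.2)) (by
    intro x hx
    obtain ⟨P, hP, rfl⟩ := mem_image.1 hx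
    have := hbox P hP
    omega)
  have hf := gw_sum n
  -- slope 1
  set W1 := (univ : Finset (ZMod p)).filter
      (fun c => IsSquare ((b * c + d - e) ^ 2 - (-(4 * (d * e - b * g))))) with hW1
  have hW1c := slope_plus hp2 b d e g hb hK
  rw [← hW1] at hW1c
  have hT1 := tent_classes m W1 (S.image (fun P => -1 * P.1 + 1 * P.2)) (by
    intro c hcc
    obtain ⟨P, hP, rfl⟩ := mem_image.1 hcc
    have he := hc P hP
    rw [hW1, mem_filter]
    refine ⟨mem_univ _, 2 * b * (P.1 : ZMod p) + b * ((P.2 : ZMod p) - (P.1 : ZMod p)) + d + e, ?_⟩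
    push_cast
    linear_combination (-4 * b) * he)
  -- slope -1
  set m' : ZMod p := (n : ZMod p) - 1 with hm
  set W2 := (univ : Finset (ZMod p)).filter
      (fun c => IsSquare ((b * (c + m') + d + e) ^ 2 - 4 * (d * e - b * g))) with hW2
  have hW2c := slope_minus hp2 b d e g m' hb hK
  rw [← hW2] at hW2c
  have hT2 := tent_classes m W2
    ((S.image (fun P => 1 * P.1 + 1 * P.2)).image (fun c => c - ((n : ℤ) - 1))) (by
    intro c hcc
    obtain ⟨c', hcc', rfl⟩ := mem_image.1 hcc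
    obtain ⟨P, hP, rfl⟩ := mem_image.1 hcc'
    have he := hc P hP
    rw [hW2, mem_filter]
    refine ⟨mem_univ _, 2 * b * (P.1 : ZMod p) - b * ((P.1 : ZMod p) + (P.2 : ZMod p)) - d + e, ?_⟩
    rw [hm]
    push_cast
    linear_combination (4 * b) * he)
  rw [Finset.sum_image (by intro x _ y _ h; simp only at h; omega)] at hT2
  have hWn1 : 2 * (W1.card : ℤ) ≤ p + 1 := by exact_mod_cast hW1c
  have hWn2 : 2 * (W2.card : ℤ) ≤ p + 1 := by exact_mod_cast hW2c
  have hQ : 0 ≤ (m : ℤ) ^ 2 * (p : ℤ) := by positivity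
  have hX1 := mul_le_mul_of_nonneg_right hWn1 hQ
  have hX2 := mul_le_mul_of_nonneg_right hWn2 hQ
  nlinarith [hX1, hX2, hA, hB, hC, hD, hC2, hD2, hf, hT1, hT2, hsum]

/-- the central strip and the two corners, `p ≤ n ≤ 2 p` -/
theorem hyp_strip (hp2 : p ≠ 2) (b d e g : ZMod p) (hb : b ≠ 0) (hK : d * e - b * g ≠ 0)
    (n : ℕ) (hpn' : p ≤ n) (hpn : n ≤ 2 * p) (S : Finset (ℤ × ℤ)) (hbox : InBox n S) (hS : NoT S)
    (hc : OnConic 0 b 0 d e g S) : S.card ≤ n + p + 2 := by
  classical
  have hp : 0 < (p : ℤ) := by exact_mod_cast (Fact.out : p.Prime).pos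
  have hp1 : 0 < p := (Fact.out : p.Prime).pos
  have hn : (n : ℤ) ≤ 2 * p := by exact_mod_cast hpn
  set W1 := (univ : Finset (ZMod p)).filter
      (fun c => IsSquare ((b * c + d - e) ^ 2 - (-(4 * (d * e - b * g))))) with hW1
  have hW1c := slope_plus hp2 b d e g hb hK
  rw [← hW1] at hW1c
  -- the central part
  have hA : (S.filter (fun P => -(p : ℤ) ≤ P.2 - P.1 ∧ P.2 - P.1 < (p : ℤ))).card ≤ 2 * (p + 1) := by
    have h1 := card_le_two_mul (S.filter (fun P => -(p : ℤ) ≤ P.2 - P.1 ∧ P.2 - P.1 < (p : ℤ)))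
      (hS.mono (Finset.filter_subset _ _)) (-1) 1 (by norm_num)
    have h2 := count_classes (2 * p) W1
      (((S.filter (fun P => -(p : ℤ) ≤ P.2 - P.1 ∧ P.2 - P.1 < (p : ℤ))).image
        (fun P => -1 * P.1 + 1 * P.2)).image (fun c => c + (p : ℤ))) (by
      intro y hy
      obtain ⟨c, hcc, rfl⟩ := mem_image.1 hy
      obtain ⟨P, hP, rfl⟩ := mem_image.1 hcc
      rw [mem_filter] at hP
      have he := hc P hP.1
      refine ⟨by omega, by push_cast; omega, ?_⟩
      rw [hW1, mem_filter]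
      refine ⟨mem_univ _,
        2 * b * (P.1 : ZMod p) + b * ((P.2 : ZMod p) - (P.1 : ZMod p)) + d + e, ?_⟩
      push_cast
      rw [ZMod.natCast_self]
      linear_combination (-4 * b) * he)
    rw [Finset.card_image_of_injective _ (fun x y h => by simpa using h)] at h2
    have h3 : 2 * p / p = 2 := Nat.mul_div_cancel _ hp1
    rw [h3] at h2
    omega
  have hB : (S.filter (fun P => ¬ (-(p : ℤ) ≤ P.2 - P.1 ∧ P.2 - P.1 < (p : ℤ)))).card ≤ n - p := by
    have : (S.filter (fun P => ¬ (-(p : ℤ) ≤ P.2 - P.1 ∧ P.2 - P.1 < (p : ℤ)))).card ≤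
        (Finset.Ico (0 : ℤ) ((n : ℤ) - p)).card := by
      refine Finset.card_le_card_of_injOn
        (fun P => if (p : ℤ) ≤ P.2 then P.2 - p else P.2) ?_ ?_
      · intro P hP
        have hP' := mem_filter.1 (mem_coe.1 hP)
        have b1 := hbox P hP'.1
        have c1 := hP'.2
        refine mem_coe.2 (mem_Ico.2 ?_)
        simp only
        split_ifs <;> constructor <;> omega
      intro P hP Q hQ hPQ
      have hP' := mem_filter.1 (mem_coe.1 hP)
      have hQ' := mem_filter.1 (mem_coe.1 hQ)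
      have hy : (P.2 : ZMod p) = (Q.2 : ZMod p) := by
        have h0 : (if (p : ℤ) ≤ P.2 then P.2 - p else P.2) = (if (p : ℤ) ≤ Q.2 then Q.2 - p else Q.2) :=
          hPQ
        have h1 : (((if (p : ℤ) ≤ P.2 then P.2 - p else P.2) : ℤ) : ZMod p)
            = (((if (p : ℤ) ≤ Q.2 then Q.2 - p else Q.2) : ℤ) : ZMod p) := by rw [h0]
        split_ifs at h1 <;> simpa using h1
      have heP := hc P hP'.1
      have heQ := hc Q hQ'.1
      have heP' := heP
      rw [hy] at heP'
      have hx := hyp_x_eq b d e g hb hK _ _ _ heP' heQ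
      obtain ⟨k, hk⟩ := cast_eq_dvd P.2 Q.2 hy
      obtain ⟨l, hl⟩ := cast_eq_dvd P.1 Q.1 hx
      have b1 := hbox P hP'.1
      have b2 := hbox Q hQ'.1
      have c1 := hP'.2
      have c2 := hQ'.2
      have hk1 : -1 ≤ k ∧ k ≤ 1 := by
        constructor <;> nlinarith
      have hl1 : -1 ≤ l ∧ l ≤ 1 := by
        constructor <;> nlinarith
      have hk2 : k = -1 ∨ k = 0 ∨ k = 1 := by omega
      have hl2 : l = -1 ∨ l = 0 ∨ l = 1 := by omega
      rcases hk2 with rfl | rfl | rfl <;> rcases hl2 with rfl | rfl | rfl <;>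
        first
        | (exfalso; omega)
        | (exact Prod.ext (by omega) (by omega))
    rw [Int.card_Ico] at this
    omega
  have h3 := Finset.card_filter_add_card_filter_not (s := S)
    (fun P => -(p : ℤ) ≤ P.2 - P.1 ∧ P.2 - P.1 < (p : ℤ))
  omega

end Pool.Agent.Helper83.MC
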