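import Mathlib
import Pool.Agent.Helper83.MCa
import Pool.Agent.Helper83.MCb
import Pool.Agent.Helper83.MCc
import Pool.Agent.Helper83.MCd
import Pool.Agent.Helper83.MCe
import Pool.Agent.Helper83.MCf

set_option autoImplicit false

/-!
Assembly of the cases.
-/

namespace Pool.Agent.Helper83.MC

open Finset

theorem NoT.swap {S : Finset (ℤ × ℤ)} (h : NoT S) : NoT (S.image Prod.swap) := by
  classical
  intro P hP Q hQ R hR hPQ hPR hQR
  obtain ⟨P', hP', rfl⟩ := mem_image.1 hP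
  obtain ⟨Q', hQ', rfl⟩ := mem_image.1 hQ
  obtain ⟨R', hR', rfl⟩ := mem_image.1 hR
  have h1 := h P' hP' Q' hQ' R' hR' (fun h => hPQ (by rw [h])) (fun h => hPR (by rw [h]))
    (fun h => hQR (by rw [h]))
  simp only [Prod.fst_swap, Prod.snd_swap]
  intro h2
  apply h1
  exact h2.symm

theorem InBox.swap {n : ℕ} {S : Finset (ℤ × ℤ)} (h : InBox n S) : InBox n (S.image Prod.swap) := by
  intro P hP
  obtain ⟨P', hP', rfl⟩ := mem_image.1 hP
  have := h P' hP'
  simp only [Prod.fst_swap, Prod.snd_swap]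
  omega

theorem rows_two (n : ℕ) (S : Finset (ℤ × ℤ)) (hbox : InBox n S) (hS : NoT S) :
    S.card ≤ 2 * n := by
  classical
  have h1 := card_le_two_mul S hS 0 1 (by norm_num)
  have h2 : (S.image (fun P => 0 * P.1 + 1 * P.2)).card ≤ (Finset.Ico (0 : ℤ) n).card := by
    refine Finset.card_le_card ?_
    intro y hy
    obtain ⟨P, hP, rfl⟩ := mem_image.1 hy
    have := hbox P hP
    exact mem_Ico.2 (by omega)
  rw [Int.card_Ico] at h2
  omega

variable {p : ℕ} [Fact p.Prime]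

theorem OnConic.swap {a b c d e g : ZMod p} {S : Finset (ℤ × ℤ)} (h : OnConic a b c d e g S) :
    OnConic c b a e d g (S.image Prod.swap) := by
  intro P hP
  obtain ⟨P', hP', rfl⟩ := mem_image.1 hP
  have := h P' hP'
  simp only [Prod.fst_swap, Prod.snd_swap]
  linear_combination this

theorem gen_one (hp5 : 5 ≤ p) (a b c d e g : ZMod p) (ha : a ≠ 0)
    (hdet : 4 * a * c * g + b * d * e - a * e ^ 2 - c * d ^ 2 - g * b ^ 2 ≠ 0)
    (n : ℕ) (S : Finset (ℤ × ℤ)) (hbox : InBox n S) (hS : NoT S)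
    (hc : OnConic a b c d e g S) :
    (S.card : ℤ) + ((p : ℤ) - 3) * ((n / p : ℕ) : ℤ) ≤ 2 * n := by
  obtain ⟨R, Y, h1, h2, h3⟩ := rows_le (by omega) a b c d e g ha hdet n S hbox hS hc
  have hR : R ≤ p := by omega
  have h4 : (Y : ℤ) + ((p : ℤ) - R) * ((n / p : ℕ) : ℤ) ≤ n := by
    have : ((Y + (p - R) * (n / p) : ℕ) : ℤ) ≤ n := by exact_mod_cast h3
    rw [Nat.cast_add, Nat.cast_mul, Nat.cast_sub hR] at this
    exact this
  have h5 : (S.card : ℤ) ≤ 2 * Y := by exact_mod_cast h2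
  have h6 : (p : ℤ) - 3 ≤ 2 * ((p : ℤ) - R) := by
    have : (2 * R : ℤ) ≤ p + 3 := by exact_mod_cast h1
    linarith
  have h7 : (0 : ℤ) ≤ ((n / p : ℕ) : ℤ) := by positivity
  have h8 := mul_le_mul_of_nonneg_right h6 h7
  nlinarith

/-- one of the axis directions is not asymptotic -/
theorem gen_case (hp5 : 5 ≤ p) (a b c d e g : ZMod p) (hac : a ≠ 0 ∨ c ≠ 0)
    (hdet : 4 * a * c * g + b * d * e - a * e ^ 2 - c * d ^ 2 - g * b ^ 2 ≠ 0)
    (n : ℕ) (S : Finset (ℤ × ℤ)) (hbox : InBox n S) (hS : NoT S)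
    (hc : OnConic a b c d e g S) :
    (S.card : ℤ) + ((p : ℤ) - 3) * ((n / p : ℕ) : ℤ) ≤ 2 * n := by
  classical
  rcases hac with h | h
  · exact gen_one hp5 a b c d e g h hdet n S hbox hS hc
  · have h1 := gen_one hp5 c b a e d g h (by
      intro h0
      apply hdet
      linear_combination h0) n (S.image Prod.swap) hbox.swap hS.swap hc.swap
    rwa [Finset.card_image_of_injective _ Prod.swap_injective] at h1

theorem hyp_case (hp5 : 5 ≤ p) (b d e g : ZMod p) (hb : b ≠ 0) (hK : d * e - b * g ≠ 0)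
    (n : ℕ) (hpn : p ≤ n) (S : Finset (ℤ × ℤ)) (hbox : InBox n S) (hS : NoT S)
    (hc : OnConic 0 b 0 d e g S) :
    35 * (p : ℤ) * S.card ≤ (58 * p + 50) * n := by
  have hp : 0 < (p : ℤ) := by exact_mod_cast (Fact.out : p.Prime).pos
  have hp1 : 0 < p := (Fact.out : p.Prime).pos
  have hpn' : (p : ℤ) ≤ n := by exact_mod_cast hpn
  by_cases hmid : 35 * p ≤ 23 * n ∧ n ≤ 2 * p
  · have h1 := hyp_strip (by omega) b d e g hb hK n hpn hmid.2 S hbox hS hc
    have h2 : (S.card : ℤ) ≤ n + p + 2 := by exact_mod_cast h1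
    have h3 : (35 * p : ℤ) ≤ 23 * n := by exact_mod_cast hmid.1
    have h4 : 35 * (p : ℤ) * S.card ≤ 35 * p * (n + p + 2) :=
      mul_le_mul_of_nonneg_left h2 (by positivity)
    nlinarith
  · set q := n / p with hq
    have hq1 : 1 ≤ q := by rw [hq]; exact (Nat.one_le_div_iff hp1).2 hpn
    have hql : q * p ≤ n := Nat.div_mul_le_self n p
    have hqu : n < (q + 1) * p := by
      have := Nat.lt_succ_iff.2 (le_refl (n / p))
      rw [← hq] at this
      exact (Nat.div_lt_iff_lt_mul hp1).1 (by rw [← hq]; omega)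
    have h1 := main_tent (by omega) b d e g hb hK n q S hbox hS hc
    set h : ℤ := (q : ℤ) * p with hh
    have hle : h ≤ n := by rw [hh]; exact_mod_cast hql
    have hge : 23 * (n : ℤ) ≤ 35 * h := by
      rcases Nat.lt_or_ge q 2 with hq2 | hq2
      · have hq' : q = 1 := by omega
        rw [hq'] at hqu
        have : h = p := by rw [hh, hq']; simp
        rw [this]
        have : ¬ (35 * p ≤ 23 * n) := fun h0 => hmid ⟨h0, by omega⟩
        omega
      · have h2 : (n : ℤ) < (q + 1) * p := by exact_mod_cast hqu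
        have h3 : 2 * (p : ℤ) ≤ h := by
          rw [hh]
          exact mul_le_mul_of_nonneg_right (by exact_mod_cast hq2) hp.le
        have h4 : (n : ℤ) < h + p := by rw [hh]; linarith
        linarith
    have hn0 : 0 < (n : ℤ) := by linarith
    have h2 : (50 * h - 15 * n) * S.card ≤ 50 * h * h + 8 * (n : ℤ) ^ 2 + 50 * (q * h) := by
      have e1 : 50 * (q : ℤ) * p - 15 * n = 50 * h - 15 * n := by rw [hh]; ring
      have e2 : 50 * ((p : ℤ) + 1) * p * (q : ℤ) ^ 2 + 8 * (n : ℤ) ^ 2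
          = 50 * h * h + 8 * (n : ℤ) ^ 2 + 50 * (q * h) := by rw [hh]; ring
      rw [← e1, ← e2]
      exact h1
    have hpos : 0 < 50 * h - 15 * n := by linarith
    have h3 : (50 * h - 15 * n) * (35 * (p : ℤ) * S.card)
        ≤ (50 * h - 15 * n) * ((58 * p + 50) * n) := by
      have e3 : (50 * h - 15 * n) * (35 * (p : ℤ) * S.card)
          = 35 * p * ((50 * h - 15 * n) * S.card) := by ring
      rw [e3]
      have h4 := mul_le_mul_of_nonneg_left h2 (show (0 : ℤ) ≤ 35 * p by positivity)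
      refine h4.trans ?_
      have e4 : 35 * (p : ℤ) * (50 * h * h + 8 * (n : ℤ) ^ 2 + 50 * (q * h))
          = p * (1750 * h ^ 2 + 280 * (n : ℤ) ^ 2) + 1750 * h ^ 2 := by rw [hh]; ring
      rw [e4]
      have i1 : 0 ≤ ((n : ℤ) - h) * (35 * h - 23 * n) :=
        mul_nonneg (by linarith) (by linarith)
      have i2 : 0 ≤ ((n : ℤ) - h) * (7 * h - 3 * n) :=
        mul_nonneg (by linarith) (by linarith)
      have i3 := mul_nonneg hp.le i1
      nlinarith [i1, i2, i3]
    exact le_of_mul_le_mul_left h3 hpos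

/-- splitting into the two cases -/
theorem cases_det (a b c d e g : ZMod p)
    (hdet : 4 * a * c * g + b * d * e - a * e ^ 2 - c * d ^ 2 - g * b ^ 2 ≠ 0) :
    (a ≠ 0 ∨ c ≠ 0) ∨ (a = 0 ∧ c = 0 ∧ b ≠ 0 ∧ d * e - b * g ≠ 0) := by
  by_cases ha : a = 0
  · by_cases hc : c = 0
    · right
      subst ha
      subst hc
      have h1 : b * (d * e - b * g) ≠ 0 := by
        intro h0
        apply hdet
        linear_combination h0
      exact ⟨rfl, rfl, left_ne_zero_of_mul h1, right_ne_zero_of_mul h1⟩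
    · exact Or.inl (Or.inr hc)
  · exact Or.inl (Or.inl ha)

theorem big_box (hp5 : 5 ≤ p) (a b c d e g : ZMod p)
    (hdet : 4 * a * c * g + b * d * e - a * e ^ 2 - c * d ^ 2 - g * b ^ 2 ≠ 0)
    (n : ℕ) (hpn : p ≤ n) (S : Finset (ℤ × ℤ)) (hbox : InBox n S) (hS : NoT S)
    (hc : OnConic a b c d e g S) :
    35 * (p : ℤ) * S.card ≤ (58 * p + 50) * n := by
  rcases cases_det a b c d e g hdet with h | ⟨rfl, rfl, hb, hK⟩
  · have h1 := gen_case hp5 a b c d e g h hdet n S hbox hS hc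
    have hp1 : 0 < p := (Fact.out : p.Prime).pos
    have hp : 5 ≤ (p : ℤ) := by exact_mod_cast hp5
    have hq1 : 1 ≤ n / p := (Nat.one_le_div_iff hp1).2 hpn
    have hqu : n < (n / p + 1) * p := (Nat.div_lt_iff_lt_mul hp1).1 (Nat.lt_succ_self _)
    generalize n / p = q at h1 hq1 hqu
    have hqu' : (n : ℤ) < (q + 1) * p := by exact_mod_cast hqu
    have hq1' : (1 : ℤ) ≤ q := by exact_mod_cast hq1
    have h2 : (n : ℤ) ≤ 2 * (q * p) := by nlinarith
    have h3 : 35 * (p : ℤ) * S.card ≤ 35 * p * (2 * n - (p - 3) * q) :=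
      mul_le_mul_of_nonneg_left (by linarith) (by positivity)
    have h4 : (12 * (p : ℤ) - 50) * n ≤ (12 * p - 50) * (2 * (q * p)) :=
      mul_le_mul_of_nonneg_left h2 (by linarith)
    have h5 : 0 ≤ (q : ℤ) * p := by positivity
    nlinarith [mul_nonneg h5 (show (0 : ℤ) ≤ p - 5 by linarith)]
  · exact hyp_case hp5 b d e g hb hK n hpn S hbox hS hc

/-- modulus five (any `n`) -/
theorem five_box (hp5 : p = 5) (a b c d e g : ZMod p)
    (hdet : 4 * a * c * g + b * d * e - a * e ^ 2 - c * d ^ 2 - g * b ^ 2 ≠ 0)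
    (n : ℕ) (S : Finset (ℤ × ℤ)) (hbox : InBox n S) (hS : NoT S)
    (hc : OnConic a b c d e g S) :
    5 * S.card ≤ 8 * n + 8 := by
  rcases cases_det a b c d e g hdet with h | ⟨rfl, rfl, hb, hK⟩
  · have h1 := gen_case (by omega) a b c d e g h hdet n S hbox hS hc
    subst hp5
    omega
  · obtain ⟨Y, h1, h2⟩ := hyp_rows b d e g hb hK n S hbox hS hc
    subst hp5
    omega

/-- boxes of side at most the modulus -/
theorem small_box (hp2 : p ≠ 2) (a b c d e g : ZMod p)
    (hdet : 4 * a * c * g + b * d * e - a * e ^ 2 - c * d ^ 2 - g * b ^ 2 ≠ 0)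
    (n : ℕ) (hn : n ≤ p) (hn' : 1000 ≤ n) (S : Finset (ℤ × ℤ)) (hbox : InBox n S) (hS : NoT S)
    (hc : OnConic a b c d e g S) :
    100 * S.card ≤ 164 * n := by
  set m := n / 10 with hm
  have hm1 : 10 * m ≤ n := by omega
  have hm2 : n < 10 * m + 10 := by omega
  have hm3 : 100 ≤ m := by omega
  have hzero : ∀ u : ℤ, |u| < m → (u : ZMod p) = 0 → u = 0 := by
    intro u hu h0
    rw [ZMod.intCast_zmod_eq_zero_iff_dvd] at h0
    refine Int.eq_zero_of_abs_lt_dvd h0 ?_
    have : (m : ℤ) ≤ p := by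
      have : m ≤ p := by omega
      exact_mod_cast this
    linarith
  have h1 := energy n m S hbox (by
    intro u v huv hu hv
    refine diff_card hp2 a b c d e g hdet n hn S hbox hc u v ?_
    rintro ⟨h0, h1⟩
    exact huv ⟨hzero u hu h0, hzero v hv h1⟩)
  have h2 := rows_two n S hbox hS
  generalize S.card = s at h1 h2 ⊢
  have hM : 0 < m ^ 2 := by positivity
  have h3 : m ^ 2 * s ^ 2 ≤ (n + m) ^ 2 * (s + 2 * m ^ 2) := by
    have : m ^ 2 * (m ^ 2 * s ^ 2) ≤ m ^ 2 * ((n + m) ^ 2 * (s + 2 * m ^ 2)) := by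
      calc m ^ 2 * (m ^ 2 * s ^ 2) = (m ^ 2 * s) ^ 2 := by ring
        _ ≤ (n + m) ^ 2 * (m ^ 2 * s + 2 * m ^ 4) := h1
        _ = m ^ 2 * ((n + m) ^ 2 * (s + 2 * m ^ 2)) := by ring
    exact Nat.le_of_mul_le_mul_left this hM
  have h4 : 1000 * (s + 2 * m ^ 2) ≤ 2202 * m ^ 2 := by nlinarith
  have h5 : 100 * (n + m) ^ 2 ≤ 121 * n ^ 2 := by
    have : 10 * (n + m) ≤ 11 * n := by omega
    have := Nat.pow_le_pow_left this 2
    nlinarith
  have h6 : m ^ 2 * (100000 * s ^ 2) ≤ m ^ 2 * (266442 * n ^ 2) := by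
    calc m ^ 2 * (100000 * s ^ 2) = 100000 * (m ^ 2 * s ^ 2) := by ring
      _ ≤ 100000 * ((n + m) ^ 2 * (s + 2 * m ^ 2)) := Nat.mul_le_mul_left _ h3
      _ = (100 * (n + m) ^ 2) * (1000 * (s + 2 * m ^ 2)) := by ring
      _ ≤ (121 * n ^ 2) * (2202 * m ^ 2) := Nat.mul_le_mul h5 h4
      _ = m ^ 2 * (266442 * n ^ 2) := by ring
  have h7 := Nat.le_of_mul_le_mul_left h6 hM
  by_contra hcon
  push Not at hcon
  have h8 : (164 * n + 1) ^ 2 ≤ (100 * s) ^ 2 := Nat.pow_le_pow_left (by omega) 2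
  nlinarith

/-- the bound `n + p + 2` for `n ≤ 2 p` -/
theorem two_box (hp5 : 5 ≤ p) (a b c d e g : ZMod p)
    (hdet : 4 * a * c * g + b * d * e - a * e ^ 2 - c * d ^ 2 - g * b ^ 2 ≠ 0)
    (n : ℕ) (hpn : n ≤ 2 * p) (S : Finset (ℤ × ℤ)) (hbox : InBox n S) (hS : NoT S)
    (hc : OnConic a b c d e g S) :
    S.card ≤ n + p + 2 := by
  have hp1 : 0 < p := (Fact.out : p.Prime).pos
  rcases Nat.lt_or_ge n p with hlt | hge
  · have := rows_two n S hbox hS
    omega
  rcases cases_det a b c d e g hdet with h | ⟨rfl, rfl, hb, hK⟩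
  · have h1 := gen_case hp5 a b c d e g h hdet n S hbox hS hc
    rcases Nat.lt_or_ge n (2 * p) with h2 | h2
    · have h3 : n / p = 1 := by
        rw [Nat.div_eq_iff hp1]
        omega
      rw [h3] at h1
      push_cast at h1
      omega
    · have h2' : n = 2 * p := by omega
      have h3 : n / p = 2 := by rw [h2']; exact Nat.mul_div_cancel _ hp1
      rw [h3] at h1
      push_cast at h1
      omega
  · exact hyp_strip (by omega) b d e g hb hK n hge hpn S hbox hS hc

end Pool.Agent.Helper83.MC
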