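import Mathlib
import Pool.Agent.Helper83.MCa
import Pool.Agent.Helper83.MCb
import Pool.Agent.Helper83.MCc
import Pool.Agent.Helper83.MCd
import Pool.Agent.Helper83.MCe
import Pool.Agent.Helper83.MCf
import Pool.Agent.Helper83.MCg

set_option autoImplicit false

/-!
Degenerate conics modulo a prime: lines modulo a prime.
-/

namespace Pool.Agent.Helper83.MC

open Finset

theorem small_primes (p : ℕ) (hp : p = 7 ∨ p = 11 ∨ p = 13 ∨ p = 17) (α : ZMod p) :
    ∃ r ∈ Finset.Icc (-5 : ℤ) 5, ∃ s ∈ Finset.Icc (-5 : ℤ) 5,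
        ¬ (r = 0 ∧ s = 0) ∧ (r : ZMod p) + α * (s : ZMod p) = 0 ∧
        140 * (|r| + |s|) ≤ 57 * p + 50 := by
  rcases hp with h | h | h | h
  · subst h; revert α; decide +kernel
  · subst h; revert α; decide +kernel
  · subst h; revert α; decide +kernel
  · subst h; revert α; decide +kernel

variable {p : ℕ} [Fact p.Prime]

/-- the zeros of the quadratic polynomial lie on two lines -/
def TwoLines (a b c d e g : ZMod p) : Prop :=
  ∃ u v w u' v' w' : ZMod p, ¬ (u = 0 ∧ v = 0) ∧ ¬ (u' = 0 ∧ v' = 0) ∧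
    ∀ x y : ZMod p, a * x ^ 2 + b * x * y + c * y ^ 2 + d * x + e * y + g = 0 →
      u * x + v * y + w = 0 ∨ u' * x + v' * y + w' = 0

theorem lines_a (hp2 : p ≠ 2) (a b c d e g : ZMod p) (ha : a ≠ 0)
    (hdet : 4 * a * c * g + b * d * e - a * e ^ 2 - c * d ^ 2 - g * b ^ 2 = 0) :
    TwoLines a b c d e g := by
  have h2 := two_ne (p := p) hp2
  have h2a : 2 * a ≠ 0 := mul_ne_zero h2 ha
  have hdisc : (b * d - 2 * a * e) ^ 2 - (b ^ 2 - 4 * a * c) * (d ^ 2 - 4 * a * g) = 0 := by
    linear_combination (-4 * a) * hdet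
  by_cases hD : b ^ 2 - 4 * a * c = 0
  · have hM : b * d - 2 * a * e = 0 := by
      have : (b * d - 2 * a * e) ^ 2 = 0 := by
        rw [hD] at hdisc
        linear_combination hdisc
      exact pow_eq_zero_iff (two_ne_zero) |>.1 this
    by_cases hN : IsSquare (d ^ 2 - 4 * a * g)
    · obtain ⟨ν, hν⟩ := hN
      refine ⟨2 * a, b, d - ν, 2 * a, b, d + ν, fun h => h2a h.1, fun h => h2a h.1, ?_⟩
      intro x y hxy
      have h0 : (2 * a * x + b * y + (d - ν)) * (2 * a * x + b * y + (d + ν)) = 0 := by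
        linear_combination 4 * a * hxy + y ^ 2 * hD + 2 * y * hM + hν
      exact mul_eq_zero.1 h0
    · refine ⟨2 * a, b, d, 2 * a, b, d, fun h => h2a h.1, fun h => h2a h.1, ?_⟩
      intro x y hxy
      exfalso
      apply hN
      refine ⟨2 * a * x + b * y + d, ?_⟩
      linear_combination (-4 * a) * hxy - y ^ 2 * hD - 2 * y * hM
  · by_cases hS : IsSquare (b ^ 2 - 4 * a * c)
    · obtain ⟨η, hη⟩ := hS
      have hη0 : η ≠ 0 := by
        intro h
        apply hD
        rw [hη, h, mul_zero]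
      refine ⟨η * (2 * a), η * b - (b ^ 2 - 4 * a * c), η * d - (b * d - 2 * a * e),
        η * (2 * a), η * b + (b ^ 2 - 4 * a * c), η * d + (b * d - 2 * a * e),
        fun h => mul_ne_zero hη0 h2a h.1, fun h => mul_ne_zero hη0 h2a h.1, ?_⟩
      intro x y hxy
      have h0 : (η * (2 * a) * x + (η * b - (b ^ 2 - 4 * a * c)) * y + (η * d - (b * d - 2 * a * e)))
          * (η * (2 * a) * x + (η * b + (b ^ 2 - 4 * a * c)) * y + (η * d + (b * d - 2 * a * e)))
          = 0 := by
        linear_combination 4 * a * (b ^ 2 - 4 * a * c) * hxy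
          - (2 * a * x + b * y + d) ^ 2 * hη - hdisc
      exact mul_eq_zero.1 h0
    · refine ⟨2 * a, b, d, 2 * a, b, d, fun h => h2a h.1, fun h => h2a h.1, ?_⟩
      intro x y hxy
      by_contra hcon
      push Not at hcon
      apply hS
      have hX := hcon.1
      refine ⟨((b ^ 2 - 4 * a * c) * y + (b * d - 2 * a * e)) / (2 * a * x + b * y + d), ?_⟩
      rw [div_mul_div_comm, eq_div_iff (mul_ne_zero hX hX)]
      linear_combination 4 * a * (b ^ 2 - 4 * a * c) * hxy - hdisc

theorem TwoLines.swap {a b c d e g : ZMod p} (h : TwoLines c b a e d g) : TwoLines a b c d e g := by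
  obtain ⟨u, v, w, u', v', w', h1, h2, h3⟩ := h
  refine ⟨v, u, w, v', u', w', fun h => h1 ⟨h.2, h.1⟩, fun h => h2 ⟨h.2, h.1⟩, ?_⟩
  intro x y hxy
  rcases h3 y x (by linear_combination hxy) with h | h
  · left; linear_combination h
  · right; linear_combination h

theorem lines_all (hp2 : p ≠ 2) (a b c d e g : ZMod p)
    (hne : ¬ (a = 0 ∧ b = 0 ∧ c = 0 ∧ d = 0 ∧ e = 0 ∧ g = 0))
    (hdet : 4 * a * c * g + b * d * e - a * e ^ 2 - c * d ^ 2 - g * b ^ 2 = 0) :
    TwoLines a b c d e g := by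
  by_cases ha : a = 0
  · by_cases hc : c = 0
    · subst ha
      subst hc
      by_cases hb : b = 0
      · subst hb
        by_cases hde : d = 0 ∧ e = 0
        · obtain ⟨rfl, rfl⟩ := hde
          refine ⟨1, 0, 0, 1, 0, 0, by simp, by simp, ?_⟩
          intro x y hxy
          exfalso
          apply hne
          refine ⟨rfl, rfl, rfl, rfl, rfl, ?_⟩
          linear_combination hxy
        · refine ⟨d, e, g, d, e, g, hde, hde, ?_⟩
          intro x y hxy
          left
          linear_combination hxy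
      · have hK : d * e - b * g = 0 := by
          have : b * (d * e - b * g) = 0 := by linear_combination hdet
          exact (mul_eq_zero.1 this).resolve_left hb
        refine ⟨b, 0, e, 0, b, d, fun h => hb h.1, fun h => hb h.2, ?_⟩
        intro x y hxy
        have h0 : (b * x + 0 * y + e) * (0 * x + b * y + d) = 0 := by
          linear_combination b * hxy + hK
        exact mul_eq_zero.1 h0
    · exact (lines_a hp2 c b a e d g hc (by linear_combination hdet)).swap
  · exact lines_a hp2 a b c d e g ha hdet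

/-- the number of points of one class in an interval -/
theorem class_interval (T : Finset ℤ) (lo L : ℤ) (hL : 0 ≤ L)
    (h1 : ∀ c ∈ T, lo ≤ c ∧ c ≤ lo + L) (h2 : ∀ c ∈ T, ∀ c' ∈ T, (p : ℤ) ∣ c - c') :
    (p : ℤ) * T.card ≤ L + p := by
  classical
  have hp : 0 < (p : ℤ) := by exact_mod_cast (Fact.out : p.Prime).pos
  have h3 : T.card ≤ (Finset.Icc (0 : ℤ) (L / p)).card := by
    refine Finset.card_le_card_of_injOn (fun c => (c - lo) / p) ?_ ?_
    · intro c hc
      have := h1 c (mem_coe.1 hc)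
      refine mem_coe.2 (mem_Icc.2 ⟨Int.ediv_nonneg (by linarith) hp.le, ?_⟩)
      exact Int.ediv_le_ediv hp (by linarith)
    · intro c hc c' hc' h
      obtain ⟨k, hk⟩ := h2 c (mem_coe.1 hc) c' (mem_coe.1 hc')
      have h4 : (c - lo) / p = (c' - lo) / p := h
      have h5 : c - lo = (c' - lo) + k * p := by linarith
      rw [h5, Int.add_mul_ediv_right _ _ hp.ne'] at h4
      have h6 : k = 0 := by omega
      rw [h6] at hk
      omega
  rw [Int.card_Icc] at h3
  have h4 : 0 ≤ L / p := Int.ediv_nonneg hL hp.le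
  have h5 : (T.card : ℤ) ≤ L / p + 1 := by omega
  have h6 : (p : ℤ) * (L / p) ≤ L := Int.mul_ediv_self_le hp.ne'
  nlinarith

theorem line_count (u v w : ZMod p) (huv : ¬ (u = 0 ∧ v = 0)) (r s : ℤ) (hrs : ¬ (r = 0 ∧ s = 0))
    (horth : u * (r : ZMod p) + v * (s : ZMod p) = 0)
    (n : ℕ) (hn : 1 ≤ n) (S : Finset (ℤ × ℤ)) (hbox : InBox n S) (hS : NoT S)
    (hl : ∀ P ∈ S, u * (P.1 : ZMod p) + v * (P.2 : ZMod p) + w = 0) :
    (p : ℤ) * S.card ≤ 2 * ((|r| + |s|) * ((n : ℤ) - 1) + p) := by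
  classical
  have hn' : (1 : ℤ) ≤ n := by exact_mod_cast hn
  have hp : 0 < (p : ℤ) := by exact_mod_cast (Fact.out : p.Prime).pos
  have h1 := card_le_two_mul S hS s (-r) (by
    rintro ⟨h, h'⟩
    exact hrs ⟨by omega, h⟩)
  have h2 := class_interval (p := p) (S.image (fun P => s * P.1 + -r * P.2))
    ((min 0 s + min 0 (-r)) * ((n : ℤ) - 1)) ((|r| + |s|) * ((n : ℤ) - 1))
    (mul_nonneg (by positivity) (by linarith)) (by
    intro c hc
    obtain ⟨P, hP, rfl⟩ := mem_image.1 hc
    have hbx := hbox P hP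
    have a1 : 0 ≤ P.1 := hbx.1
    have a2 : P.1 ≤ (n : ℤ) - 1 := by omega
    have a3 : 0 ≤ P.2 := hbx.2.2.1
    have a4 : P.2 ≤ (n : ℤ) - 1 := by omega
    have key : ∀ (t z : ℤ), 0 ≤ z → z ≤ (n : ℤ) - 1 →
        min 0 t * ((n : ℤ) - 1) ≤ t * z ∧ t * z ≤ min 0 t * ((n : ℤ) - 1) + |t| * ((n : ℤ) - 1) := by
      intro t z hz0 hz1
      rcases le_total 0 t with ht | ht
      · rw [min_eq_left ht, abs_of_nonneg ht]
        constructor
        · rw [zero_mul]; exact mul_nonneg ht hz0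
        · rw [zero_mul, zero_add]; exact mul_le_mul_of_nonneg_left hz1 ht
      · rw [min_eq_right ht, abs_of_nonpos ht]
        constructor
        · nlinarith
        · nlinarith
    have k1 := key s P.1 a1 a2
    have k2 := key (-r) P.2 a3 a4
    rw [abs_neg] at k2
    constructor <;> nlinarith [k1.1, k1.2, k2.1, k2.2]) (by
    intro c hc c' hc'
    obtain ⟨P, hP, rfl⟩ := mem_image.1 hc
    obtain ⟨Q, hQ, rfl⟩ := mem_image.1 hc'
    rw [← ZMod.intCast_zmod_eq_zero_iff_dvd]
    push_cast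
    have e1 := hl P hP
    have e2 := hl Q hQ
    have e3 : u * ((s : ZMod p) * (P.1 : ZMod p) + -(r : ZMod p) * (P.2 : ZMod p)
        - ((s : ZMod p) * (Q.1 : ZMod p) + -(r : ZMod p) * (Q.2 : ZMod p))) = 0 := by
      linear_combination (s : ZMod p) * e1 - (s : ZMod p) * e2
        - ((P.2 : ZMod p) - (Q.2 : ZMod p)) * horth
    have e4 : v * ((s : ZMod p) * (P.1 : ZMod p) + -(r : ZMod p) * (P.2 : ZMod p)
        - ((s : ZMod p) * (Q.1 : ZMod p) + -(r : ZMod p) * (Q.2 : ZMod p))) = 0 := by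
      linear_combination (-(r : ZMod p)) * e1 + (r : ZMod p) * e2
        + ((P.1 : ZMod p) - (Q.1 : ZMod p)) * horth
    rcases mul_eq_zero.1 e3 with h | h
    · rcases mul_eq_zero.1 e4 with h' | h'
      · exact absurd ⟨h, h'⟩ huv
      · exact h'
    · exact h)
  have h3 : (S.card : ℤ) ≤ 2 * ((S.image (fun P => s * P.1 + -r * P.2)).card : ℤ) := by
    exact_mod_cast h1
  nlinarith [mul_le_mul_of_nonneg_left h3 hp.le]

/-- a short vector on the line `r + α s = 0` -/
theorem short_slope (hp7 : 7 ≤ p) (α : ZMod p) :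
    ∃ r s : ℤ, ¬ (r = 0 ∧ s = 0) ∧ (r : ZMod p) + α * (s : ZMod p) = 0 ∧
      140 * (|r| + |s|) ≤ 57 * p + 50 := by
  classical
  have hpp : p.Prime := Fact.out
  by_cases hp19 : 19 ≤ p
  · -- pigeonhole
    set k := Nat.sqrt p + 1 with hk
    have hk1 : p < k * k := Nat.lt_succ_sqrt p
    have hk2 : (k - 1) * (k - 1) ≤ p := Nat.sqrt_le p
    have hcard : (univ : Finset (ZMod p)).card < ((range k) ×ˢ (range k)).card := by
      rw [Finset.card_product, Finset.card_range, Finset.card_univ, ZMod.card]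
      exact hk1
    obtain ⟨P, hP, Q, hQ, hPQ, hf⟩ := Finset.exists_ne_map_eq_of_card_lt_of_maps_to hcard
      (f := fun P : ℕ × ℕ => ((P.1 : ZMod p) + α * (P.2 : ZMod p))) (fun _ _ => mem_univ _)
    rw [mem_product, mem_range, mem_range] at hP hQ
    refine ⟨(P.1 : ℤ) - Q.1, (P.2 : ℤ) - Q.2, ?_, ?_, ?_⟩
    · rintro ⟨h1, h2⟩
      exact hPQ (Prod.ext (by omega) (by omega))
    · push_cast
      have hf' : (P.1 : ZMod p) + α * (P.2 : ZMod p) = (Q.1 : ZMod p) + α * (Q.2 : ZMod p) := hf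
      linear_combination hf'
    · have h1 : |(P.1 : ℤ) - Q.1| ≤ (k : ℤ) - 1 := by rw [abs_le]; omega
      have h2 : |(P.2 : ℤ) - Q.2| ≤ (k : ℤ) - 1 := by rw [abs_le]; omega
      have h3 : ((k : ℤ) - 1) * (k - 1) ≤ p := by
        have h4 : (((k - 1) * (k - 1) : ℕ) : ℤ) ≤ p := by exact_mod_cast hk2
        rw [Nat.cast_mul, Nat.cast_sub (by omega)] at h4
        exact h4
      have h5 : (19 : ℤ) ≤ p := by exact_mod_cast hp19
      have h6 : 5 ≤ k := by
        have : Nat.sqrt 19 ≤ Nat.sqrt p := Nat.sqrt_le_sqrt hp19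
        have h7 : Nat.sqrt 19 = 4 := by decide +kernel
        omega
      have h6' : (5 : ℤ) ≤ k := by exact_mod_cast h6
      have h8 : 280 * ((k : ℤ) - 1) ≤ 57 * p + 50 := by
        rcases Nat.lt_or_ge k 6 with h | h
        · have : k = 5 := by omega
          rw [this]
          push_cast
          linarith
        · have : (6 : ℤ) ≤ k := by exact_mod_cast h
          nlinarith
      linarith
  · -- small primes
    have h18 : p ≤ 18 := by omega
    have hcases : p = 7 ∨ p = 11 ∨ p = 13 ∨ p = 17 := by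
      interval_cases p <;> first | (revert hpp; decide) | simp
    have main := small_primes p hcases α
    obtain ⟨r, _, s, _, h1, h2, h3⟩ := main
    exact ⟨r, s, h1, h2, h3⟩

theorem short_vector (hp7 : 7 ≤ p) (u v : ZMod p) :
    ∃ r s : ℤ, ¬ (r = 0 ∧ s = 0) ∧ u * (r : ZMod p) + v * (s : ZMod p) = 0 ∧
      140 * (|r| + |s|) ≤ 57 * p + 50 := by
  by_cases hu : u = 0
  · refine ⟨1, 0, by omega, by rw [hu]; simp, ?_⟩
    have : (7 : ℤ) ≤ p := by exact_mod_cast hp7
    simp only [abs_one, abs_zero]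
    linarith
  · obtain ⟨r, s, h1, h2, h3⟩ := short_slope hp7 (v / u)
    refine ⟨r, s, h1, ?_, h3⟩
    have h4 : u * ((r : ZMod p) + v / u * (s : ZMod p)) = 0 := by rw [h2, mul_zero]
    have h5 : u * (v / u) = v := by field_simp
    linear_combination h4 - (s : ZMod p) * h5

/-- the degenerate case -/
theorem deg_case (hp7 : 7 ≤ p) (a b c d e g : ZMod p)
    (hne : ¬ (a = 0 ∧ b = 0 ∧ c = 0 ∧ d = 0 ∧ e = 0 ∧ g = 0))
    (hdet : 4 * a * c * g + b * d * e - a * e ^ 2 - c * d ^ 2 - g * b ^ 2 = 0)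
    (n : ℕ) (hn : 140 ≤ n) (S : Finset (ℤ × ℤ)) (hbox : InBox n S) (hS : NoT S)
    (hc : OnConic a b c d e g S) :
    35 * (p : ℤ) * S.card ≤ (58 * p + 50) * n := by
  classical
  obtain ⟨u, v, w, u', v', w', h1, h2, h3⟩ := lines_all (by omega) a b c d e g hne hdet
  obtain ⟨r, s, i1, i2, i3⟩ := short_vector hp7 u v
  obtain ⟨r', s', j1, j2, j3⟩ := short_vector hp7 u' v'
  set S1 := S.filter (fun P => u * (P.1 : ZMod p) + v * (P.2 : ZMod p) + w = 0) with hS1
  set S2 := S.filter (fun P => ¬ (u * (P.1 : ZMod p) + v * (P.2 : ZMod p) + w = 0)) with hS2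
  have k1 := line_count u v w h1 r s i1 i2 n (by omega) S1
    (fun P hP => hbox P (mem_filter.1 hP).1) (hS.mono (filter_subset _ _))
    (fun P hP => (mem_filter.1 hP).2)
  have k2 := line_count u' v' w' h2 r' s' j1 j2 n (by omega) S2
    (fun P hP => hbox P (mem_filter.1 hP).1) (hS.mono (filter_subset _ _))
    (fun P hP => by
      obtain ⟨hP1, hP2⟩ := mem_filter.1 hP
      exact (h3 _ _ (hc P hP1)).resolve_left hP2)
  have hsum : S1.card + S2.card = S.card := Finset.card_filter_add_card_filter_not _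
  have hsum' : (S.card : ℤ) = S1.card + S2.card := by rw [← hsum]; push_cast; ring
  have hn' : (140 : ℤ) ≤ n := by exact_mod_cast hn
  have hp : 0 < (p : ℤ) := by exact_mod_cast (Fact.out : p.Prime).pos
  have m1 := mul_le_mul_of_nonneg_right i3 (show (0 : ℤ) ≤ n - 1 by linarith)
  have m2 := mul_le_mul_of_nonneg_right j3 (show (0 : ℤ) ≤ n - 1 by linarith)
  have m3 : 140 * (p : ℤ) ≤ p * n := by nlinarith
  rw [hsum']
  nlinarith [k1, k2, m1, m2, m3]

end Pool.Agent.Helper83.MC
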