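import Mathlib
import Pool.Agent.Helper83.MCg
import Pool.Agent.Helper83.MCh

set_option autoImplicit false

/-!
The constant 3/2 for conics which are not hyperbolas with axis-parallel asymptotes.
-/

namespace Pool.Agent.Helper83.MC

open Finset

variable {p : ℕ} [Fact p.Prime]

theorem three_halves_big (hp5 : 5 ≤ p) (a b c d e g : ZMod p) (hac : a ≠ 0 ∨ c ≠ 0)
    (hdet : 4 * a * c * g + b * d * e - a * e ^ 2 - c * d ^ 2 - g * b ^ 2 ≠ 0)
    (n : ℕ) (hpn : p ≤ n) (S : Finset (ℤ × ℤ)) (hbox : InBox n S) (hS : NoT S)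
    (hc : OnConic a b c d e g S) :
    2 * (p : ℤ) * S.card ≤ (3 * p + 3) * n := by
  have h1 := gen_case hp5 a b c d e g hac hdet n S hbox hS hc
  have hp1 : 0 < p := (Fact.out : p.Prime).pos
  have hp : 5 ≤ (p : ℤ) := by exact_mod_cast hp5
  have hq1 : 1 ≤ n / p := (Nat.one_le_div_iff hp1).2 hpn
  have hqu : n < (n / p + 1) * p := (Nat.div_lt_iff_lt_mul hp1).1 (Nat.lt_succ_self _)
  generalize n / p = q at h1 hq1 hqu
  have hqu' : (n : ℤ) < (q + 1) * p := by exact_mod_cast hqu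
  have hq1' : (1 : ℤ) ≤ q := by exact_mod_cast hq1
  have h2 : (n : ℤ) ≤ 2 * (q * p) := by nlinarith
  have h3 : 2 * (p : ℤ) * S.card ≤ 2 * p * (2 * n - (p - 3) * q) :=
    mul_le_mul_of_nonneg_left (by linarith) (by positivity)
  have h4 : ((p : ℤ) - 3) * n ≤ (p - 3) * (2 * (q * p)) :=
    mul_le_mul_of_nonneg_left h2 (by linarith)
  nlinarith

theorem three_halves_small (hp2 : p ≠ 2) (a b c d e g : ZMod p)
    (hdet : 4 * a * c * g + b * d * e - a * e ^ 2 - c * d ^ 2 - g * b ^ 2 ≠ 0)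
    (n : ℕ) (hn : n ≤ p) (hn' : 20000 ≤ n) (S : Finset (ℤ × ℤ)) (hbox : InBox n S) (hS : NoT S)
    (hc : OnConic a b c d e g S) :
    2 * S.card ≤ 3 * n := by
  set m := n / 20 with hm
  have hm1 : 20 * m ≤ n := by omega
  have hm2 : n < 20 * m + 20 := by omega
  have hm3 : 1000 ≤ m := by omega
  have hzero : ∀ u : ℤ, |u| < m → (u : ZMod p) = 0 → u = 0 := by
    intro u hu h0
    rw [ZMod.intCast_zmod_eq_zero_iff_dvd] at h0
    refine Int.eq_zero_of_abs_lt_dvd h0 ?_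
    have : (m : ℤ) ≤ p := by
      have : m ≤ p := by omega
      exact_mod_cast this
    linarith
  have h1 := energy n m S hbox (by
    intro u v huv hu hv
    refine diff_card hp2 a b c d e g hdet n hn S hbox hc u v ?_
    rintro ⟨h0, h1⟩
    exact huv ⟨hzero u hu h0, hzero v hv h1⟩)
  have h2 := rows_two n S hbox hS
  generalize S.card = s at h1 h2 ⊢
  have hM : 0 < m ^ 2 := by positivity
  have h3 : m ^ 2 * s ^ 2 ≤ (n + m) ^ 2 * (s + 2 * m ^ 2) := by
    have : m ^ 2 * (m ^ 2 * s ^ 2) ≤ m ^ 2 * ((n + m) ^ 2 * (s + 2 * m ^ 2)) := by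
      calc m ^ 2 * (m ^ 2 * s ^ 2) = (m ^ 2 * s) ^ 2 := by ring
        _ ≤ (n + m) ^ 2 * (m ^ 2 * s + 2 * m ^ 4) := h1
        _ = m ^ 2 * ((n + m) ^ 2 * (s + 2 * m ^ 2)) := by ring
    exact Nat.le_of_mul_le_mul_left this hM
  have h4 : 10000 * (s + 2 * m ^ 2) ≤ 20401 * m ^ 2 := by nlinarith
  have h5 : 400 * (n + m) ^ 2 ≤ 441 * n ^ 2 := by
    have : 20 * (n + m) ≤ 21 * n := by omega
    have := Nat.pow_le_pow_left this 2
    nlinarith
  have h6 : m ^ 2 * (4000000 * s ^ 2) ≤ m ^ 2 * (9000000 * n ^ 2) := by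
    calc m ^ 2 * (4000000 * s ^ 2) = 4000000 * (m ^ 2 * s ^ 2) := by ring
      _ ≤ 4000000 * ((n + m) ^ 2 * (s + 2 * m ^ 2)) := Nat.mul_le_mul_left _ h3
      _ = (400 * (n + m) ^ 2) * (10000 * (s + 2 * m ^ 2)) := by ring
      _ ≤ (441 * n ^ 2) * (20401 * m ^ 2) := Nat.mul_le_mul h5 h4
      _ = m ^ 2 * (8996841 * n ^ 2) := by ring
      _ ≤ m ^ 2 * (9000000 * n ^ 2) := by gcongr; norm_num
  have h7 := Nat.le_of_mul_le_mul_left h6 hM
  by_contra hcon
  push Not at hcon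
  have h8 : (3 * n + 1) ^ 2 ≤ (2 * s) ^ 2 := Nat.pow_le_pow_left (by omega) 2
  nlinarith

/-- all sizes at least `20000` -/
theorem three_halves (hp5 : 5 ≤ p) (a b c d e g : ZMod p) (hac : a ≠ 0 ∨ c ≠ 0)
    (hdet : 4 * a * c * g + b * d * e - a * e ^ 2 - c * d ^ 2 - g * b ^ 2 ≠ 0)
    (n : ℕ) (hn : 20000 ≤ n) (S : Finset (ℤ × ℤ)) (hbox : InBox n S) (hS : NoT S)
    (hc : OnConic a b c d e g S) :
    2 * (p : ℤ) * S.card ≤ (3 * p + 3) * n := by
  rcases Nat.lt_or_ge n p with h | h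
  · have h1 := three_halves_small (by omega) a b c d e g hdet n h.le hn S hbox hS hc
    have h2 : 2 * (S.card : ℤ) ≤ 3 * n := by exact_mod_cast h1
    have hp : 0 < (p : ℤ) := by exact_mod_cast (Fact.out : p.Prime).pos
    have hn0 : 0 ≤ (n : ℤ) := by positivity
    nlinarith
  · exact three_halves_big hp5 a b c d e g hac hdet n h S hbox hS hc

/-- the general bound -/
theorem general (hp7 : 7 ≤ p) (a b c d e g : ZMod p)
    (hne : ¬ (a = 0 ∧ b = 0 ∧ c = 0 ∧ d = 0 ∧ e = 0 ∧ g = 0))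
    (n : ℕ) (hn : 1000 ≤ n) (S : Finset (ℤ × ℤ)) (hbox : InBox n S) (hS : NoT S)
    (hc : OnConic a b c d e g S) :
    35 * (p : ℤ) * S.card ≤ (58 * p + 50) * n := by
  by_cases hdet : 4 * a * c * g + b * d * e - a * e ^ 2 - c * d ^ 2 - g * b ^ 2 = 0
  · exact deg_case hp7 a b c d e g hne hdet n (by omega) S hbox hS hc
  · rcases Nat.lt_or_ge n p with h | h
    · have h1 := small_box (by omega) a b c d e g hdet n h.le hn S hbox hS hc
      have h2 : 100 * (S.card : ℤ) ≤ 164 * n := by exact_mod_cast h1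
      have hp : 0 < (p : ℤ) := by exact_mod_cast (Fact.out : p.Prime).pos
      have hn0 : 0 ≤ (n : ℤ) := by positivity
      nlinarith [mul_le_mul_of_nonneg_left h2 hp.le, mul_nonneg hp.le hn0]
    · exact big_box (by omega) a b c d e g hdet n h S hbox hS hc

end Pool.Agent.Helper83.MC
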