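import Mathlib
import Pool.Agent.Helper83.MCg

set_option autoImplicit false

/-!
Boxes of at most two periods: the bound `2 n - p + 3` for hyperbolas with axis-parallel asymptotes.
-/

namespace Pool.Agent.Helper83.MC

open Finset

variable {p : ℕ} [Fact p.Prime]

/-- residue points of the hyperbola -/
def Hyp (b d e g : ZMod p) : Finset (ZMod p × ZMod p) :=
  (univ : Finset (ZMod p × ZMod p)).filter
    (fun r => b * r.1 * r.2 + d * r.1 + e * r.2 + g = 0)

theorem mem_Hyp {b d e g : ZMod p} {r : ZMod p × ZMod p} :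
    r ∈ Hyp b d e g ↔ b * r.1 * r.2 + d * r.1 + e * r.2 + g = 0 := by
  unfold Hyp
  simp

theorem Hyp_x_inj {b d e g : ZMod p} (hb : b ≠ 0) (hK : d * e - b * g ≠ 0)
    {r s : ZMod p × ZMod p} (hr : r ∈ Hyp b d e g) (hs : s ∈ Hyp b d e g) (h : r.1 = s.1) :
    r = s := by
  rw [mem_Hyp] at hr hs
  refine Prod.ext h ?_
  refine hyp_y_eq b d e g hb hK r.1 r.2 s.2 (by linear_combination hr) ?_
  rw [h]
  linear_combination hs

theorem Hyp_y_inj {b d e g : ZMod p} (hb : b ≠ 0) (hK : d * e - b * g ≠ 0)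
    {r s : ZMod p × ZMod p} (hr : r ∈ Hyp b d e g) (hs : s ∈ Hyp b d e g) (h : r.2 = s.2) :
    r = s := by
  rw [mem_Hyp] at hr hs
  refine Prod.ext ?_ h
  refine hyp_x_eq b d e g hb hK r.1 s.1 r.2 (by linear_combination hr) ?_
  rw [h]
  linear_combination hs

theorem Hyp_card {b d e g : ZMod p} (hb : b ≠ 0) (hK : d * e - b * g ≠ 0) :
    (Hyp b d e g).card + 1 ≤ p := by
  classical
  have h1 : (Hyp b d e g).card ≤ ((univ : Finset (ZMod p)).erase (-e / b)).card := by
    refine Finset.card_le_card_of_injOn (fun r => r.1) ?_ ?_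
    · intro r hr
      refine mem_coe.2 (mem_erase.2 ⟨?_, mem_univ _⟩)
      intro h
      have h0 := mem_Hyp.1 (mem_coe.1 hr)
      have h1 := (hyp_ne b d e g hb hK r.1 r.2 (by linear_combination h0)).1
      apply h1
      have h' : r.1 = -e / b := h
      rw [h']
      field_simp
      ring
    · intro r hr s hs h
      exact Hyp_x_inj hb hK (mem_coe.1 hr) (mem_coe.1 hs) h
  rw [Finset.card_erase_of_mem (mem_univ _), Finset.card_univ, ZMod.card] at h1
  have := (Fact.out : p.Prime).pos
  omega

theorem Hyp_card_x {b d e g : ZMod p} (hb : b ≠ 0) (hK : d * e - b * g ≠ 0) (h : ℕ) :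
    ((Hyp b d e g).filter (fun r => r.1.val < h)).card ≤ h := by
  classical
  have h1 : ((Hyp b d e g).filter (fun r => r.1.val < h)).card ≤ (range h).card := by
    refine Finset.card_le_card_of_injOn (fun r => r.1.val) ?_ ?_
    · intro r hr
      exact mem_coe.2 (mem_range.2 (mem_filter.1 (mem_coe.1 hr)).2)
    · intro r hr s hs hrs
      exact Hyp_x_inj hb hK (mem_filter.1 (mem_coe.1 hr)).1 (mem_filter.1 (mem_coe.1 hs)).1
        (ZMod.val_injective p hrs)
  rwa [Finset.card_range] at h1

theorem Hyp_card_y {b d e g : ZMod p} (hb : b ≠ 0) (hK : d * e - b * g ≠ 0) (h : ℕ) :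
    ((Hyp b d e g).filter (fun r => r.2.val < h)).card ≤ h := by
  classical
  have h1 : ((Hyp b d e g).filter (fun r => r.2.val < h)).card ≤ (range h).card := by
    refine Finset.card_le_card_of_injOn (fun r => r.2.val) ?_ ?_
    · intro r hr
      exact mem_coe.2 (mem_range.2 (mem_filter.1 (mem_coe.1 hr)).2)
    · intro r hr s hs hrs
      exact Hyp_y_inj hb hK (mem_filter.1 (mem_coe.1 hr)).1 (mem_filter.1 (mem_coe.1 hs)).1
        (ZMod.val_injective p hrs)
  rwa [Finset.card_range] at h1

/-- the discriminant of the diagonal class `γ` -/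
def dsc (b d e g : ZMod p) (γ : ZMod p) : ZMod p :=
  (b * γ + d + e) ^ 2 - 4 * b * (e * γ + g)

/-- two residue points in every class with square discriminant, one if it vanishes -/
theorem class_two (hp2 : p ≠ 2) {b d e g : ZMod p} (hb : b ≠ 0) (γ : ZMod p)
    (hsq : IsSquare (dsc b d e g γ)) :
    2 ≤ ((Hyp b d e g).filter (fun r => r.2 - r.1 = γ)).card + (if dsc b d e g γ = 0 then 1 else 0) := by
  classical
  have h2 := two_ne (p := p) hp2
  have h2b : 2 * b ≠ 0 := mul_ne_zero h2 hb
  obtain ⟨r, hr⟩ := hsq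
  have hr' : r * r = (b * γ + d + e) ^ 2 - 4 * b * (e * γ + g) := by rw [← hr]; rfl
  have key : ∀ ε : ZMod p, ε * ε = 1 →
      ((-(b * γ + d + e) + ε * r) / (2 * b), (-(b * γ + d + e) + ε * r) / (2 * b) + γ) ∈
        (Hyp b d e g).filter (fun r => r.2 - r.1 = γ) := by
    intro ε hε
    rw [mem_filter, mem_Hyp]
    refine ⟨?_, by ring⟩
    set X := (-(b * γ + d + e) + ε * r) / (2 * b) with hX
    have hX2 : 2 * b * X = -(b * γ + d + e) + ε * r := by rw [hX]; field_simp
    have h4 : 4 * b * (b * X * (X + γ) + d * X + e * (X + γ) + g) = 0 := by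
      have h5 : (2 * b * X + (b * γ + d + e)) ^ 2 = r * r := by
        rw [hX2]
        linear_combination r * r * hε
      linear_combination h5 + hr'
    have h4b : 4 * b ≠ 0 := by
      have : 4 * b = 2 * (2 * b) := by ring
      rw [this]
      exact mul_ne_zero h2 h2b
    exact (mul_eq_zero.1 h4).resolve_left h4b
  by_cases h0 : dsc b d e g γ = 0
  · rw [if_pos h0]
    have := Finset.card_pos.2 ⟨_, key 1 (by ring)⟩
    omega
  · rw [if_neg h0]
    have hr0 : r ≠ 0 := by
      intro h
      apply h0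
      rw [hr, h, mul_zero]
    have h3 := key 1 (by ring)
    have h4 := key (-1) (by ring)
    have : 1 < ((Hyp b d e g).filter (fun r => r.2 - r.1 = γ)).card := by
      refine Finset.one_lt_card.2 ⟨_, h3, _, h4, ?_⟩
      intro h
      have h5 := congrArg Prod.fst h
      simp only at h5
      rw [div_left_inj' h2b] at h5
      have h6 : 2 * r = 0 := by linear_combination h5
      rcases mul_eq_zero.1 h6 with h7 | h7
      · exact h2 h7
      · exact hr0 h7
    omega

/-- at most two classes with vanishing discriminant -/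
theorem dsc_zero {b d e g : ZMod p} (hb : b ≠ 0) :
    ((univ : Finset (ZMod p)).filter (fun γ => dsc b d e g γ = 0)).card ≤ 2 := by
  classical
  by_contra hcon
  push Not at hcon
  obtain ⟨x, hx, y, hy, z, hz, hxy, hxz, hyz⟩ := Finset.two_lt_card.1 hcon
  rw [mem_filter] at hx hy hz
  unfold dsc at hx hy hz
  have e1 : (y - x) * (b * (b * (x + y) + 2 * (d + e) - 4 * e)) = 0 := by
    linear_combination hy.2 - hx.2
  have e2 : (z - x) * (b * (b * (x + z) + 2 * (d + e) - 4 * e)) = 0 := by
    linear_combination hz.2 - hx.2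
  have f1 := (mul_eq_zero.1 ((mul_eq_zero.1 e1).resolve_left (sub_ne_zero.2 hxy.symm))).resolve_left hb
  have f2 := (mul_eq_zero.1 ((mul_eq_zero.1 e2).resolve_left (sub_ne_zero.2 hxz.symm))).resolve_left hb
  have f3 : b * (y - z) = 0 := by linear_combination f1 - f2
  exact hyz (sub_eq_zero.1 ((mul_eq_zero.1 f3).resolve_left hb))

/-- number of lines in the strip whose class has vanishing discriminant -/
theorem strip_zero {b d e g : ZMod p} (hb : b ≠ 0) (h : ℤ) (hh : h ≤ p) :
    ((Finset.Ioo (-h) h).filter (fun c : ℤ => dsc b d e g (c : ZMod p) = 0)).card ≤ 4 := by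
  classical
  have h0 := dsc_zero (d := d) (e := e) (g := g) hb
  have hinj : ∀ c c' : ℤ, (c : ZMod p) = (c' : ZMod p) → |c - c'| < p → c = c' := by
    intro c c' h1 h2
    obtain ⟨k, hk⟩ := cast_eq_dvd c c' h1
    have hp : 0 < (p : ℤ) := by exact_mod_cast (Fact.out : p.Prime).pos
    rw [abs_lt] at h2
    have hk0 : k = 0 := by
      by_contra hne
      rcases lt_or_gt_of_ne hne with h | h
      · have : (p : ℤ) * k ≤ -p := by nlinarith
        omega
      · have : (p : ℤ) ≤ p * k := by nlinarith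
        omega
    rw [hk0] at hk
    omega
  have hpos : (((Finset.Ioo (-h) h).filter (fun c : ℤ => dsc b d e g (c : ZMod p) = 0)).filter
      (fun c => 0 ≤ c)).card ≤ 2 := by
    refine le_trans (Finset.card_le_card_of_injOn (fun c : ℤ => (c : ZMod p)) ?_ ?_) h0
    · intro c hc
      have hc' := mem_filter.1 (mem_filter.1 (mem_coe.1 hc)).1
      exact mem_coe.2 (mem_filter.2 ⟨mem_univ _, hc'.2⟩)
    · intro c hc c' hc' hcc
      have a1 := mem_filter.1 (mem_coe.1 hc)
      have a2 := mem_filter.1 (mem_coe.1 hc')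
      have b1 := mem_Ioo.1 (mem_filter.1 a1.1).1
      have b2 := mem_Ioo.1 (mem_filter.1 a2.1).1
      refine hinj c c' hcc ?_
      rw [abs_lt]
      omega
  have hneg : (((Finset.Ioo (-h) h).filter (fun c : ℤ => dsc b d e g (c : ZMod p) = 0)).filter
      (fun c => ¬ 0 ≤ c)).card ≤ 2 := by
    refine le_trans (Finset.card_le_card_of_injOn (fun c : ℤ => (c : ZMod p)) ?_ ?_) h0
    · intro c hc
      have hc' := mem_filter.1 (mem_filter.1 (mem_coe.1 hc)).1
      exact mem_coe.2 (mem_filter.2 ⟨mem_univ _, hc'.2⟩)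
    · intro c hc c' hc' hcc
      have a1 := mem_filter.1 (mem_coe.1 hc)
      have a2 := mem_filter.1 (mem_coe.1 hc')
      have b1 := mem_Ioo.1 (mem_filter.1 a1.1).1
      have b2 := mem_Ioo.1 (mem_filter.1 a2.1).1
      refine hinj c c' hcc ?_
      rw [abs_lt]
      omega
  have := Finset.card_filter_add_card_filter_not
    (s := (Finset.Ioo (-h) h).filter (fun c : ℤ => dsc b d e g (c : ZMod p) = 0))
    (fun c : ℤ => 0 ≤ c)
  omega

end Pool.Agent.Helper83.MC
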