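import Mathlib
import Pool.Agent.Helper83.MCj

set_option autoImplicit false

/-!
Boxes of at most two periods: assembly.
-/

namespace Pool.Agent.Helper83.MC

open Finset

variable {p : ℕ} [Fact p.Prime]

theorem cast_val_dvd (a : ℤ) (r : ZMod p) (h : (a : ZMod p) = r) : ∃ k : ℤ, a = r.val + p * k := by
  have h1 : (((r.val : ℤ)) : ZMod p) = (a : ZMod p) := by
    rw [h]
    simp
  obtain ⟨k, hk⟩ := cast_eq_dvd (r.val : ℤ) a h1
  exact ⟨k, hk⟩

theorem out_card (n : ℕ) (hn2 : n ≤ 2 * p) (S : Finset (ℤ × ℤ))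
    (hbox : InBox n S) (h : ℤ) (r : ZMod p × ZMod p) :
    ((S.filter (fun P => ¬ (-h < P.2 - P.1 ∧ P.2 - P.1 < h))).filter
      (fun P => ((P.1 : ZMod p), (P.2 : ZMod p)) = r)).card
      ≤ ∑ i ∈ range 2, ∑ j ∈ range 2,
        (if ((r.1.val : ℤ) + p * i < n ∧ (r.2.val : ℤ) + p * j < n ∧
          ¬ (-h < ((r.2.val : ℤ) + p * j) - ((r.1.val : ℤ) + p * i) ∧
            ((r.2.val : ℤ) + p * j) - ((r.1.val : ℤ) + p * i) < h)) then 1 else 0) := by
  classical
  have hp : 0 < (p : ℤ) := by exact_mod_cast (Fact.out : p.Prime).pos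
  have hn2' : (n : ℤ) ≤ 2 * p := by exact_mod_cast hn2
  rw [← Finset.sum_product' (range 2) (range 2) (fun i j : ℕ =>
    (if ((r.1.val : ℤ) + p * i < n ∧ (r.2.val : ℤ) + p * j < n ∧
          ¬ (-h < ((r.2.val : ℤ) + p * j) - ((r.1.val : ℤ) + p * i) ∧
            ((r.2.val : ℤ) + p * j) - ((r.1.val : ℤ) + p * i) < h)) then 1 else 0)),
    ← Finset.card_filter]
  have hx0 : (r.1.val : ℤ) < p := by exact_mod_cast ZMod.val_lt r.1
  have hy0 : (r.2.val : ℤ) < p := by exact_mod_cast ZMod.val_lt r.2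
  have hx1 : (0 : ℤ) ≤ (r.1.val : ℤ) := by positivity
  have hy1 : (0 : ℤ) ≤ (r.2.val : ℤ) := by positivity
  have main : ∀ P ∈ ((S.filter (fun P => ¬ (-h < P.2 - P.1 ∧ P.2 - P.1 < h))).filter
      (fun P => ((P.1 : ZMod p), (P.2 : ZMod p)) = r)), ∃ i j : ℕ, i < 2 ∧ j < 2 ∧
      P.1 = r.1.val + p * i ∧ P.2 = r.2.val + p * j ∧ ((P.1 - r.1.val) / p).toNat = i ∧
      ((P.2 - r.2.val) / p).toNat = j := by
    intro P hP
    obtain ⟨hP1, hP2⟩ := mem_filter.1 hP
    obtain ⟨hP3, hP4⟩ := mem_filter.1 hP1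
    have hbx := hbox P hP3
    have ex : ((P.1 : ℤ) : ZMod p) = r.1 := congrArg Prod.fst hP2
    have ey : ((P.2 : ℤ) : ZMod p) = r.2 := congrArg Prod.snd hP2
    obtain ⟨k, hk⟩ := cast_val_dvd P.1 r.1 ex
    obtain ⟨l, hl⟩ := cast_val_dvd P.2 r.2 ey
    have hk1 : 0 ≤ k ∧ k ≤ 1 := by
      constructor
      · by_contra hh
        push Not at hh
        have : (p : ℤ) * k ≤ -p := by nlinarith
        omega
      · by_contra hh
        push Not at hh
        have : 2 * (p : ℤ) ≤ p * k := by nlinarith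
        omega
    have hl1 : 0 ≤ l ∧ l ≤ 1 := by
      constructor
      · by_contra hh
        push Not at hh
        have : (p : ℤ) * l ≤ -p := by nlinarith
        omega
      · by_contra hh
        push Not at hh
        have : 2 * (p : ℤ) ≤ p * l := by nlinarith
        omega
    have dk : (P.1 - r.1.val) / p = k := by
      have : P.1 - r.1.val = p * k := by linarith
      rw [this]; exact Int.mul_ediv_cancel_left _ hp.ne'
    have dl : (P.2 - r.2.val) / p = l := by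
      have : P.2 - r.2.val = p * l := by linarith
      rw [this]; exact Int.mul_ediv_cancel_left _ hp.ne'
    refine ⟨k.toNat, l.toNat, by omega, by omega, ?_, ?_, by rw [dk], by rw [dl]⟩
    · rw [Int.toNat_of_nonneg hk1.1]; exact hk
    · rw [Int.toNat_of_nonneg hl1.1]; exact hl
  refine Finset.card_le_card_of_injOn
    (fun P => (((P.1 - r.1.val) / p).toNat, ((P.2 - r.2.val) / p).toNat)) ?_ ?_
  · intro P hP
    obtain ⟨i, j, hi, hj, e1, e2, e3, e4⟩ := main P (mem_coe.1 hP)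
    obtain ⟨hP1, hP2⟩ := mem_filter.1 (mem_coe.1 hP)
    obtain ⟨hP3, hP4⟩ := mem_filter.1 hP1
    have hbx := hbox P hP3
    refine mem_coe.2 (mem_filter.2 ?_)
    simp only [e3, e4]
    refine ⟨mem_product.2 ⟨mem_range.2 hi, mem_range.2 hj⟩, ?_, ?_, ?_⟩
    · rw [← e1]; exact hbx.2.1
    · rw [← e2]; exact hbx.2.2.2
    · rw [← e1, ← e2]; exact hP4
  · intro P hP Q hQ hPQ
    obtain ⟨i, j, hi, hj, e1, e2, e3, e4⟩ := main P (mem_coe.1 hP)
    obtain ⟨i', j', hi', hj', e1', e2', e3', e4'⟩ := main Q (mem_coe.1 hQ)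
    simp only [e3, e4, e3', e4', Prod.mk.injEq] at hPQ
    obtain ⟨rfl, rfl⟩ := hPQ
    exact Prod.ext (by rw [e1, e1']) (by rw [e2, e2'])

theorem in_card (h : ℤ) (hh : h ≤ p) (r : ZMod p × ZMod p) :
    ((Finset.Ioo (-h) h).filter (fun c : ℤ => (c : ZMod p) = r.2 - r.1)).card
      ≤ ∑ k ∈ range 3,
        (if (-h < ((r.2.val : ℤ) - r.1.val) + p * ((k : ℤ) - 1) ∧
            ((r.2.val : ℤ) - r.1.val) + p * ((k : ℤ) - 1) < h) then 1 else 0) := by
  classical
  have hp : 0 < (p : ℤ) := by exact_mod_cast (Fact.out : p.Prime).pos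
  rw [← Finset.card_filter]
  have hx0 : (r.1.val : ℤ) < p := by exact_mod_cast ZMod.val_lt r.1
  have hy0 : (r.2.val : ℤ) < p := by exact_mod_cast ZMod.val_lt r.2
  have hx1 : (0 : ℤ) ≤ (r.1.val : ℤ) := by positivity
  have hy1 : (0 : ℤ) ≤ (r.2.val : ℤ) := by positivity
  have main : ∀ c ∈ ((Finset.Ioo (-h) h).filter (fun c : ℤ => (c : ZMod p) = r.2 - r.1)),
      ∃ k : ℕ, k < 3 ∧ c = ((r.2.val : ℤ) - r.1.val) + p * ((k : ℤ) - 1) ∧
        ((c - ((r.2.val : ℤ) - r.1.val)) / p + 1).toNat = k := by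
    intro c hc
    obtain ⟨hc1, hc2⟩ := mem_filter.1 hc
    rw [mem_Ioo] at hc1
    have h1 : ((((r.2.val : ℤ) - r.1.val : ℤ)) : ZMod p) = (c : ZMod p) := by
      rw [hc2]
      simp
    obtain ⟨k, hk⟩ := cast_eq_dvd _ c h1
    have hk1 : -1 ≤ k ∧ k ≤ 1 := by
      constructor
      · by_contra hh'
        push Not at hh'
        have : (p : ℤ) * k ≤ -(2 * p) := by nlinarith
        omega
      · by_contra hh'
        push Not at hh'
        have : 2 * (p : ℤ) ≤ p * k := by nlinarith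
        omega
    have dk : (c - ((r.2.val : ℤ) - r.1.val)) / p = k := by
      have : c - ((r.2.val : ℤ) - r.1.val) = p * k := by linarith
      rw [this]; exact Int.mul_ediv_cancel_left _ hp.ne'
    refine ⟨(k + 1).toNat, by omega, ?_, by rw [dk]⟩
    rw [Int.toNat_of_nonneg (by omega)]
    linarith
  refine Finset.card_le_card_of_injOn (fun c => ((c - ((r.2.val : ℤ) - r.1.val)) / p + 1).toNat) ?_ ?_
  · intro c hc
    obtain ⟨k, hk, e1, e2⟩ := main c (mem_coe.1 hc)
    obtain ⟨hc1, hc2⟩ := mem_filter.1 (mem_coe.1 hc)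
    rw [mem_Ioo] at hc1
    refine mem_coe.2 (mem_filter.2 ?_)
    simp only [e2]
    refine ⟨mem_range.2 hk, ?_⟩
    rw [← e1]
    exact hc1
  · intro c hc c' hc' hcc
    obtain ⟨k, hk, e1, e2⟩ := main c (mem_coe.1 hc)
    obtain ⟨k', hk', e1', e2'⟩ := main c' (mem_coe.1 hc')
    simp only [e2, e2'] at hcc
    rw [e1, e1', hcc]

theorem pointwise (n : ℕ) (hpn : p ≤ n) (hn2 : n ≤ 2 * p) (S : Finset (ℤ × ℤ))
    (hbox : InBox n S) (r : ZMod p × ZMod p) :
    ((S.filter (fun P => ¬ (-((n : ℤ) - p) < P.2 - P.1 ∧ P.2 - P.1 < (n : ℤ) - p))).filter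
      (fun P => ((P.1 : ZMod p), (P.2 : ZMod p)) = r)).card
    + ((Finset.Ioo (-((n : ℤ) - p)) ((n : ℤ) - p)).filter
        (fun c : ℤ => (c : ZMod p) = r.2 - r.1)).card
    ≤ 1 + (if r.1.val < n - p then 1 else 0) + (if r.2.val < n - p then 1 else 0) := by
  have hn2' : (n : ℤ) ≤ 2 * p := by exact_mod_cast hn2
  have hpn' : (p : ℤ) ≤ n := by exact_mod_cast hpn
  have h1 := out_card n hn2 S hbox ((n : ℤ) - p) r
  have h2 := in_card ((n : ℤ) - p) (by linarith) r
  have hx0 : r.1.val < p := ZMod.val_lt r.1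
  have hy0 : r.2.val < p := ZMod.val_lt r.2
  generalize r.1.val = x at *
  generalize r.2.val = y at *
  refine (Nat.add_le_add h1 h2).trans ?_
  clear h1 h2
  have s3 : ∀ f : ℕ → ℕ, ∑ k ∈ range 3, f k = f 0 + f 1 + f 2 := fun f => by
    simp [Finset.sum_range_succ]
  have s2 : ∀ f : ℕ → ℕ, ∑ k ∈ range 2, f k = f 0 + f 1 := fun f => by
    simp [Finset.sum_range_succ]
  have e1 : (p : ℤ) * (0 - 1) = -p := by ring
  have e2 : (p : ℤ) * (1 - 1) = 0 := by ring
  have e3 : (p : ℤ) * (2 - 1) = p := by ring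
  simp only [s3, s2, Nat.cast_zero, Nat.cast_one, Nat.cast_ofNat, mul_zero, mul_one, add_zero,
    e1, e2, e3]
  rcases Nat.lt_or_ge x (n - p) with hx | hx <;> rcases Nat.lt_or_ge y (n - p) with hy | hy
  · rw [if_pos hx, if_pos hy]
    split_ifs <;> omega
  · have hy' : ¬ y < n - p := by omega
    rw [if_pos hx, if_neg hy']
    split_ifs <;> omega
  · have hx' : ¬ x < n - p := by omega
    rw [if_neg hx', if_pos hy]
    split_ifs <;> omega
  · have hx' : ¬ x < n - p := by omega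
    have hy' : ¬ y < n - p := by omega
    rw [if_neg hx', if_neg hy']
    split_ifs <;> omega

/-- the number of points in the strip -/
theorem strip_le (hp2 : p ≠ 2) (b d e g : ZMod p) (hb : b ≠ 0)
    (h : ℤ) (hh : h ≤ p) (S : Finset (ℤ × ℤ)) (hS : NoT S)
    (hc : OnConic 0 b 0 d e g S) :
    (S.filter (fun P => -h < P.2 - P.1 ∧ P.2 - P.1 < h)).card
      ≤ ∑ r ∈ Hyp b d e g,
        ((Finset.Ioo (-h) h).filter (fun c : ℤ => (c : ZMod p) = r.2 - r.1)).card + 4 := by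
  classical
  set T := S.filter (fun P => -h < P.2 - P.1 ∧ P.2 - P.1 < h) with hT
  have h1 := card_le_two_mul T (hS.mono (Finset.filter_subset _ _)) (-1) 1 (by norm_num)
  -- the lines used are active
  have h2 : T.image (fun P => -1 * P.1 + 1 * P.2) ⊆
      (Finset.Ioo (-h) h).filter (fun c : ℤ => IsSquare (dsc b d e g (c : ZMod p))) := by
    intro c hcc
    obtain ⟨P, hP, rfl⟩ := mem_image.1 hcc
    obtain ⟨hP1, hP2⟩ := mem_filter.1 hP
    have he := hc P hP1
    refine mem_filter.2 ⟨mem_Ioo.2 (by omega), ?_⟩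
    unfold dsc
    refine ⟨2 * b * (P.1 : ZMod p) + b * ((P.2 : ZMod p) - (P.1 : ZMod p)) + d + e, ?_⟩
    push_cast
    linear_combination (-4 * b) * he
  have h3 : 2 * ((Finset.Ioo (-h) h).filter
      (fun c : ℤ => IsSquare (dsc b d e g (c : ZMod p)))).card ≤
      ∑ c ∈ Finset.Ioo (-h) h, (((Hyp b d e g).filter (fun r => r.2 - r.1 = (c : ZMod p))).card
        + (if dsc b d e g (c : ZMod p) = 0 then 1 else 0)) := by
    rw [Finset.card_filter, Finset.mul_sum]
    refine Finset.sum_le_sum (fun c _ => ?_)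
    by_cases hsq : IsSquare (dsc b d e g (c : ZMod p))
    · rw [if_pos hsq]
      exact class_two hp2 hb _ hsq
    · rw [if_neg hsq]
      simp
  rw [Finset.sum_add_distrib, ← Finset.card_filter] at h3
  have h4 := strip_zero (d := d) (e := e) (g := g) hb h hh
  have h5 : ∑ c ∈ Finset.Ioo (-h) h, ((Hyp b d e g).filter (fun r => r.2 - r.1 = (c : ZMod p))).card
      = ∑ r ∈ Hyp b d e g,
        ((Finset.Ioo (-h) h).filter (fun c : ℤ => (c : ZMod p) = r.2 - r.1)).card := by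
    simp only [Finset.card_filter]
    rw [Finset.sum_comm]
    refine Finset.sum_congr rfl (fun r _ => Finset.sum_congr rfl (fun c _ => ?_))
    by_cases hrc : r.2 - r.1 = (c : ZMod p)
    · rw [if_pos hrc, if_pos hrc.symm]
    · rw [if_neg hrc, if_neg (fun h' => hrc h'.symm)]
  rw [h5] at h3
  have h6 := Finset.card_le_card h2
  omega

/-- the bound `2 n - p + 3` -/
theorem hyp_periods (hp2 : p ≠ 2) (b d e g : ZMod p) (hb : b ≠ 0) (hK : d * e - b * g ≠ 0)
    (n : ℕ) (hpn : p ≤ n) (hn2 : n ≤ 2 * p) (S : Finset (ℤ × ℤ)) (hbox : InBox n S) (hS : NoT S)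
    (hc : OnConic 0 b 0 d e g S) : S.card + p ≤ 2 * n + 3 := by
  classical
  have hn2' : (n : ℤ) ≤ 2 * p := by exact_mod_cast hn2
  have h1 := strip_le hp2 b d e g hb ((n : ℤ) - p) (by linarith) S hS hc
  set Out := S.filter (fun P => ¬ (-((n : ℤ) - p) < P.2 - P.1 ∧ P.2 - P.1 < (n : ℤ) - p)) with hOut
  have h2 : Out.card = ∑ r ∈ Hyp b d e g,
      (Out.filter (fun P => ((P.1 : ZMod p), (P.2 : ZMod p)) = r)).card := by
    refine Finset.card_eq_sum_card_fiberwise (fun P hP => ?_)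
    have hP' := (mem_filter.1 (mem_coe.1 hP)).1
    have he := hc P hP'
    refine mem_coe.2 (mem_Hyp.2 ?_)
    simp only
    linear_combination he
  have h3 : ∑ r ∈ Hyp b d e g, ((Out.filter (fun P => ((P.1 : ZMod p), (P.2 : ZMod p)) = r)).card
      + ((Finset.Ioo (-((n : ℤ) - p)) ((n : ℤ) - p)).filter
        (fun c : ℤ => (c : ZMod p) = r.2 - r.1)).card)
      ≤ ∑ r ∈ Hyp b d e g, (1 + (if r.1.val < n - p then 1 else 0)
        + (if r.2.val < n - p then 1 else 0)) :=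
    Finset.sum_le_sum (fun r _ => pointwise n hpn hn2 S hbox r)
  rw [Finset.sum_add_distrib, ← h2, Finset.sum_add_distrib, Finset.sum_add_distrib,
    Finset.sum_const, smul_eq_mul, mul_one, ← Finset.card_filter, ← Finset.card_filter] at h3
  have h4 := Hyp_card hb hK
  have h5 := Hyp_card_x hb hK (n - p)
  have h6 := Hyp_card_y hb hK (n - p)
  have h7 := Finset.card_filter_add_card_filter_not (s := S)
    (fun P => -((n : ℤ) - p) < P.2 - P.1 ∧ P.2 - P.1 < (n : ℤ) - p)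
  rw [← hOut] at h7
  omega

end Pool.Agent.Helper83.MC
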