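import Mathlib
import Pool.Agent.Helper83.MCa
import Pool.Agent.Helper83.MCb
import Pool.Agent.Helper83.MCc
import Pool.Agent.Helper83.MCd

set_option autoImplicit false

/-!
Trapezoids with exactly constant period sums.
-/

namespace Pool.Agent.Helper83.MC

open Finset

/-- the trapezoid of height `A` and half width `W` -/
def trap (A W z : ℤ) : ℤ := max 0 (min A (min (W - z) (W + z)))

theorem trap_nonneg (A W z : ℤ) : 0 ≤ trap A W z := le_max_left _ _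

theorem trap_card (A W z : ℤ) (hA : 0 ≤ A) (hW : A ≤ W) :
    trap A W z = ((Finset.Ico 0 (2 * W - A)).filter
      (fun b => z + W - A ≤ b ∧ b < z + W)).card := by
  have h1 : (Finset.Ico 0 (2 * W - A)).filter (fun b => z + W - A ≤ b ∧ b < z + W)
      = Finset.Ico (max 0 (z + W - A)) (min (2 * W - A) (z + W)) := by
    ext b
    rw [mem_filter, mem_Ico, mem_Ico]
    constructor
    · rintro ⟨⟨h1, h2⟩, h3, h4⟩
      exact ⟨max_le h1 h3, lt_min h2 h4⟩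
    · rintro ⟨h1, h2⟩
      have h3 := max_le_iff.1 h1
      have h4 := lt_min_iff.1 h2
      exact ⟨⟨h3.1, h4.1⟩, h3.2, h4.2⟩
  rw [h1, Int.card_Ico]
  unfold trap
  omega

theorem class_count (Q : ℤ) (hQ : 0 < Q) (m : ℕ) (T : Finset ℤ) (lo : ℤ)
    (h1 : ∀ c ∈ T, lo ≤ c ∧ c < lo + m * Q) (h2 : ∀ c ∈ T, ∀ c' ∈ T, Q ∣ c - c') :
    T.card ≤ m := by
  classical
  have h3 : T.card ≤ (Finset.Ico (0 : ℤ) m).card := by
    refine Finset.card_le_card_of_injOn (fun c => (c - lo) / Q) ?_ ?_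
    · intro c hc
      have := h1 c (mem_coe.1 hc)
      refine mem_coe.2 (mem_Ico.2 ⟨Int.ediv_nonneg (by linarith) hQ.le, ?_⟩)
      exact Int.ediv_lt_of_lt_mul hQ (by linarith)
    · intro c hc c' hc' h
      obtain ⟨k, hk⟩ := h2 c (mem_coe.1 hc) c' (mem_coe.1 hc')
      have h4 : (c - lo) / Q = (c' - lo) / Q := h
      have h5 : c - lo = (c' - lo) + k * Q := by linarith
      rw [h5, Int.add_mul_ediv_right _ _ hQ.ne'] at h4
      have h6 : k = 0 := by omega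
      rw [h6] at hk
      omega
  rw [Int.card_Ico] at h3
  omega

theorem trap_class (Q : ℤ) (hQ : 0 < Q) (m : ℕ) (W : ℤ) (hW : m * Q ≤ W) (T : Finset ℤ)
    (h2 : ∀ c ∈ T, ∀ c' ∈ T, Q ∣ c - c') :
    ∑ z ∈ T, trap (m * Q) W z ≤ m * (2 * W - m * Q) := by
  classical
  have hA : (0 : ℤ) ≤ m * Q := by positivity
  have h1 : ∑ z ∈ T, trap (m * Q) W z
      = ∑ b ∈ Finset.Ico 0 (2 * W - m * Q),
        ((T.filter (fun z => z + W - m * Q ≤ b ∧ b < z + W)).card : ℤ) := by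
    rw [Finset.sum_congr rfl (fun z _ => trap_card (m * Q) W z hA hW)]
    simp only [Finset.card_filter, Nat.cast_sum]
    rw [Finset.sum_comm]
  rw [h1]
  have h3 : ∀ b ∈ Finset.Ico 0 (2 * W - m * Q),
      ((T.filter (fun z => z + W - m * Q ≤ b ∧ b < z + W)).card : ℤ) ≤ m := by
    intro b _
    have h4 := class_count Q hQ m (T.filter (fun z => z + W - m * Q ≤ b ∧ b < z + W)) (b - W + 1)
      (by
        intro c hc
        have := (mem_filter.1 hc).2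
        constructor <;> linarith)
      (fun c hc c' hc' => h2 c (mem_filter.1 hc).1 c' (mem_filter.1 hc').1)
    exact_mod_cast h4
  refine (Finset.sum_le_sum h3).trans ?_
  rw [Finset.sum_const, nsmul_eq_mul, Int.card_Ico]
  have h5 : ((2 * W - m * Q - 0).toNat : ℤ) = 2 * W - m * Q := by
    rw [Int.toNat_of_nonneg (by linarith)]
    ring
  rw [h5, mul_comm]

/-- the weight of a row -/
def gr (n : ℕ) (Θ x : ℤ) : ℤ :=
  max 0 (max (2 * (n : ℤ) - 5 + Θ - 10 * x) (10 * x + 5 - 8 * n + Θ))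
    + max 0 (max (2 * (n : ℤ) - 5 - Θ - 10 * x) (10 * x + 5 - 8 * n - Θ))

theorem gr_nonneg (n : ℕ) (Θ x : ℤ) : 0 ≤ gr n Θ x :=
  add_nonneg (le_max_left _ _) (le_max_left _ _)

theorem side_sum (n : ℕ) (s : ℤ) :
    80 * ∑ x ∈ range n, max 0 (max (s - 10 * (x : ℤ)) (10 * (x : ℤ) + s - 10 * (n - 1)))
      ≤ 2 * (2 * s + 10) ^ 2 := by
  have h1 : ∑ x ∈ range n, max 0 (max (s - 10 * (x : ℤ)) (10 * (x : ℤ) + s - 10 * (n - 1)))
      ≤ ∑ x ∈ range n, max 0 (s - (x : ℤ) * 10)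
        + ∑ x ∈ range n, max 0 (s - (((n - 1 - x : ℕ) : ℤ)) * 10) := by
    rw [← Finset.sum_add_distrib]
    refine Finset.sum_le_sum (fun x hx => ?_)
    have hx' := mem_range.1 hx
    have hc : (((n - 1 - x : ℕ) : ℤ)) = n - 1 - x := by omega
    rw [hc]
    omega
  have h2 : ∑ x ∈ range n, max 0 (s - (((n - 1 - x : ℕ) : ℤ)) * 10)
      = ∑ x ∈ range n, max 0 (s - (x : ℤ) * 10) :=
    Finset.sum_range_reflect (fun x => max 0 (s - (x : ℤ) * 10)) n
  have h3 := hinge_sum 10 (by norm_num) n s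
  rw [h2] at h1
  linarith

theorem gr_sum (n : ℕ) (Θ : ℤ) :
    5 * ∑ x ∈ range n, gr n Θ (x : ℤ) ≤ 4 * (n : ℤ) ^ 2 + Θ ^ 2 := by
  have h1 := side_sum n (2 * n - 5 + Θ)
  have h2 := side_sum n (2 * n - 5 - Θ)
  have h3 : ∑ x ∈ range n, gr n Θ (x : ℤ)
      = ∑ x ∈ range n, max 0 (max ((2 * n - 5 + Θ) - 10 * (x : ℤ))
          (10 * (x : ℤ) + (2 * n - 5 + Θ) - 10 * (n - 1)))
        + ∑ x ∈ range n, max 0 (max ((2 * n - 5 - Θ) - 10 * (x : ℤ))
          (10 * (x : ℤ) + (2 * n - 5 - Θ) - 10 * (n - 1))) := by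
    rw [← Finset.sum_add_distrib]
    refine Finset.sum_congr rfl (fun x _ => ?_)
    unfold gr
    congr 3 <;> ring
  rw [h3]
  nlinarith [h1, h2]

theorem gr_rows (n : ℕ) (Θ : ℤ) (X : Finset ℤ) (hX : ∀ x ∈ X, 0 ≤ x ∧ x < (n : ℤ)) :
    ∑ x ∈ X, gr n Θ x ≤ ∑ j ∈ range n, gr n Θ (j : ℤ) := by
  refine sum_le_of_inj X (gr n Θ) n (fun j => gr n Θ (j : ℤ)) (fun x => x.toNat) ?_ ?_ ?_ ?_
  · intro x hx
    have := hX x hx
    omega
  · intro x hx y hy h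
    have h1 := hX x hx
    have h2 := hX y hy
    omega
  · intro x hx
    have h1 := hX x hx
    rw [Int.toNat_of_nonneg h1.1]
  · intro j
    exact gr_nonneg _ _ _

/-- the pointwise cover -/
theorem cover (n A Θ x y : ℤ) (hA : 0 ≤ A) (hΘ : 0 ≤ Θ) (h4 : A + Θ = 4 * n) (h3 : 2 * Θ ≤ 3 * n)
    (v1 v2 f1 f2 : ℤ)
    (hv1 : v1 = max 0 (min A (min (4 * n - 5 * (y - x)) (4 * n + 5 * (y - x)))))
    (hv2 : v2 = max 0 (min A (min (4 * n - 5 * (x + y - (n - 1))) (4 * n + 5 * (x + y - (n - 1))))))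
    (hf1 : f1 = max 0 (max (2 * n - 5 + Θ - 10 * x) (10 * x + 5 - 8 * n + Θ))
      + max 0 (max (2 * n - 5 - Θ - 10 * x) (10 * x + 5 - 8 * n - Θ)))
    (hf2 : f2 = max 0 (max (2 * n - 5 + Θ - 10 * y) (10 * y + 5 - 8 * n + Θ))
      + max 0 (max (2 * n - 5 - Θ - 10 * y) (10 * y + 5 - 8 * n - Θ))) :
    10 * n ≤ 2 * v1 + 2 * v2 + f1 + f2 := by
  -- lower bounds for the row weights
  have a1 : 0 ≤ f1 := by rw [hf1]; exact add_nonneg (le_max_left _ _) (le_max_left _ _)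
  have a2 : 0 ≤ f2 := by rw [hf2]; exact add_nonneg (le_max_left _ _) (le_max_left _ _)
  have b1 : 2 * n - 5 + Θ - 10 * x ≤ f1 := by omega
  have b1' : 10 * x + 5 - 8 * n + Θ ≤ f1 := by omega
  have c1 : 4 * n - 10 - 20 * x ≤ f1 := by omega
  have c1' : 20 * x + 10 - 16 * n ≤ f1 := by omega
  have b2 : 2 * n - 5 + Θ - 10 * y ≤ f2 := by omega
  have b2' : 10 * y + 5 - 8 * n + Θ ≤ f2 := by omega
  have c2 : 4 * n - 10 - 20 * y ≤ f2 := by omega
  have c2' : 20 * y + 10 - 16 * n ≤ f2 := by omega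
  clear hf1 hf2
  omega

end Pool.Agent.Helper83.MC
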