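import Mathlib
import Pool.Agent.Helper83.MCl
import Pool.Agent.Helper83.MCk

set_option autoImplicit false

/-!
The constant 8/5 for hyperbolas with axis-parallel asymptotes.
-/

namespace Pool.Agent.Helper83.MC

open Finset

variable {p : ℕ} [Fact p.Prime]

theorem trap_classes (n m : ℕ) (hm : 5 * m * p ≤ 4 * n) (W : Finset (ZMod p)) (T : Finset ℤ)
    (hT : ∀ c ∈ T, (c : ZMod p) ∈ W) :
    ∑ c ∈ T, trap (m * (5 * p)) (4 * n) (5 * c) ≤ W.card * (m * (8 * n - m * (5 * p))) := by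
  classical
  have hp : 0 < (p : ℤ) := by exact_mod_cast (Fact.out : p.Prime).pos
  have hm' : (m : ℤ) * (5 * p) ≤ 4 * n := by
    have : ((5 * m * p : ℕ) : ℤ) ≤ ((4 * n : ℕ) : ℤ) := by exact_mod_cast hm
    push_cast at this
    linarith
  have h1 := Finset.sum_fiberwise_of_maps_to (s := T) (t := W) (g := fun c : ℤ => (c : ZMod p))
    (fun c hc => hT c hc) (fun c => trap (m * (5 * p)) (4 * n) (5 * c))
  rw [← h1]
  have h2 : ∀ w ∈ W, ∑ c ∈ T.filter (fun c : ℤ => (c : ZMod p) = w),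
      trap (m * (5 * p)) (4 * n) (5 * c) ≤ m * (8 * n - m * (5 * p)) := by
    intro w _
    have h3 := trap_class (5 * p) (by positivity) m (4 * n) hm'
      ((T.filter (fun c : ℤ => (c : ZMod p) = w)).image (fun c => 5 * c)) (by
      intro c hc c' hc'
      obtain ⟨d, hd, rfl⟩ := mem_image.1 hc
      obtain ⟨d', hd', rfl⟩ := mem_image.1 hc'
      have h4 : (p : ℤ) ∣ d - d' := by
        rw [← ZMod.intCast_zmod_eq_zero_iff_dvd]
        push_cast
        rw [(mem_filter.1 hd).2, (mem_filter.1 hd').2, sub_self]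
      have h5 : 5 * d - 5 * d' = 5 * (d - d') := by ring
      rw [h5]
      exact mul_dvd_mul_left 5 h4)
    rw [Finset.sum_image (by intro x _ y _ h; simp only at h; omega)] at h3
    refine h3.trans (le_of_eq ?_)
    ring
  refine (Finset.sum_le_sum h2).trans ?_
  rw [Finset.sum_const, nsmul_eq_mul]

/-- the inequality with trapezoids -/
theorem main_trap (hp2 : p ≠ 2) (b d e g : ZMod p) (hb : b ≠ 0) (hK : d * e - b * g ≠ 0)
    (n m : ℕ) (hm : 5 * m * p ≤ 4 * n) (hnm : n ≤ 2 * m * p)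
    (S : Finset (ℤ × ℤ)) (hbox : InBox n S) (hS : NoT S)
    (hc : OnConic 0 b 0 d e g S) :
    5 * (n : ℤ) * S.card ≤ 8 * (n : ℤ) ^ 2 + 2 * (m * (8 * n - m * (5 * p))) := by
  classical
  have hp : 0 < (p : ℤ) := by exact_mod_cast (Fact.out : p.Prime).pos
  have hm' : (m : ℤ) * (5 * p) ≤ 4 * n := by
    have : ((5 * m * p : ℕ) : ℤ) ≤ ((4 * n : ℕ) : ℤ) := by exact_mod_cast hm
    push_cast at this
    linarith
  have hnm' : (n : ℤ) ≤ 2 * (m * p) := by
    have : ((n : ℕ) : ℤ) ≤ ((2 * m * p : ℕ) : ℤ) := by exact_mod_cast hnm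
    push_cast at this
    linarith
  set Θ : ℤ := 4 * n - m * (5 * p) with hΘ
  have hA0 : (0 : ℤ) ≤ m * (5 * p) := by positivity
  have hΘ0 : 0 ≤ Θ := by linarith
  have hΘ3 : 2 * Θ ≤ 3 * n := by linarith
  -- pointwise cover
  have hcov : ∀ P ∈ S, 10 * (n : ℤ) ≤ 2 * trap (m * (5 * p)) (4 * n) (5 * (-1 * P.1 + 1 * P.2))
      + 2 * trap (m * (5 * p)) (4 * n) (5 * ((1 * P.1 + 1 * P.2) - ((n : ℤ) - 1)))
      + gr n Θ (1 * P.1 + 0 * P.2) + gr n Θ (0 * P.1 + 1 * P.2) := by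
    intro P _
    refine cover n (m * (5 * p)) Θ P.1 P.2 hA0 hΘ0 (by linarith) hΘ3 _ _ _ _ ?_ ?_ ?_ ?_
    · unfold trap
      rw [show -1 * P.1 + 1 * P.2 = P.2 - P.1 by ring]
    · unfold trap
      rw [show (1 * P.1 + 1 * P.2) - ((n : ℤ) - 1) = P.1 + P.2 - (n - 1) by ring]
    · unfold gr
      rw [show 1 * P.1 + 0 * P.2 = P.1 by ring]
    · unfold gr
      rw [show 0 * P.1 + 1 * P.2 = P.2 by ring]
  have hsum := Finset.sum_le_sum hcov
  rw [Finset.sum_const, nsmul_eq_mul, Finset.sum_add_distrib, Finset.sum_add_distrib,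
    Finset.sum_add_distrib, ← Finset.mul_sum, ← Finset.mul_sum] at hsum
  have hA := weight_le S hS (-1) 1 (by norm_num) (fun c => trap (m * (5 * p)) (4 * n) (5 * c))
    (fun P _ => trap_nonneg _ _ _)
  have hB := weight_le S hS 1 1 (by norm_num)
    (fun c => trap (m * (5 * p)) (4 * n) (5 * (c - ((n : ℤ) - 1)))) (fun P _ => trap_nonneg _ _ _)
  have hC := weight_le S hS 1 0 (by norm_num) (gr n Θ) (fun P _ => gr_nonneg _ _ _)
  have hD := weight_le S hS 0 1 (by norm_num) (gr n Θ) (fun P _ => gr_nonneg _ _ _)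
  have hC2 := gr_rows n Θ (S.image (fun P => 1 * P.1 + 0 * P.2)) (by
    intro x hx
    obtain ⟨P, hP, rfl⟩ := mem_image.1 hx
    have := hbox P hP
    omega)
  have hD2 := gr_rows n Θ (S.image (fun P => 0 * P.1 + 1 * P.2)) (by
    intro x hx
    obtain ⟨P, hP, rfl⟩ := mem_image.1 hx
    have := hbox P hP
    omega)
  have hf := gr_sum n Θ
  -- slope 1
  set W1 := (univ : Finset (ZMod p)).filter
      (fun c => IsSquare ((b * c + d - e) ^ 2 - (-(4 * (d * e - b * g))))) with hW1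
  have hW1c := slope_plus hp2 b d e g hb hK
  rw [← hW1] at hW1c
  have hT1 := trap_classes n m hm W1 (S.image (fun P => -1 * P.1 + 1 * P.2)) (by
    intro c hcc
    obtain ⟨P, hP, rfl⟩ := mem_image.1 hcc
    have he := hc P hP
    rw [hW1, mem_filter]
    refine ⟨mem_univ _, 2 * b * (P.1 : ZMod p) + b * ((P.2 : ZMod p) - (P.1 : ZMod p)) + d + e, ?_⟩
    push_cast
    linear_combination (-4 * b) * he)
  -- slope -1
  set m' : ZMod p := (n : ZMod p) - 1 with hm1
  set W2 := (univ : Finset (ZMod p)).filter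
      (fun c => IsSquare ((b * (c + m') + d + e) ^ 2 - 4 * (d * e - b * g))) with hW2
  have hW2c := slope_minus hp2 b d e g m' hb hK
  rw [← hW2] at hW2c
  have hT2 := trap_classes n m hm W2
    ((S.image (fun P => 1 * P.1 + 1 * P.2)).image (fun c => c - ((n : ℤ) - 1))) (by
    intro c hcc
    obtain ⟨c', hcc', rfl⟩ := mem_image.1 hcc
    obtain ⟨P, hP, rfl⟩ := mem_image.1 hcc'
    have he := hc P hP
    rw [hW2, mem_filter]
    refine ⟨mem_univ _, 2 * b * (P.1 : ZMod p) - b * ((P.1 : ZMod p) + (P.2 : ZMod p)) - d + e, ?_⟩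
    rw [hm1]
    push_cast
    linear_combination (4 * b) * he)
  rw [Finset.sum_image (by intro x _ y _ h; simp only at h; omega)] at hT2
  have hWn1 : 2 * (W1.card : ℤ) ≤ p + 1 := by exact_mod_cast hW1c
  have hWn2 : 2 * (W2.card : ℤ) ≤ p + 1 := by exact_mod_cast hW2c
  have hQ : 0 ≤ (m : ℤ) * (8 * n - m * (5 * p)) := by
    apply mul_nonneg (by positivity)
    linarith
  have hX1 := mul_le_mul_of_nonneg_right hWn1 hQ
  have hX2 := mul_le_mul_of_nonneg_right hWn2 hQ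
  have hfin : 50 * ((n : ℤ) * S.card) ≤ 20 * ((p + 1) * (m * (8 * n - m * (5 * p))))
      + 4 * (4 * (n : ℤ) ^ 2 + Θ ^ 2) := by
    linarith [hX1, hX2, hA, hB, hC, hD, hC2, hD2, hf, hT1, hT2, hsum]
  have hexp : 20 * (((p : ℤ) + 1) * (m * (8 * n - m * (5 * p)))) + 4 * (4 * (n : ℤ) ^ 2 + Θ ^ 2)
      = 10 * (8 * (n : ℤ) ^ 2 + 2 * (m * (8 * n - m * (5 * p)))) := by
    rw [hΘ]
    ring
  rw [hexp] at hfin
  linarith

/-- `5 p ≤ 2 n`: the bound `(8/5 + 32/(25 p)) n` -/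
theorem hyp_big (hp2 : p ≠ 2) (b d e g : ZMod p) (hb : b ≠ 0) (hK : d * e - b * g ≠ 0)
    (n : ℕ) (hpn : 5 * p ≤ 2 * n) (S : Finset (ℤ × ℤ)) (hbox : InBox n S) (hS : NoT S)
    (hc : OnConic 0 b 0 d e g S) :
    25 * (p : ℤ) * S.card ≤ (40 * p + 32) * n := by
  have hp1 : 0 < p := (Fact.out : p.Prime).pos
  have hp : 0 < (p : ℤ) := by exact_mod_cast hp1
  set m := (4 * n) / (5 * p) with hm
  have h1 : m * (5 * p) ≤ 4 * n := Nat.div_mul_le_self _ _
  have h2 : 4 * n < (m + 1) * (5 * p) := by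
    have := Nat.lt_succ_self ((4 * n) / (5 * p))
    exact (Nat.div_lt_iff_lt_mul (by positivity)).1 this
  have hm2 : 2 ≤ m := by
    rw [hm]
    exact (Nat.le_div_iff_mul_le (by positivity)).2 (by omega)
  have h3 : n ≤ 2 * m * p := by nlinarith
  have key := main_trap hp2 b d e g hb hK n m (by linarith) h3 S hbox hS hc
  have hn0 : 0 < n := by omega
  have hn : 0 < (n : ℤ) := by exact_mod_cast hn0
  have h1' : (m : ℤ) * (5 * p) ≤ 4 * n := by exact_mod_cast h1
  have h4 : 5 * (p : ℤ) * (m * (8 * n - m * (5 * p))) ≤ 16 * (n : ℤ) ^ 2 := by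
    set w : ℤ := m * (5 * p) with hw
    have : 5 * (p : ℤ) * (m * (8 * n - w)) = w * (8 * n - w) := by rw [hw]; ring
    rw [this]
    nlinarith
  have h5 : (5 * (n : ℤ)) * (25 * p * S.card) ≤ (5 * (n : ℤ)) * ((40 * p + 32) * n) := by
    have h6 := mul_le_mul_of_nonneg_left key (show (0 : ℤ) ≤ 25 * p by positivity)
    nlinarith [h6, h4]
  exact le_of_mul_le_mul_left h5 (by positivity)

end Pool.Agent.Helper83.MC
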