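import Mathlib
import Pool.Agent.Helper83.MCk
import Pool.Agent.Helper83.MCl

set_option autoImplicit false

/-!
The strip argument for boxes of any number of periods.
-/

namespace Pool.Agent.Helper83.MC

open Finset

variable {p : ℕ} [Fact p.Prime]

/-- the number of points in the strip, any width -/
theorem strip_le' (hp2 : p ≠ 2) (b d e g : ZMod p) (hb : b ≠ 0)
    (h : ℤ) (S : Finset (ℤ × ℤ)) (hS : NoT S)
    (hc : OnConic 0 b 0 d e g S) :
    (S.filter (fun P => -h < P.2 - P.1 ∧ P.2 - P.1 < h)).card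
      ≤ ∑ r ∈ Hyp b d e g,
        ((Finset.Ioo (-h) h).filter (fun c : ℤ => (c : ZMod p) = r.2 - r.1)).card
        + ((Finset.Ioo (-h) h).filter (fun c : ℤ => dsc b d e g (c : ZMod p) = 0)).card := by
  classical
  set T := S.filter (fun P => -h < P.2 - P.1 ∧ P.2 - P.1 < h) with hT
  have h1 := card_le_two_mul T (hS.mono (Finset.filter_subset _ _)) (-1) 1 (by norm_num)
  have h2 : T.image (fun P => -1 * P.1 + 1 * P.2) ⊆
      (Finset.Ioo (-h) h).filter (fun c : ℤ => IsSquare (dsc b d e g (c : ZMod p))) := by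
    intro c hcc
    obtain ⟨P, hP, rfl⟩ := mem_image.1 hcc
    obtain ⟨hP1, hP2⟩ := mem_filter.1 hP
    have he := hc P hP1
    refine mem_filter.2 ⟨mem_Ioo.2 (by omega), ?_⟩
    unfold dsc
    refine ⟨2 * b * (P.1 : ZMod p) + b * ((P.2 : ZMod p) - (P.1 : ZMod p)) + d + e, ?_⟩
    push_cast
    linear_combination (-4 * b) * he
  have h3 : 2 * ((Finset.Ioo (-h) h).filter
      (fun c : ℤ => IsSquare (dsc b d e g (c : ZMod p)))).card ≤
      ∑ c ∈ Finset.Ioo (-h) h, (((Hyp b d e g).filter (fun r => r.2 - r.1 = (c : ZMod p))).card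
        + (if dsc b d e g (c : ZMod p) = 0 then 1 else 0)) := by
    rw [Finset.card_filter, Finset.mul_sum]
    refine Finset.sum_le_sum (fun c _ => ?_)
    by_cases hsq : IsSquare (dsc b d e g (c : ZMod p))
    · rw [if_pos hsq]
      exact class_two hp2 hb _ hsq
    · rw [if_neg hsq]
      simp
  rw [Finset.sum_add_distrib, ← Finset.card_filter] at h3
  have h5 : ∑ c ∈ Finset.Ioo (-h) h, ((Hyp b d e g).filter (fun r => r.2 - r.1 = (c : ZMod p))).card
      = ∑ r ∈ Hyp b d e g,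
        ((Finset.Ioo (-h) h).filter (fun c : ℤ => (c : ZMod p) = r.2 - r.1)).card := by
    simp only [Finset.card_filter]
    rw [Finset.sum_comm]
    refine Finset.sum_congr rfl (fun r _ => Finset.sum_congr rfl (fun c _ => ?_))
    by_cases hrc : r.2 - r.1 = (c : ZMod p)
    · rw [if_pos hrc, if_pos hrc.symm]
    · rw [if_neg hrc, if_neg (fun h' => hrc h'.symm)]
  rw [h5] at h3
  have h6 := Finset.card_le_card h2
  omega

/-- lines of the strip with vanishing discriminant: at most `2 m` if the strip has at most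
`m` periods -/
theorem strip_zero' {b d e g : ZMod p} (hb : b ≠ 0) (h : ℤ) (m : ℕ) (hh : 2 * h - 1 ≤ m * p) :
    ((Finset.Ioo (-h) h).filter (fun c : ℤ => dsc b d e g (c : ZMod p) = 0)).card ≤ 2 * m := by
  classical
  have hp : 0 < (p : ℤ) := by exact_mod_cast (Fact.out : p.Prime).pos
  have h0 := dsc_zero (d := d) (e := e) (g := g) hb
  have h1 := Finset.card_le_mul_card_image
    (f := fun c : ℤ => (c : ZMod p))
    ((Finset.Ioo (-h) h).filter (fun c : ℤ => dsc b d e g (c : ZMod p) = 0)) m (by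
    intro γ _
    refine class_count p hp m _ (-h + 1) ?_ ?_
    · intro c hc
      have := mem_Ioo.1 (mem_filter.1 (mem_filter.1 hc).1).1
      constructor
      · linarith
      · have h3 : c + 1 ≤ h := this.2
        linarith
    · intro c hc c' hc'
      rw [← ZMod.intCast_zmod_eq_zero_iff_dvd]
      push_cast
      rw [(mem_filter.1 hc).2, (mem_filter.1 hc').2, sub_self])
  have h2 : (((Finset.Ioo (-h) h).filter (fun c : ℤ => dsc b d e g (c : ZMod p) = 0)).image
      (fun c : ℤ => (c : ZMod p))) ⊆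
      ((univ : Finset (ZMod p)).filter (fun γ => dsc b d e g γ = 0)) := by
    intro γ hγ
    obtain ⟨c, hc, rfl⟩ := mem_image.1 hγ
    exact mem_filter.2 ⟨mem_univ _, (mem_filter.1 hc).2⟩
  have h3 := (Finset.card_le_card h2).trans h0
  calc _ ≤ m * _ := h1
    _ ≤ m * 2 := Nat.mul_le_mul_left _ h3
    _ = 2 * m := by ring

/-- number of lifts of a residue below `n` -/
def lf (n : ℕ) (X : ZMod p) : ℕ := (n - 1 - X.val) / p + 1

theorem lf_le (n : ℕ) (hpn : p ≤ n) (X : ZMod p) :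
    lf n X ≤ ((range n).filter (fun z : ℕ => (z : ZMod p) = X)).card := by
  classical
  have hp : 0 < p := (Fact.out : p.Prime).pos
  have hX := ZMod.val_lt X
  have h1 : (range (lf n X)).card ≤ ((range n).filter (fun z : ℕ => (z : ZMod p) = X)).card := by
    refine Finset.card_le_card_of_injOn (fun i => X.val + i * p) ?_ ?_
    · intro i hi
      have hi' := mem_range.1 (mem_coe.1 hi)
      unfold lf at hi'
      have h2 : i * p ≤ n - 1 - X.val := (Nat.le_div_iff_mul_le hp).1 (by omega)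
      have h3 : X.val + i * p < n := by omega
      refine mem_coe.2 (mem_filter.2 ⟨mem_range.2 h3, ?_⟩)
      push_cast
      rw [ZMod.natCast_zmod_val, ZMod.natCast_self, mul_zero, add_zero]
    · intro i _ j _ hij
      simp only at hij
      have : i * p = j * p := by omega
      exact Nat.eq_of_mul_eq_mul_right hp this
  rwa [Finset.card_range] at h1

theorem lf_sum (n : ℕ) (hpn : p ≤ n) : ∑ X : ZMod p, lf n X ≤ n := by
  classical
  have h1 : (range n).card = ∑ X : ZMod p, ((range n).filter (fun z : ℕ => (z : ZMod p) = X)).card :=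
    Finset.card_eq_sum_card_fiberwise (fun _ _ => mem_coe.2 (mem_univ _))
  rw [Finset.card_range] at h1
  calc ∑ X : ZMod p, lf n X
      ≤ ∑ X : ZMod p, ((range n).filter (fun z : ℕ => (z : ZMod p) = X)).card :=
        Finset.sum_le_sum (fun X _ => lf_le n hpn X)
    _ = n := h1.symm

theorem lf_image (n : ℕ) (hpn : p ≤ n) (H : Finset (ZMod p × ZMod p))
    (f : ZMod p × ZMod p → ZMod p) (hinj : ∀ r ∈ H, ∀ s ∈ H, f r = f s → r = s) :
    ∑ r ∈ H, lf n (f r) + (p - H.card) ≤ n := by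
  classical
  have h1 : ∑ r ∈ H, lf n (f r) = ∑ X ∈ H.image f, lf n X :=
    (Finset.sum_image (fun r hr s hs h => hinj r hr s hs h)).symm
  have h2 : (H.image f).card = H.card :=
    Finset.card_image_of_injOn (fun r hr s hs h => hinj r (mem_coe.1 hr) s (mem_coe.1 hs) h)
  have h3 : ∑ X ∈ (H.image f)ᶜ, 1 ≤ ∑ X ∈ (H.image f)ᶜ, lf n X :=
    Finset.sum_le_sum (fun X _ => Nat.le_add_left 1 _)
  rw [Finset.sum_const, smul_eq_mul, mul_one, Finset.card_compl, ZMod.card, h2] at h3
  have h4 := Finset.sum_add_sum_compl (H.image f) (fun X => lf n X)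
  have h5 := lf_sum (p := p) n hpn
  omega

/-- the pointwise inequality -/
theorem pointwise' (n : ℕ) (hpn : p ≤ n) (S : Finset (ℤ × ℤ))
    (hbox : InBox n S) (r : ZMod p × ZMod p) :
    ((S.filter (fun P => ¬ (-((n : ℤ) - p) < P.2 - P.1 ∧ P.2 - P.1 < (n : ℤ) - p))).filter
      (fun P => ((P.1 : ZMod p), (P.2 : ZMod p)) = r)).card
    + ((Finset.Ioo (-((n : ℤ) - p)) ((n : ℤ) - p)).filter
        (fun c : ℤ => (c : ZMod p) = r.2 - r.1)).card + 1
    ≤ lf n r.1 + lf n r.2 := by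
  classical
  have hp1 : 0 < p := (Fact.out : p.Prime).pos
  have hp : 0 < (p : ℤ) := by exact_mod_cast hp1
  have hpn' : (p : ℤ) ≤ n := by exact_mod_cast hpn
  set D := (S.filter (fun P => ¬ (-((n : ℤ) - p) < P.2 - P.1 ∧ P.2 - P.1 < (n : ℤ) - p))).filter
      (fun P => ((P.1 : ZMod p), (P.2 : ZMod p)) = r) with hD
  set E := (Finset.Ioo (-((n : ℤ) - p)) ((n : ℤ) - p)).filter
        (fun c : ℤ => (c : ZMod p) = r.2 - r.1) with hE
  have hx0 : r.1.val < p := ZMod.val_lt r.1
  have hy0 : r.2.val < p := ZMod.val_lt r.2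
  set x : ℤ := (r.1.val : ℤ) with hx
  set y : ℤ := (r.2.val : ℤ) with hy
  have hx0' : x < p := by rw [hx]; exact_mod_cast hx0
  have hy0' : y < p := by rw [hy]; exact_mod_cast hy0
  have hx1 : 0 ≤ x := by rw [hx]; positivity
  have hy1 : 0 ≤ y := by rw [hy]; positivity
  -- maximal indices
  set A : ℤ := (((n - 1 - r.1.val) / p : ℕ) : ℤ) with hA
  set B : ℤ := (((n - 1 - r.2.val) / p : ℕ) : ℤ) with hB
  have hAe : (n : ℤ) - 1 - x = ((n - 1 - r.1.val : ℕ) : ℤ) := by rw [hx]; omega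
  have hBe : (n : ℤ) - 1 - y = ((n - 1 - r.2.val : ℕ) : ℤ) := by rw [hy]; omega
  have hA1 : A * p ≤ n - 1 - x := by
    rw [hAe, hA]
    exact_mod_cast Nat.div_mul_le_self (n - 1 - r.1.val) p
  have hB1 : B * p ≤ n - 1 - y := by
    rw [hBe, hB]
    exact_mod_cast Nat.div_mul_le_self (n - 1 - r.2.val) p
  have hA2 : (n : ℤ) - 1 - x < (A + 1) * p := by
    rw [hAe, hA]
    exact_mod_cast (Nat.div_lt_iff_lt_mul hp1).1 (Nat.lt_succ_self ((n - 1 - r.1.val) / p))
  have hB2 : (n : ℤ) - 1 - y < (B + 1) * p := by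
    rw [hBe, hB]
    exact_mod_cast (Nat.div_lt_iff_lt_mul hp1).1 (Nat.lt_succ_self ((n - 1 - r.2.val) / p))
  -- coordinates of the points of `D`
  have hDc : ∀ P ∈ D, ∃ i j : ℤ, P.1 = x + p * i ∧ P.2 = y + p * j ∧ 0 ≤ i ∧ 0 ≤ j ∧ i ≤ A ∧ j ≤ B ∧
      0 ≤ P.1 ∧ P.1 < n ∧ 0 ≤ P.2 ∧ P.2 < n ∧
      ¬ (-((n : ℤ) - p) < P.2 - P.1 ∧ P.2 - P.1 < (n : ℤ) - p) := by
    intro P hP
    obtain ⟨hP1, hP2⟩ := mem_filter.1 hP
    obtain ⟨hP3, hP4⟩ := mem_filter.1 hP1
    have hbx := hbox P hP3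
    have ex : ((P.1 : ℤ) : ZMod p) = r.1 := congrArg Prod.fst hP2
    have ey : ((P.2 : ℤ) : ZMod p) = r.2 := congrArg Prod.snd hP2
    obtain ⟨i, hi⟩ := cast_val_dvd P.1 r.1 ex
    obtain ⟨j, hj⟩ := cast_val_dvd P.2 r.2 ey
    rw [← hx] at hi
    rw [← hy] at hj
    refine ⟨i, j, hi, hj, ?_, ?_, ?_, ?_, hbx.1, hbx.2.1, hbx.2.2.1, hbx.2.2.2, hP4⟩
    · by_contra hcon
      push Not at hcon
      have : (p : ℤ) * i ≤ -p := by nlinarith
      linarith [hbx.1]
    · by_contra hcon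
      push Not at hcon
      have : (p : ℤ) * j ≤ -p := by nlinarith
      linarith [hbx.2.2.1]
    · by_contra hcon
      push Not at hcon
      have : (A + 1) * p ≤ p * i := by nlinarith
      have := hbx.2.1
      linarith
    · by_contra hcon
      push Not at hcon
      have : (B + 1) * p ≤ p * j := by nlinarith
      have := hbx.2.2.2
      linarith
  -- the map to lines
  set F : Finset ℤ := (Finset.Icc (-A) B).image (fun k => (y - x) + p * k) with hF
  have hDim : D.image (fun P => P.2 - P.1) ⊆ F := by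
    intro c hc
    obtain ⟨P, hP, rfl⟩ := mem_image.1 hc
    obtain ⟨i, j, e1, e2, i0, j0, iA, jB, _⟩ := hDc P hP
    refine mem_image.2 ⟨j - i, mem_Icc.2 ⟨by linarith, by linarith⟩, ?_⟩
    rw [e1, e2]
    ring
  have hEim : E ⊆ F := by
    intro c hc
    obtain ⟨hc1, hc2⟩ := mem_filter.1 hc
    rw [mem_Ioo] at hc1
    have h1 : (((y - x : ℤ)) : ZMod p) = (c : ZMod p) := by
      rw [hc2, hx, hy]
      simp
    obtain ⟨k, hk⟩ := cast_eq_dvd _ c h1
    refine mem_image.2 ⟨k, mem_Icc.2 ⟨?_, ?_⟩, hk.symm⟩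
    · by_contra hcon
      push Not at hcon
      have : (p : ℤ) * k ≤ -((A + 1) * p) := by nlinarith
      linarith
    · by_contra hcon
      push Not at hcon
      have : (B + 1) * p ≤ (p : ℤ) * k := by nlinarith
      linarith
  have hinj : (D.image (fun P => P.2 - P.1)).card = D.card := by
    refine Finset.card_image_of_injOn ?_
    intro P hP Q hQ hPQ
    have hPQ' : P.2 - P.1 = Q.2 - Q.1 := hPQ
    obtain ⟨i, j, e1, e2, i0, j0, iA, jB, b1, b2, b3, b4, b5⟩ := hDc P (mem_coe.1 hP)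
    obtain ⟨i', j', e1', e2', i0', j0', iA', jB', b1', b2', b3', b4', b5'⟩ := hDc Q (mem_coe.1 hQ)
    have hii : i = i' := by
      by_contra hne
      rcases lt_or_gt_of_ne hne with h | h
      · have : (p : ℤ) * i + p ≤ p * i' := by nlinarith
        omega
      · have : (p : ℤ) * i' + p ≤ p * i := by nlinarith
        omega
    rw [hii] at e1
    exact Prod.ext (by rw [e1, e1']) (by omega)
  have hdisj : Disjoint (D.image (fun P => P.2 - P.1)) E := by
    rw [Finset.disjoint_left]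
    intro c hc hc'
    obtain ⟨P, hP, rfl⟩ := mem_image.1 hc
    obtain ⟨i, j, e1, e2, i0, j0, iA, jB, b1, b2, b3, b4, b5⟩ := hDc P hP
    exact b5 (mem_Ioo.1 (mem_filter.1 hc').1)
  have h1 : D.card + E.card ≤ F.card := by
    rw [← hinj, ← Finset.card_union_of_disjoint hdisj]
    exact Finset.card_le_card (Finset.union_subset hDim hEim)
  have h2 : F.card ≤ (Finset.Icc (-A) B).card := Finset.card_image_le
  rw [Int.card_Icc] at h2
  unfold lf
  have hA0 : 0 ≤ A := by rw [hA]; positivity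
  have hB0 : 0 ≤ B := by rw [hB]; positivity
  omega

/-- `2 n - p` plus two for every period of the strip -/
theorem hyp_general (hp2 : p ≠ 2) (b d e g : ZMod p) (hb : b ≠ 0) (hK : d * e - b * g ≠ 0)
    (n m : ℕ) (hpn : p ≤ n) (hm : 2 * n ≤ (m + 2) * p) (S : Finset (ℤ × ℤ)) (hbox : InBox n S)
    (hS : NoT S) (hc : OnConic 0 b 0 d e g S) : S.card + p ≤ 2 * n + 2 * m := by
  classical
  have hm' : 2 * (n : ℤ) ≤ (m + 2) * p := by exact_mod_cast hm
  have h1 := strip_le' hp2 b d e g hb ((n : ℤ) - p) S hS hc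
  have hz := strip_zero' (d := d) (e := e) (g := g) hb ((n : ℤ) - p) m (by linarith)
  set Out := S.filter (fun P => ¬ (-((n : ℤ) - p) < P.2 - P.1 ∧ P.2 - P.1 < (n : ℤ) - p)) with hOut
  have h2 : Out.card = ∑ r ∈ Hyp b d e g,
      (Out.filter (fun P => ((P.1 : ZMod p), (P.2 : ZMod p)) = r)).card := by
    refine Finset.card_eq_sum_card_fiberwise (fun P hP => ?_)
    have hP' := (mem_filter.1 (mem_coe.1 hP)).1
    have he := hc P hP'
    refine mem_coe.2 (mem_Hyp.2 ?_)
    simp only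
    linear_combination he
  have h3 : ∑ r ∈ Hyp b d e g, ((Out.filter (fun P => ((P.1 : ZMod p), (P.2 : ZMod p)) = r)).card
      + ((Finset.Ioo (-((n : ℤ) - p)) ((n : ℤ) - p)).filter
        (fun c : ℤ => (c : ZMod p) = r.2 - r.1)).card + 1)
      ≤ ∑ r ∈ Hyp b d e g, (lf n r.1 + lf n r.2) :=
    Finset.sum_le_sum (fun r _ => pointwise' n hpn S hbox r)
  rw [Finset.sum_add_distrib, Finset.sum_add_distrib, ← h2, Finset.sum_add_distrib,
    Finset.sum_const, smul_eq_mul, mul_one] at h3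
  have h4 := Hyp_card hb hK
  have h5 := lf_image n hpn (Hyp b d e g) (fun r => r.1)
    (fun r hr s hs h => Hyp_x_inj hb hK hr hs h)
  have h6 := lf_image n hpn (Hyp b d e g) (fun r => r.2)
    (fun r hr s hs h => Hyp_y_inj hb hK hr hs h)
  have h7 := Finset.card_filter_add_card_filter_not (s := S)
    (fun P => -((n : ℤ) - p) < P.2 - P.1 ∧ P.2 - P.1 < (n : ℤ) - p)
  rw [← hOut] at h7
  omega

end Pool.Agent.Helper83.MC
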