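import Mathlib
import Pool.Agent.Helper83.MCh
import Pool.Agent.Helper83.MCm
import Pool.Agent.Helper83.MCn

set_option autoImplicit false

/-!
Assembly for the constant 8/5.
-/

namespace Pool.Agent.Helper83.MC

open Finset

theorem small_primes' (p : ℕ) (hp : p = 7 ∨ p = 11 ∨ p = 13 ∨ p = 17 ∨ p = 19) (α : ZMod p) :
    ∃ r ∈ Finset.Icc (-5 : ℤ) 5, ∃ s ∈ Finset.Icc (-5 : ℤ) 5,
        ¬ (r = 0 ∧ s = 0) ∧ (r : ZMod p) + α * (s : ZMod p) = 0 ∧
        100 * (|r| + |s|) ≤ 40 * p + 31 := by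
  rcases hp with h | h | h | h | h
  · subst h; revert α; decide +kernel
  · subst h; revert α; decide +kernel
  · subst h; revert α; decide +kernel
  · subst h; revert α; decide +kernel
  · subst h; revert α; decide +kernel

variable {p : ℕ} [Fact p.Prime]

/-- a short vector on the line `r + α s = 0` -/
theorem short_slope' (hp7 : 7 ≤ p) (α : ZMod p) :
    ∃ r s : ℤ, ¬ (r = 0 ∧ s = 0) ∧ (r : ZMod p) + α * (s : ZMod p) = 0 ∧
      100 * (|r| + |s|) ≤ 40 * p + 31 := by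
  classical
  have hpp : p.Prime := Fact.out
  by_cases hp23 : 23 ≤ p
  · -- pigeonhole
    set k := Nat.sqrt p + 1 with hk
    have hk1 : p < k * k := Nat.lt_succ_sqrt p
    have hk2 : (k - 1) * (k - 1) ≤ p := Nat.sqrt_le p
    have hcard : (univ : Finset (ZMod p)).card < ((range k) ×ˢ (range k)).card := by
      rw [Finset.card_product, Finset.card_range, Finset.card_univ, ZMod.card]
      exact hk1
    obtain ⟨P, hP, Q, hQ, hPQ, hf⟩ := Finset.exists_ne_map_eq_of_card_lt_of_maps_to hcard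
      (f := fun P : ℕ × ℕ => ((P.1 : ZMod p) + α * (P.2 : ZMod p))) (fun _ _ => mem_univ _)
    rw [mem_product, mem_range, mem_range] at hP hQ
    refine ⟨(P.1 : ℤ) - Q.1, (P.2 : ℤ) - Q.2, ?_, ?_, ?_⟩
    · rintro ⟨h1, h2⟩
      exact hPQ (Prod.ext (by omega) (by omega))
    · push_cast
      have hf' : (P.1 : ZMod p) + α * (P.2 : ZMod p) = (Q.1 : ZMod p) + α * (Q.2 : ZMod p) := hf
      linear_combination hf'
    · have h1 : |(P.1 : ℤ) - Q.1| ≤ (k : ℤ) - 1 := by rw [abs_le]; omega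
      have h2 : |(P.2 : ℤ) - Q.2| ≤ (k : ℤ) - 1 := by rw [abs_le]; omega
      have h3 : ((k : ℤ) - 1) * (k - 1) ≤ p := by
        have h4 : (((k - 1) * (k - 1) : ℕ) : ℤ) ≤ p := by exact_mod_cast hk2
        rw [Nat.cast_mul, Nat.cast_sub (by omega)] at h4
        exact h4
      have h5 : (23 : ℤ) ≤ p := by exact_mod_cast hp23
      have h6 : 5 ≤ k := by
        have : Nat.sqrt 23 ≤ Nat.sqrt p := Nat.sqrt_le_sqrt hp23
        have h7 : Nat.sqrt 23 = 4 := by decide +kernel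
        omega
      have h8 : 200 * ((k : ℤ) - 1) ≤ 40 * p + 31 := by
        rcases Nat.lt_or_ge k 6 with h | h
        · have : k = 5 := by omega
          rw [this]
          push_cast
          linarith
        · have : (6 : ℤ) ≤ k := by exact_mod_cast h
          nlinarith
      linarith
  · -- small primes
    have hcases : p = 7 ∨ p = 11 ∨ p = 13 ∨ p = 17 ∨ p = 19 := by
      have h22 : p ≤ 22 := by omega
      interval_cases p <;> first | (revert hpp; decide) | simp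
    have main := small_primes' p hcases α
    obtain ⟨r, _, s, _, h1, h2, h3⟩ := main
    exact ⟨r, s, h1, h2, h3⟩

theorem short_vector' (hp7 : 7 ≤ p) (u v : ZMod p) :
    ∃ r s : ℤ, ¬ (r = 0 ∧ s = 0) ∧ u * (r : ZMod p) + v * (s : ZMod p) = 0 ∧
      100 * (|r| + |s|) ≤ 40 * p + 31 := by
  by_cases hu : u = 0
  · refine ⟨1, 0, by omega, by rw [hu]; simp, ?_⟩
    have : (7 : ℤ) ≤ p := by exact_mod_cast hp7
    simp only [abs_one, abs_zero]
    linarith
  · obtain ⟨r, s, h1, h2, h3⟩ := short_slope' hp7 (v / u)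
    refine ⟨r, s, h1, ?_, h3⟩
    have h4 : u * ((r : ZMod p) + v / u * (s : ZMod p)) = 0 := by rw [h2, mul_zero]
    have h5 : u * (v / u) = v := by field_simp
    linear_combination h4 - (s : ZMod p) * h5

/-- the degenerate case -/
theorem deg_case' (hp7 : 7 ≤ p) (a b c d e g : ZMod p)
    (hne : ¬ (a = 0 ∧ b = 0 ∧ c = 0 ∧ d = 0 ∧ e = 0 ∧ g = 0))
    (hdet : 4 * a * c * g + b * d * e - a * e ^ 2 - c * d ^ 2 - g * b ^ 2 = 0)
    (n : ℕ) (hn : 1 ≤ n) (S : Finset (ℤ × ℤ)) (hbox : InBox n S) (hS : NoT S)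
    (hc : OnConic a b c d e g S) :
    25 * (p : ℤ) * S.card ≤ (40 * p + 32) * n + 75 * p := by
  classical
  obtain ⟨u, v, w, u', v', w', h1, h2, h3⟩ := lines_all (by omega) a b c d e g hne hdet
  obtain ⟨r, s, i1, i2, i3⟩ := short_vector' hp7 u v
  obtain ⟨r', s', j1, j2, j3⟩ := short_vector' hp7 u' v'
  set S1 := S.filter (fun P => u * (P.1 : ZMod p) + v * (P.2 : ZMod p) + w = 0) with hS1
  set S2 := S.filter (fun P => ¬ (u * (P.1 : ZMod p) + v * (P.2 : ZMod p) + w = 0)) with hS2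
  have k1 := line_count u v w h1 r s i1 i2 n (by omega) S1
    (fun P hP => hbox P (mem_filter.1 hP).1) (hS.mono (filter_subset _ _))
    (fun P hP => (mem_filter.1 hP).2)
  have k2 := line_count u' v' w' h2 r' s' j1 j2 n (by omega) S2
    (fun P hP => hbox P (mem_filter.1 hP).1) (hS.mono (filter_subset _ _))
    (fun P hP => by
      obtain ⟨hP1, hP2⟩ := mem_filter.1 hP
      exact (h3 _ _ (hc P hP1)).resolve_left hP2)
  have hsum : S1.card + S2.card = S.card := Finset.card_filter_add_card_filter_not _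
  have hsum' : (S.card : ℤ) = S1.card + S2.card := by rw [← hsum]; push_cast; ring
  have hn' : (1 : ℤ) ≤ n := by exact_mod_cast hn
  have hp : 0 < (p : ℤ) := by exact_mod_cast (Fact.out : p.Prime).pos
  have m1 := mul_le_mul_of_nonneg_right i3 (show (0 : ℤ) ≤ n - 1 by linarith)
  have m2 := mul_le_mul_of_nonneg_right j3 (show (0 : ℤ) ≤ n - 1 by linarith)
  rw [hsum']
  nlinarith [k1, k2, m1, m2]

/-- boxes of side at most the modulus -/
theorem small_box' (hp2 : p ≠ 2) (a b c d e g : ZMod p)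
    (hdet : 4 * a * c * g + b * d * e - a * e ^ 2 - c * d ^ 2 - g * b ^ 2 ≠ 0)
    (n : ℕ) (hn : n ≤ p) (hn' : 2000 ≤ n) (S : Finset (ℤ × ℤ)) (hbox : InBox n S) (hS : NoT S)
    (hc : OnConic a b c d e g S) :
    5 * S.card ≤ 8 * n := by
  set m := n / 10 with hm
  have hm1 : 10 * m ≤ n := by omega
  have hm2 : n < 10 * m + 10 := by omega
  have hm3 : 200 ≤ m := by omega
  have hzero : ∀ u : ℤ, |u| < m → (u : ZMod p) = 0 → u = 0 := by
    intro u hu h0
    rw [ZMod.intCast_zmod_eq_zero_iff_dvd] at h0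
    refine Int.eq_zero_of_abs_lt_dvd h0 ?_
    have : (m : ℤ) ≤ p := by
      have : m ≤ p := by omega
      exact_mod_cast this
    linarith
  have h1 := energy n m S hbox (by
    intro u v huv hu hv
    refine diff_card hp2 a b c d e g hdet n hn S hbox hc u v ?_
    rintro ⟨h0, h1⟩
    exact huv ⟨hzero u hu h0, hzero v hv h1⟩)
  have h2 := rows_two n S hbox hS
  generalize S.card = s at h1 h2 ⊢
  have hM : 0 < m ^ 2 := by positivity
  have h3 : m ^ 2 * s ^ 2 ≤ (n + m) ^ 2 * (s + 2 * m ^ 2) := by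
    have : m ^ 2 * (m ^ 2 * s ^ 2) ≤ m ^ 2 * ((n + m) ^ 2 * (s + 2 * m ^ 2)) := by
      calc m ^ 2 * (m ^ 2 * s ^ 2) = (m ^ 2 * s) ^ 2 := by ring
        _ ≤ (n + m) ^ 2 * (m ^ 2 * s + 2 * m ^ 4) := h1
        _ = m ^ 2 * ((n + m) ^ 2 * (s + 2 * m ^ 2)) := by ring
    exact Nat.le_of_mul_le_mul_left this hM
  have h4 : 1000 * (s + 2 * m ^ 2) ≤ 2101 * m ^ 2 := by nlinarith
  have h5 : 100 * (n + m) ^ 2 ≤ 121 * n ^ 2 := by
    have : 10 * (n + m) ≤ 11 * n := by omega
    have := Nat.pow_le_pow_left this 2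
    nlinarith
  have h6 : m ^ 2 * (100000 * s ^ 2) ≤ m ^ 2 * (254221 * n ^ 2) := by
    calc m ^ 2 * (100000 * s ^ 2) = 100000 * (m ^ 2 * s ^ 2) := by ring
      _ ≤ 100000 * ((n + m) ^ 2 * (s + 2 * m ^ 2)) := Nat.mul_le_mul_left _ h3
      _ = (100 * (n + m) ^ 2) * (1000 * (s + 2 * m ^ 2)) := by ring
      _ ≤ (121 * n ^ 2) * (2101 * m ^ 2) := Nat.mul_le_mul h5 h4
      _ = m ^ 2 * (254221 * n ^ 2) := by ring
  have h7 := Nat.le_of_mul_le_mul_left h6 hM
  by_contra hcon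
  push Not at hcon
  have h8 : (8 * n + 1) ^ 2 ≤ (5 * s) ^ 2 := Nat.pow_le_pow_left (by omega) 2
  nlinarith

/-- nondegenerate conics, `p ≤ n` -/
theorem nondeg_big (hp5 : 5 ≤ p) (a b c d e g : ZMod p)
    (hdet : 4 * a * c * g + b * d * e - a * e ^ 2 - c * d ^ 2 - g * b ^ 2 ≠ 0)
    (n : ℕ) (hpn : p ≤ n) (S : Finset (ℤ × ℤ)) (hbox : InBox n S) (hS : NoT S)
    (hc : OnConic a b c d e g S) :
    25 * (p : ℤ) * S.card ≤ (40 * p + 32) * n + 75 * p := by
  have hp1 : 0 < p := (Fact.out : p.Prime).pos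
  have hp : 5 ≤ (p : ℤ) := by exact_mod_cast hp5
  have hpn' : (p : ℤ) ≤ n := by exact_mod_cast hpn
  rcases cases_det a b c d e g hdet with h | ⟨rfl, rfl, hb, hK⟩
  · have h1 := gen_case hp5 a b c d e g h hdet n S hbox hS hc
    have hq1 : 1 ≤ n / p := (Nat.one_le_div_iff hp1).2 hpn
    have hqu : n < (n / p + 1) * p := (Nat.div_lt_iff_lt_mul hp1).1 (Nat.lt_succ_self _)
    generalize n / p = q at h1 hq1 hqu
    have hqu' : (n : ℤ) < (q + 1) * p := by exact_mod_cast hqu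
    have hq1' : (1 : ℤ) ≤ q := by exact_mod_cast hq1
    have h2 : (n : ℤ) ≤ 2 * (q * p) := by nlinarith
    have h3 : 25 * (p : ℤ) * S.card ≤ 25 * p * (2 * n - (p - 3) * q) :=
      mul_le_mul_of_nonneg_left (by linarith) (by positivity)
    have h4 : (10 * (p : ℤ) - 32) * n ≤ (10 * p - 32) * (2 * (q * p)) :=
      mul_le_mul_of_nonneg_left h2 (by linarith)
    have h5 : 0 ≤ (q : ℤ) * p := by positivity
    nlinarith [mul_nonneg h5 (show (0 : ℤ) ≤ p - 5 by linarith)]
  · rcases Nat.lt_or_ge (2 * n) (5 * p) with h | h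
    · have h1 := hyp_general (by omega) b d e g hb hK n 3 hpn (by omega) S hbox hS hc
      have h2 : (S.card : ℤ) + p ≤ 2 * n + 6 := by exact_mod_cast h1
      have h3 : 25 * (p : ℤ) * S.card ≤ 25 * p * (2 * n + 6 - p) :=
        mul_le_mul_of_nonneg_left (by linarith) (by positivity)
      have h4 : 2 * (n : ℤ) + 1 ≤ 5 * p := by exact_mod_cast h
      -- reduce to `(5 p - 2 n) (5 p - 16) + ... ≥ 0`
      nlinarith [mul_nonneg (show (0 : ℤ) ≤ 5 * p - 2 * n by linarith)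
        (show (0 : ℤ) ≤ 5 * p - 16 by linarith)]
    · have h1 := hyp_big (by omega) b d e g hb hK n h S hbox hS hc
      linarith

/-- every nontrivial quadratic congruence -/
theorem all_bound (hp5 : 5 ≤ p) (a b c d e g : ZMod p)
    (hne : ¬ (a = 0 ∧ b = 0 ∧ c = 0 ∧ d = 0 ∧ e = 0 ∧ g = 0))
    (h5 : p = 5 → 4 * a * c * g + b * d * e - a * e ^ 2 - c * d ^ 2 - g * b ^ 2 ≠ 0)
    (n : ℕ) (hn : p ≤ n ∨ 2000 ≤ n) (S : Finset (ℤ × ℤ)) (hbox : InBox n S) (hS : NoT S)
    (hc : OnConic a b c d e g S) :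
    25 * (p : ℤ) * S.card ≤ (40 * p + 32) * n + 75 * p := by
  have hpp : p.Prime := Fact.out
  by_cases hdet : 4 * a * c * g + b * d * e - a * e ^ 2 - c * d ^ 2 - g * b ^ 2 = 0
  · have hp7 : 7 ≤ p := by
      by_contra hcon
      push Not at hcon
      have h6 : p = 5 ∨ p = 6 := by omega
      rcases h6 with h | h
      · exact h5 h hdet
      · rw [h] at hpp
        exact absurd hpp (by decide)
    exact deg_case' hp7 a b c d e g hne hdet n (by omega) S hbox hS hc
  · rcases Nat.lt_or_ge n p with h | h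
    · have hn' : 2000 ≤ n := by omega
      have h1 := small_box' (by omega) a b c d e g hdet n h.le hn' S hbox hS hc
      have h2 : 5 * (S.card : ℤ) ≤ 8 * n := by exact_mod_cast h1
      have hp : 0 < (p : ℤ) := by exact_mod_cast hpp.pos
      have hn0 : 0 ≤ (n : ℤ) := by positivity
      nlinarith [mul_le_mul_of_nonneg_left h2 hp.le]
    · exact nondeg_big hp5 a b c d e g hdet n h S hbox hS hc

end Pool.Agent.Helper83.MC
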